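import Mathlib

set_option autoImplicit false

/-!
# Alternating multiple zeta values
-/

namespace Pool.Agent.R390.MZ

open Filter Topology

open Classical in
/-- the partial sum of all `z_1 ^ l_1 ⋯ z_n ^ l_n / (l_1 ^ a_1 ⋯ l_n ^ a_n)` with
`M ≥ l_1 > … > l_n ≥ 1` (the functions `l` below are `(l_1 - 1, …, l_n - 1)`) -/
noncomputable def psum {n : ℕ} (a : Fin n → ℕ) (z : Fin n → ℝ) (M : ℕ) : ℝ :=
  ∑ l ∈ Finset.univ.filter (fun l : Fin n → Fin M => StrictAnti l),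
    ∏ j, z j ^ ((l j : ℕ) + 1) / (((l j : ℕ) + 1 : ℕ) : ℝ) ^ a j

/-- the `ℚ`-span of the alternating multiple zeta values of weight `w`: the limits of the partial sums
for `n ≥ 0`, `a_j ≥ 1`, `z_j = 1` or `z_j = -1`, `(a_1, z_1) ≠ (1, 1)`, `a_1 + … + a_n = w` -/
noncomputable def AZ (w : ℕ) : Submodule ℚ ℝ :=
  Submodule.span ℚ {y : ℝ | ∃ n : ℕ, ∃ a : Fin n → ℕ, ∃ z : Fin n → ℝ,
    (∀ j, 1 ≤ a j) ∧ (∀ j, z j = 1 ∨ z j = -1) ∧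
    (∀ h : 0 < n, ¬ (a ⟨0, h⟩ = 1 ∧ z ⟨0, h⟩ = 1)) ∧ ∑ j, a j = w ∧
    Tendsto (psum a z) atTop (𝓝 y)}

/-- the sequence `1, 1, 2, 3, 5, ...` -/
def fb (k : ℕ) : ℕ := Nat.fib (k + 1)

end Pool.Agent.R390.MZ
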