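import Mathlib

set_option autoImplicit false

/-!
# Brown's generation theorem, the dimension sequence and its shifts
-/

namespace Pool.Agent.R390.MZ

/-- the sequence `1, 0, 1, 1, 1, 2, 2, 3, 4, 5, ...`: `d_0 = 1`, `d_1 = 0`, `d_2 = 1` and
`d_n = d_(n-2) + d_(n-3)` for `n ≥ 3` -/
def dz : ℕ → ℕ
  | 0 => 1
  | 1 => 0
  | 2 => 1
  | n + 3 => dz (n + 1) + dz n

/-- the sequence `D` shifted by `n`: the value at `k` is `D (k - n)`, and `0` if `k < n` -/
def sh (D : ℕ → ℕ) (n k : ℕ) : ℕ := if n ≤ k then D (k - n) else 0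

/-- `sumTo D k = D 0 + ... + D k` -/
def sumTo (D : ℕ → ℕ) (k : ℕ) : ℕ := ∑ j ∈ Finset.range (k + 1), D j

/-- The real numbers `x s` with the weights `wt s` generate the spaces `Z k` with `d k` monomials of
weight `k`: for each `k` there are exactly `d k` monomials `m` of weight `k`, and the values of these
monomials span `Z k` over `ℚ`. (A monomial is a finitely supported function `m : σ → ℕ`, its weight
is `∑ m s * wt s` and its value `∏ (x s) ^ (m s)`.) -/
def Gens (Z : ℕ → Submodule ℚ ℝ) (d : ℕ → ℕ) {σ : Type} (wt : σ → ℕ) (x : σ → ℝ) : Prop :=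
  (∀ k, {m : σ →₀ ℕ | Finsupp.weight wt m = k}.encard = d k) ∧
  ∀ k, Z k = Submodule.span ℚ {y : ℝ | ∃ m : σ →₀ ℕ, Finsupp.weight wt m = k ∧
    y = m.prod fun s e => x s ^ e}

/-- There are real numbers which generate the spaces `Z k` with `d k` monomials of weight `k`. For
the spaces of multiple zeta values and `d = dz` this is a theorem of Brown (2012): one can take the
multiple zeta values of the Lyndon words in the letters `2` and `3`. -/
def Gen (Z : ℕ → Submodule ℚ ℝ) (d : ℕ → ℕ) : Prop :=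
  ∃ (σ : Type) (wt : σ → ℕ) (x : σ → ℝ), Gens Z d wt x

end Pool.Agent.R390.MZ
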