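import Mathlib
import Pool.Agent.R390.MZ.Defs

set_option autoImplicit false

/-!
# Prime ideals in a graded or filtered factorial algebra: three cases for the dimensions

`F` is a family of finite dimensional subspaces of a domain `R` over `ℚ` with `F a * F b ⊆ F (a + b)`.
-/

namespace Pool.Agent.R390.MZ

variable {R : Type*} [CommRing R] [IsDomain R] [Algebra ℚ R]

/-- the nonzero element `f` has degree exactly `n` with respect to the family `F` -/
def Exact (F : ℕ → Submodule ℚ R) (f : R) (n : ℕ) : Prop :=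
  f ≠ 0 ∧ f ∈ F n ∧ ∀ j g, g ≠ 0 → f * g ∈ F j → n ≤ j ∧ g ∈ F (j - n)

/-- the part of an ideal in `F k` -/
def pt (F : ℕ → Submodule ℚ R) (I : Ideal R) (k : ℕ) : Submodule ℚ R :=
  F k ⊓ I.restrictScalars ℚ

omit [IsDomain R] in
lemma mem_pt {F : ℕ → Submodule ℚ R} {I : Ideal R} {k : ℕ} {x : R} :
    x ∈ pt F I k ↔ x ∈ F k ∧ x ∈ I := by
  simp [pt]

lemma Exact.mul {F : ℕ → Submodule ℚ R} (hmul : ∀ a b, ∀ x ∈ F a, ∀ y ∈ F b, x * y ∈ F (a + b))
    {f g : R} {n m : ℕ} (hf : Exact F f n) (hg : Exact F g m) : Exact F (f * g) (n + m) := by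
  refine ⟨mul_ne_zero hf.1 hg.1, hmul _ _ _ hf.2.1 _ hg.2.1, fun j h hh hj => ?_⟩
  rw [mul_assoc] at hj
  obtain ⟨h1, h2⟩ := hf.2.2 j (g * h) (mul_ne_zero hg.1 hh) hj
  obtain ⟨h3, h4⟩ := hg.2.2 (j - n) h hh h2
  refine ⟨by omega, ?_⟩
  rwa [show j - (n + m) = j - n - m by omega]

lemma finrank_pt_span {F : ℕ → Submodule ℚ R}
    (hmul : ∀ a b, ∀ x ∈ F a, ∀ y ∈ F b, x * y ∈ F (a + b))
    {D : ℕ → ℕ} (hD : ∀ k, Module.finrank ℚ (F k) = D k)
    {f : R} {n : ℕ} (hf : Exact F f n) (k : ℕ) :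
    Module.finrank ℚ (pt F (Ideal.span {f}) k) = sh D n k := by
  unfold sh
  split_ifs with hk
  · have e : pt F (Ideal.span {f}) k = (F (k - n)).map (LinearMap.mulLeft ℚ f) := by
      ext x
      rw [mem_pt, Ideal.mem_span_singleton', Submodule.mem_map]
      constructor
      · rintro ⟨h1, a, rfl⟩
        by_cases ha : a = 0
        · exact ⟨0, zero_mem _, by simp [ha]⟩
        · rw [mul_comm] at h1
          exact ⟨a, (hf.2.2 k a ha h1).2, by simp [mul_comm]⟩
      · rintro ⟨a, ha, rfl⟩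
        refine ⟨?_, a, by simp [mul_comm]⟩
        have := hmul _ _ _ hf.2.1 _ ha
        rwa [show n + (k - n) = k by omega] at this
    rw [e, ← hD (k - n)]
    have hi : Function.Injective (LinearMap.mulLeft ℚ f) :=
      fun a b hab => mul_left_cancel₀ hf.1 (by simpa using hab)
    exact (Submodule.equivMapOfInjective _ hi _).finrank_eq.symm
  · have e : pt F (Ideal.span {f}) k = ⊥ := by
      rw [eq_bot_iff]
      intro x hx
      rw [mem_pt, Ideal.mem_span_singleton'] at hx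
      obtain ⟨h1, a, rfl⟩ := hx
      by_cases ha : a = 0
      · simp [ha]
      · rw [mul_comm] at h1
        exact absurd (hf.2.2 k a ha h1).1 hk
    rw [e, finrank_bot]

lemma finrank_pt_ge {F : ℕ → Submodule ℚ R} [∀ k, FiniteDimensional ℚ (F k)]
    (hmul : ∀ a b, ∀ x ∈ F a, ∀ y ∈ F b, x * y ∈ F (a + b))
    {D : ℕ → ℕ} (hD : ∀ k, Module.finrank ℚ (F k) = D k)
    {f : R} {n : ℕ} (hf : Exact F f n) {P : Ideal R} (hP : f ∈ P) (k : ℕ) :
    sh D n k ≤ Module.finrank ℚ (pt F P k) := by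
  rw [← finrank_pt_span hmul hD hf k]
  have : FiniteDimensional ℚ (pt F P k) := Submodule.finiteDimensional_of_le (S₂ := F k) inf_le_left
  refine Submodule.finrank_mono ?_
  intro x hx
  rw [mem_pt] at hx ⊢
  exact ⟨hx.1, (Ideal.span_singleton_le_iff_mem P).2 hP hx.2⟩

lemma finrank_pt_ge_two {F : ℕ → Submodule ℚ R} [∀ k, FiniteDimensional ℚ (F k)]
    (hmul : ∀ a b, ∀ x ∈ F a, ∀ y ∈ F b, x * y ∈ F (a + b))
    {D : ℕ → ℕ} (hD : ∀ k, Module.finrank ℚ (F k) = D k)
    {f g : R} {n m : ℕ} (hf : Exact F f n) (hg : Exact F g m) (hfp : Prime f) (hfg : ¬ f ∣ g)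
    {P : Ideal R} (hP : f ∈ P) (hQ : g ∈ P) (k : ℕ) :
    sh D n k + sh D m k ≤ Module.finrank ℚ (pt F P k) + sh D (n + m) k := by
  rw [← finrank_pt_span hmul hD hf k, ← finrank_pt_span hmul hD hg k,
    ← finrank_pt_span hmul hD (hf.mul hmul hg) k]
  have i0 : FiniteDimensional ℚ (pt F P k) := Submodule.finiteDimensional_of_le (S₂ := F k) inf_le_left
  have i1 : FiniteDimensional ℚ (pt F (Ideal.span {f}) k) :=
    Submodule.finiteDimensional_of_le (S₂ := F k) inf_le_left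
  have i2 : FiniteDimensional ℚ (pt F (Ideal.span {g}) k) :=
    Submodule.finiteDimensional_of_le (S₂ := F k) inf_le_left
  rw [← Submodule.finrank_sup_add_finrank_inf_eq]
  refine add_le_add (Submodule.finrank_mono ?_) (le_of_eq ?_)
  · refine sup_le ?_ ?_
    · intro x hx
      rw [mem_pt] at hx ⊢
      exact ⟨hx.1, (Ideal.span_singleton_le_iff_mem P).2 hP hx.2⟩
    · intro x hx
      rw [mem_pt] at hx ⊢
      exact ⟨hx.1, (Ideal.span_singleton_le_iff_mem P).2 hQ hx.2⟩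
  · have e : pt F (Ideal.span {f}) k ⊓ pt F (Ideal.span {g}) k = pt F (Ideal.span {f * g}) k := ?_
    · rw [e]
    ext x
    rw [Submodule.mem_inf, mem_pt, mem_pt, mem_pt, Ideal.mem_span_singleton,
      Ideal.mem_span_singleton, Ideal.mem_span_singleton]
    constructor
    · rintro ⟨⟨h1, h2⟩, -, c, hc⟩
      refine ⟨h1, ?_⟩
      rw [hc] at h2
      obtain ⟨e, rfl⟩ := (hfp.dvd_or_dvd h2).resolve_left hfg
      exact ⟨e, by rw [hc]; ring⟩
    · rintro ⟨h1, h2⟩
      exact ⟨⟨h1, dvd_of_mul_right_dvd h2⟩, h1, dvd_of_mul_left_dvd h2⟩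

omit [IsDomain R] in
lemma finrank_map_add {V : Type*} [AddCommGroup V] [Module ℚ V]
    {F : ℕ → Submodule ℚ R} [∀ k, FiniteDimensional ℚ (F k)]
    {D : ℕ → ℕ} (hD : ∀ k, Module.finrank ℚ (F k) = D k) (φ : R →ₗ[ℚ] V) {P : Ideal R} {k : ℕ}
    (hP : ∀ x ∈ F k, x ∈ P ↔ φ x = 0) :
    Module.finrank ℚ ((F k).map φ) + Module.finrank ℚ (pt F P k) = D k := by
  have h1 := LinearMap.finrank_range_add_finrank_ker (φ.domRestrict (F k))
  rw [hD, LinearMap.range_domRestrict] at h1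
  have e : Module.finrank ℚ (LinearMap.ker (φ.domRestrict (F k))) =
      Module.finrank ℚ (pt F P k) := by
    have : (LinearMap.ker (φ.domRestrict (F k))).map (F k).subtype = pt F P k := by
      ext x
      rw [Submodule.mem_map, mem_pt]
      constructor
      · rintro ⟨y, hy, rfl⟩
        refine ⟨y.2, (hP _ y.2).2 ?_⟩
        simpa using hy
      · rintro ⟨h1, h2⟩
        exact ⟨⟨x, h1⟩, by simpa using (hP x h1).1 h2, rfl⟩
    rw [← this]
    exact (Submodule.equivMapOfInjective _ (F k).injective_subtype _).finrank_eq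
  rw [e] at h1
  exact h1

omit [IsDomain R] in
/-- a nonzero element of least degree of a prime ideal is prime -/
lemma prime_of_least [UniqueFactorizationMonoid R] {F : ℕ → Submodule ℚ R} {P : Ideal R}
    (hPp : P.IsPrime) (hU : ∀ q ∈ F 0, q ≠ 0 → IsUnit q)
    (hdiv : ∀ p q n, p * q ∈ F n → p * q ≠ 0 → ∃ i j, i + j ≤ n ∧ p ∈ F i ∧ q ∈ F j)
    {f : R} {n : ℕ} (hf : f ∈ F n) (hfP : f ∈ P) (hf0 : f ≠ 0)
    (hn : ∀ k < n, ∀ g ∈ F k, g ∈ P → g = 0) : Prime f := by
  have h1 : (UniqueFactorizationMonoid.factors f).prod ∈ P := by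
    obtain ⟨u, hu⟩ := UniqueFactorizationMonoid.factors_prod hf0
    rw [← hu] at hfP
    exact (Ideal.mul_unit_mem_iff_mem _ u.isUnit).1 hfP
  obtain ⟨p, hp, hpP⟩ := (hPp.multiset_prod_mem_iff_exists_mem
    (UniqueFactorizationMonoid.factors f)).1 h1
  have hpp := UniqueFactorizationMonoid.prime_of_factor p hp
  obtain ⟨q, hq⟩ := UniqueFactorizationMonoid.dvd_of_mem_factors hp
  rw [hq] at hf hf0
  obtain ⟨i, j, hij, hi, hj⟩ := hdiv p q n hf hf0
  have h2 : n ≤ i := by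
    by_contra hc
    exact hpp.ne_zero (hn i (by omega) p hi hpP)
  have h3 : j = 0 := by omega
  subst h3
  have h4 := hU q hj (right_ne_zero_of_mul hf0)
  rw [hq]
  exact (associated_mul_unit_right p q h4).prime hpp

/-- **The three cases.** -/
theorem trichotomy [UniqueFactorizationMonoid R] {V : Type*} [AddCommGroup V] [Module ℚ V]
    {F : ℕ → Submodule ℚ R} [∀ k, FiniteDimensional ℚ (F k)]
    (hmul : ∀ a b, ∀ x ∈ F a, ∀ y ∈ F b, x * y ∈ F (a + b))
    {D : ℕ → ℕ} (hD : ∀ k, Module.finrank ℚ (F k) = D k) (φ : R →ₗ[ℚ] V) {P : Ideal R}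
    (hPp : P.IsPrime)
    (hP : ∀ k, ∀ x ∈ F k, x ∈ P ↔ φ x = 0)
    (hU : ∀ q ∈ F 0, q ≠ 0 → IsUnit q)
    (hX : ∀ n f, f ∈ F n → f ≠ 0 → (∀ k < n, f ∉ F k) → Exact F f n)
    (hdiv : ∀ p q n, p * q ∈ F n → p * q ≠ 0 → ∃ i j, i + j ≤ n ∧ p ∈ F i ∧ q ∈ F j)
    (hsplit : ∀ f g, g ∈ P → ¬ f ∣ g → ∃ k, ∃ g' ∈ F k, g' ∈ P ∧ ¬ f ∣ g') :
    (P = ⊥ ∧ ∀ k, Module.finrank ℚ ((F k).map φ) = D k) ∨
    (∃ f n, f ∈ P ∧ Prime f ∧ Exact F f n ∧ P = Ideal.span {f} ∧
      ∀ k, Module.finrank ℚ ((F k).map φ) + sh D n k = D k) ∨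
    (∃ f n g m, n ≤ m ∧ f ∈ P ∧ Prime f ∧ Exact F f n ∧ g ∈ P ∧ ¬ f ∣ g ∧ Exact F g m ∧
      (∀ k < m, ∀ h ∈ F k, h ∈ P → f ∣ h) ∧
      (∀ k < m, Module.finrank ℚ ((F k).map φ) + sh D n k = D k) ∧
      ∀ k, Module.finrank ℚ ((F k).map φ) + sh D n k ≤ D k ∧
        Module.finrank ℚ ((F k).map φ) + sh D n k + sh D m k ≤ D k + sh D (n + m) k) := by
  classical
  by_cases h0 : P = ⊥
  · refine Or.inl ⟨h0, fun k => ?_⟩
    have := finrank_map_add hD φ (hP k)
    have e : pt F P k = ⊥ := by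
      rw [eq_bot_iff]
      intro x hx
      rw [mem_pt, h0] at hx
      simpa using hx.2
    rw [e, finrank_bot] at this
    omega
  · have hE : ∃ k, ∃ g ∈ F k, g ∈ P ∧ g ≠ 0 := by
      obtain ⟨a, ha, ha0⟩ := Submodule.exists_mem_ne_zero_of_ne_bot h0
      obtain ⟨k, g, hg, hgP, hg0⟩ := hsplit 0 a ha (by rwa [zero_dvd_iff])
      rw [zero_dvd_iff] at hg0
      exact ⟨k, g, hg, hgP, hg0⟩
    obtain ⟨f, hf, hfP, hf0⟩ := Nat.find_spec hE
    set n := Nat.find hE with hn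
    have hmin : ∀ k < n, ∀ g ∈ F k, g ∈ P → g = 0 := by
      intro k hk g hg hgP
      by_contra hc
      exact Nat.find_min hE hk ⟨g, hg, hgP, hc⟩
    have hfe : Exact F f n := hX n f hf hf0 fun k hk hfk => hf0 (hmin k hk f hfk hfP)
    have hfp : Prime f := prime_of_least hPp hU hdiv hf hfP hf0 hmin
    by_cases h1 : P = Ideal.span {f}
    · refine Or.inr (Or.inl ⟨f, n, hfP, hfp, hfe, h1, fun k => ?_⟩)
      have := finrank_map_add hD φ (hP k)
      rw [h1, finrank_pt_span hmul hD hfe k] at this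
      exact this
    · have hG : ∃ k, ∃ g ∈ F k, g ∈ P ∧ ¬ f ∣ g := by
        have h2 : ∃ a ∈ P, ¬ f ∣ a := by
          by_contra hc
          push Not at hc
          exact h1 (le_antisymm (fun a ha => Ideal.mem_span_singleton.2 (hc a ha))
            ((Ideal.span_singleton_le_iff_mem _).2 hfP))
        obtain ⟨a, ha, hfa⟩ := h2
        exact hsplit f a ha hfa
      obtain ⟨g, hg, hgP, hfg⟩ := Nat.find_spec hG
      set m := Nat.find hG with hm
      have hmin' : ∀ k < m, ∀ g ∈ F k, g ∈ P → f ∣ g := by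
        intro k hk g hg hgP
        by_contra hc
        exact Nat.find_min hG hk ⟨g, hg, hgP, hc⟩
      have hg0 : g ≠ 0 := fun h => hfg (h ▸ dvd_zero f)
      have hge : Exact F g m := hX m g hg hg0 fun k hk hgk => hfg (hmin' k hk g hgk hgP)
      have hnm : n ≤ m := by
        by_contra hc
        exact hg0 (hmin m (by omega) g hg hgP)
      refine Or.inr (Or.inr ⟨f, n, g, m, hnm, hfP, hfp, hfe, hgP, hfg, hge, hmin', fun k hk => ?_,
        fun k => ?_⟩)
      · have h3 := finrank_map_add hD φ (hP k)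
        have e : pt F P k = pt F (Ideal.span {f}) k := by
          ext x
          rw [mem_pt, mem_pt, Ideal.mem_span_singleton]
          constructor
          · exact fun h => ⟨h.1, hmin' k hk x h.1 h.2⟩
          · exact fun h => ⟨h.1, Ideal.mem_of_dvd P h.2 hfP⟩
        rw [e, finrank_pt_span hmul hD hfe k] at h3
        exact h3
      · have := finrank_map_add hD φ (hP k)
        have := finrank_pt_ge_two hmul hD hfe hge hfp hfg hfP hgP k
        have := finrank_pt_ge hmul hD hfe hfP k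
        constructor <;> omega

end Pool.Agent.R390.MZ
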