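import Mathlib
import Pool.Agent.R390.MZ.Core

set_option autoImplicit false

/-!
# Weighted polynomial rings in arbitrarily many variables
-/

open MvPolynomial

namespace Pool.Agent.R390.MZ

variable {σ : Type*} (wt : σ → ℕ)

/-- the polynomials all of whose monomials have weight in `S` -/
noncomputable def A (S : Set ℕ) : Submodule ℚ (MvPolynomial σ ℚ) :=
  restrictSupport ℚ {m | Finsupp.weight wt m ∈ S}

/-- the homogeneous polynomials of weight `k` -/
noncomputable def H (k : ℕ) : Submodule ℚ (MvPolynomial σ ℚ) := A wt {k}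

/-- the polynomials of weight at most `k` -/
noncomputable def L (k : ℕ) : Submodule ℚ (MvPolynomial σ ℚ) := A wt (Set.Iic k)

variable {wt}

lemma mem_A {S : Set ℕ} {f : MvPolynomial σ ℚ} :
    f ∈ A wt S ↔ ∀ m, f.coeff m ≠ 0 → Finsupp.weight wt m ∈ S := by
  rw [A, mem_restrictSupport_iff]
  constructor
  · intro h m hm
    exact h (by simpa using hm)
  · intro h m hm
    exact h m (by simpa using hm)

lemma finrank_A {S : Set ℕ} : Module.finrank ℚ (A wt S) =
    Nat.card {m : σ →₀ ℕ | Finsupp.weight wt m ∈ S} := by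
  rw [A]
  exact Module.finrank_eq_nat_card_basis (basisRestrictSupport ℚ _)

lemma finite_A {S : Set ℕ} (h : {m : σ →₀ ℕ | Finsupp.weight wt m ∈ S}.Finite) :
    FiniteDimensional ℚ (A wt S) := by
  have := h.to_subtype
  exact Module.Finite.of_basis (basisRestrictSupport ℚ {m : σ →₀ ℕ | Finsupp.weight wt m ∈ S})

lemma map_A {S : Set ℕ} {V : Type*} [AddCommGroup V] [Module ℚ V] (φ : MvPolynomial σ ℚ →ₗ[ℚ] V) :
    (A wt S).map φ =
      Submodule.span ℚ ((fun m => φ (monomial m 1)) '' {m | Finsupp.weight wt m ∈ S}) := by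
  rw [A, restrictSupport_eq_span, Submodule.map_span, ← Set.image_comp]
  rfl

variable (wt)

/-- the substitution `X s ↦ X s * t ^ (wt s)` -/
noncomputable def T : MvPolynomial σ ℚ →ₐ[ℚ] Polynomial (MvPolynomial σ ℚ) :=
  aeval fun s => Polynomial.monomial (wt s) (X s)

variable {wt}

lemma T_monomial_one (m : σ →₀ ℕ) :
    T wt (monomial m 1) = Polynomial.monomial (Finsupp.weight wt m) (monomial m 1) := by
  induction m using Finsupp.induction_linear with
  | zero => simp [T]
  | add a b ha hb =>
    have : (monomial (a + b) (1 : ℚ)) = monomial a 1 * monomial b 1 := by simp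
    rw [this, map_mul, ha, hb, Polynomial.monomial_mul_monomial, map_add]
  | single s n =>
    have : (monomial (Finsupp.single s n) (1 : ℚ)) = X s ^ n := by
      rw [MvPolynomial.X_pow_eq_monomial]
    rw [this, map_pow, T, aeval_X, Polynomial.monomial_pow, Finsupp.weight_single]
    rw [mul_comm, smul_eq_mul]

lemma T_monomial (m : σ →₀ ℕ) (c : ℚ) :
    T wt (monomial m c) = Polynomial.monomial (Finsupp.weight wt m) (monomial m c) := by
  have : (monomial m c) = c • (monomial m (1 : ℚ)) := by
    rw [MvPolynomial.smul_monomial, smul_eq_mul, mul_one]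
  rw [this, map_smul, T_monomial_one, Polynomial.smul_monomial]

lemma coeff_T (f : MvPolynomial σ ℚ) (j : ℕ) (m : σ →₀ ℕ) :
    MvPolynomial.coeff m ((T wt f).coeff j) =
      if Finsupp.weight wt m = j then f.coeff m else 0 := by
  classical
  induction f using MvPolynomial.induction_on' with
  | monomial u a =>
    rw [T_monomial, Polynomial.coeff_monomial]
    by_cases h : u = m
    · subst h
      split_ifs <;> simp
    · split_ifs <;> simp [h]
  | add p q hp hq =>
    rw [map_add, Polynomial.coeff_add, coeff_add, hp, hq, coeff_add]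
    split_ifs <;> simp

lemma eval_T (f : MvPolynomial σ ℚ) : (T wt f).eval 1 = f := by
  have : ((Polynomial.aeval (R := MvPolynomial σ ℚ) (1 : MvPolynomial σ ℚ)).restrictScalars ℚ).comp
      (T wt) = AlgHom.id ℚ (MvPolynomial σ ℚ) := by
    refine MvPolynomial.algHom_ext fun s => ?_
    simp [T]
  have h := congrArg (fun g => g f) this
  simpa [Polynomial.aeval_def, Polynomial.eval₂_eq_eval_map] using h

lemma T_ne_zero {f : MvPolynomial σ ℚ} (hf : f ≠ 0) : T wt f ≠ 0 := fun h => hf (by
  rw [← eval_T (wt := wt) f, h, Polynomial.eval_zero])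

lemma mem_H {k : ℕ} {f : MvPolynomial σ ℚ} :
    f ∈ H wt k ↔ T wt f = Polynomial.monomial k f := by
  rw [H, mem_A]
  constructor
  · intro h
    ext j m
    rw [coeff_T, Polynomial.coeff_monomial]
    by_cases hm : f.coeff m = 0
    · simp only [hm, ite_self]
      split_ifs
      · exact hm.symm
      · simp
    · have := h m hm
      rw [Set.mem_singleton_iff] at this
      rw [this]
      split_ifs <;> simp
  · intro h m hm
    have := coeff_T (wt := wt) f (Finsupp.weight wt m) m
    rw [h, Polynomial.coeff_monomial, if_pos rfl] at this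
    rw [Set.mem_singleton_iff]
    by_contra hk
    rw [if_neg (fun h => hk h.symm), MvPolynomial.coeff_zero] at this
    exact hm this.symm

lemma mem_L {k : ℕ} {f : MvPolynomial σ ℚ} : f ∈ L wt k ↔ (T wt f).natDegree ≤ k := by
  rw [L, mem_A, Polynomial.natDegree_le_iff_coeff_eq_zero]
  constructor
  · intro h j hj
    ext m
    rw [coeff_T]
    split_ifs with hm
    · by_contra hc
      have := h m hc
      rw [Set.mem_Iic] at this
      omega
    · simp
  · intro h m hm
    rw [Set.mem_Iic]
    by_contra hk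
    have := h (Finsupp.weight wt m) (by omega)
    have h2 := coeff_T (wt := wt) f (Finsupp.weight wt m) m
    rw [this, if_pos rfl, MvPolynomial.coeff_zero] at h2
    exact hm h2.symm

lemma mul_mem_H (a b : ℕ) (x : MvPolynomial σ ℚ) (hx : x ∈ H wt a) (y : MvPolynomial σ ℚ)
    (hy : y ∈ H wt b) : x * y ∈ H wt (a + b) := by
  rw [mem_H] at *
  rw [map_mul, hx, hy, Polynomial.monomial_mul_monomial]

lemma mul_mem_L (a b : ℕ) (x : MvPolynomial σ ℚ) (hx : x ∈ L wt a) (y : MvPolynomial σ ℚ)
    (hy : y ∈ L wt b) : x * y ∈ L wt (a + b) := by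
  rw [mem_L] at *
  rw [map_mul]
  exact Polynomial.natDegree_mul_le.trans (add_le_add hx hy)

lemma exact_L {f : MvPolynomial σ ℚ} (hf : f ≠ 0) : Exact (L wt) f (T wt f).natDegree := by
  refine ⟨hf, mem_L.2 le_rfl, fun j g hg h => ?_⟩
  rw [mem_L, map_mul, Polynomial.natDegree_mul (T_ne_zero hf) (T_ne_zero hg)] at h
  refine ⟨by omega, mem_L.2 (by omega)⟩

lemma exact_H {f : MvPolynomial σ ℚ} {n : ℕ} (hf : f ≠ 0) (hn : f ∈ H wt n) :
    Exact (H wt) f n := by
  refine ⟨hf, hn, fun j g hg h => ?_⟩
  rw [mem_H] at hn h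
  rw [map_mul, hn] at h
  have key : ∀ i, n + i ≠ j → (T wt g).coeff i = 0 := by
    intro i hi
    have := congrArg (fun p => Polynomial.coeff p (n + i)) h
    rw [add_comm n i, Polynomial.coeff_monomial_mul, Polynomial.coeff_monomial, if_neg (by omega)]
      at this
    exact (mul_eq_zero.1 this).resolve_left hf
  have hnj : n ≤ j := by
    by_contra hc
    apply T_ne_zero (wt := wt) hg
    ext1 i
    rw [key i (by omega), Polynomial.coeff_zero]
  refine ⟨hnj, ?_⟩
  have e : T wt g = Polynomial.monomial (j - n) ((T wt g).coeff (j - n)) := by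
    ext1 i
    rw [Polynomial.coeff_monomial]
    split_ifs with hi
    · rw [hi]
    · exact key i (by omega)
  rw [mem_H]
  have e2 := eval_T (wt := wt) g
  rw [e, Polynomial.eval_monomial, one_pow, mul_one] at e2
  rw [e2] at e
  exact e

/-- divisors of homogeneous polynomials are homogeneous -/
lemma exists_mem_H_of_dvd {a x : MvPolynomial σ ℚ} {j : ℕ} (hx : x ∈ H wt j) (hx0 : x ≠ 0)
    (h : a ∣ x) : ∃ i, a ∈ H wt i := by
  classical
  obtain ⟨b, rfl⟩ := h
  have ha : a ≠ 0 := left_ne_zero_of_mul hx0
  have hb : b ≠ 0 := right_ne_zero_of_mul hx0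
  rw [mem_H, map_mul] at hx
  have h1 : (T wt a).natDegree + (T wt b).natDegree = j := by
    rw [← Polynomial.natDegree_mul (T_ne_zero ha) (T_ne_zero hb), hx,
      Polynomial.natDegree_monomial, if_neg hx0]
  have h2 : (T wt a).natTrailingDegree + (T wt b).natTrailingDegree = j := by
    rw [← Polynomial.natTrailingDegree_mul (T_ne_zero ha) (T_ne_zero hb), hx,
      Polynomial.natTrailingDegree_monomial hx0]
  have h3 := Polynomial.natTrailingDegree_le_natDegree (T wt a)
  have h4 := Polynomial.natTrailingDegree_le_natDegree (T wt b)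
  have h5 : (T wt a).natTrailingDegree = (T wt a).natDegree := by omega
  refine ⟨(T wt a).natDegree, ?_⟩
  have e : T wt a = Polynomial.monomial (T wt a).natDegree ((T wt a).coeff (T wt a).natDegree) := by
    ext1 i
    rw [Polynomial.coeff_monomial]
    split_ifs with hi
    · rw [hi]
    · rcases lt_or_gt_of_ne hi with h | h
      · exact Polynomial.coeff_eq_zero_of_natDegree_lt h
      · exact Polynomial.coeff_eq_zero_of_lt_natTrailingDegree (by omega)
  rw [mem_H]
  have e2 := eval_T (wt := wt) a
  rw [e, Polynomial.eval_monomial, one_pow, mul_one] at e2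
  rw [e2] at e
  exact e

end Pool.Agent.R390.MZ
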