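import Mathlib
import Pool.Agent.R390.MZ.Poly

set_option autoImplicit false

/-!
# Families of subspaces of the real numbers generated as a weighted polynomial ring
-/

open MvPolynomial

namespace Pool.Agent.R390.MZ

section

variable {σ : Type} {wt : σ → ℕ} {x : σ → ℝ} {Z : ℕ → Submodule ℚ ℝ} {d : ℕ → ℕ}

lemma aeval_monomial_one (m : σ →₀ ℕ) :
    aeval x (monomial m (1 : ℚ)) = m.prod fun s e => x s ^ e := by
  rw [aeval_monomial, map_one, one_mul]

lemma Z_eq (hZ : ∀ k, Z k = Submodule.span ℚ {y : ℝ | ∃ m : σ →₀ ℕ, Finsupp.weight wt m = k ∧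
      y = m.prod fun s e => x s ^ e}) (k : ℕ) :
    Z k = (H wt k).map (aeval (R := ℚ) x).toLinearMap := by
  rw [hZ, H, map_A]
  congr 1
  ext y
  simp only [Set.mem_ofPred_eq, Set.mem_image, Set.mem_singleton_iff]
  constructor
  · rintro ⟨m, hm, rfl⟩
    exact ⟨m, hm, aeval_monomial_one m⟩
  · rintro ⟨m, hm, rfl⟩
    exact ⟨m, hm, aeval_monomial_one m⟩

lemma iSup_Z_eq (hZ : ∀ k, Z k = Submodule.span ℚ {y : ℝ | ∃ m : σ →₀ ℕ,
      Finsupp.weight wt m = k ∧ y = m.prod fun s e => x s ^ e}) (k : ℕ) :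
    ⨆ j ∈ Set.Iic k, Z j = (L wt k).map (aeval (R := ℚ) x).toLinearMap := by
  have : L wt k = ⨆ j ∈ Set.Iic k, H wt j := by
    simp only [L, H, A, restrictSupport_eq_span, ← Submodule.span_iUnion₂]
    congr 1
    ext y
    simp only [Set.mem_image, Set.mem_ofPred_eq, Set.mem_iUnion, Set.mem_Iic, Set.mem_singleton_iff]
    constructor
    · rintro ⟨m, hm, rfl⟩
      exact ⟨_, hm, m, rfl, rfl⟩
    · rintro ⟨j, hj, m, hm, rfl⟩
      exact ⟨m, by omega, rfl⟩
  rw [this, Submodule.map_iSup]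
  refine iSup_congr fun j => ?_
  rw [Submodule.map_iSup]
  exact iSup_congr fun hj => Z_eq hZ j

lemma finite_H (hd : ∀ k, {m : σ →₀ ℕ | Finsupp.weight wt m = k}.encard = d k) (k : ℕ) :
    FiniteDimensional ℚ (H wt k) := by
  refine finite_A ?_
  simpa using Set.finite_of_encard_eq_coe (hd k)

lemma finrank_H (hd : ∀ k, {m : σ →₀ ℕ | Finsupp.weight wt m = k}.encard = d k) (k : ℕ) :
    Module.finrank ℚ (H wt k) = d k := by
  rw [H, finrank_A, Nat.card_coe_set_eq, Set.ncard_def]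
  simp only [Set.mem_singleton_iff]
  rw [hd, ENat.toNat_natCast]

lemma finite_le (hd : ∀ k, {m : σ →₀ ℕ | Finsupp.weight wt m = k}.encard = d k) (k : ℕ) :
    {m : σ →₀ ℕ | Finsupp.weight wt m ≤ k}.Finite := by
  have : {m : σ →₀ ℕ | Finsupp.weight wt m ≤ k} =
      ⋃ j ∈ Set.Iic k, {m : σ →₀ ℕ | Finsupp.weight wt m = j} := by
    ext m
    simp
  rw [this]
  exact (Set.finite_Iic k).biUnion fun j _ => Set.finite_of_encard_eq_coe (hd j)

lemma finite_L (hd : ∀ k, {m : σ →₀ ℕ | Finsupp.weight wt m = k}.encard = d k) (k : ℕ) :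
    FiniteDimensional ℚ (L wt k) :=
  finite_A (by simpa using finite_le hd k)

lemma finrank_L (hd : ∀ k, {m : σ →₀ ℕ | Finsupp.weight wt m = k}.encard = d k) (k : ℕ) :
    Module.finrank ℚ (L wt k) = sumTo d k := by
  classical
  rw [L, finrank_A, Nat.card_coe_set_eq]
  simp only [Set.mem_Iic]
  rw [Set.ncard_eq_toFinset_card _ (finite_le hd k), sumTo,
    Finset.card_eq_sum_card_fiberwise (f := fun m => Finsupp.weight wt m)
      (t := Finset.range (k + 1))]
  · refine Finset.sum_congr rfl fun j hj => ?_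
    have h1 : ((Finset.filter (fun m => Finsupp.weight wt m = j) (finite_le hd k).toFinset :
        Finset (σ →₀ ℕ)) : Set (σ →₀ ℕ)) = {m : σ →₀ ℕ | Finsupp.weight wt m = j} := by
      ext m
      simp only [Finset.coe_filter, Set.Finite.mem_toFinset, Set.mem_ofPred_eq]
      constructor
      · exact fun h => h.2
      · intro h
        rw [Finset.mem_range] at hj
        exact ⟨by omega, h⟩
    have h2 := hd j
    rw [← h1, Set.encard_coe_eq_coe_finsetCard] at h2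
    exact_mod_cast h2
  · intro m hm
    simp only [Set.Finite.coe_toFinset, Set.mem_ofPred_eq] at hm
    simp only [Finset.coe_range, Set.mem_Iio]
    omega

/-- the ideal of all polynomials whose homogeneous components give `0` -/
noncomputable def Ph (wt : σ → ℕ) (x : σ → ℝ) : Ideal (MvPolynomial σ ℚ) :=
  RingHom.ker ((Polynomial.mapAlgHom (aeval (R := ℚ) x)).comp (T wt))

/-- the ideal of all polynomials that give `0` -/
noncomputable def Pf (x : σ → ℝ) : Ideal (MvPolynomial σ ℚ) := RingHom.ker (aeval (R := ℚ) x)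

lemma mem_Ph {f : MvPolynomial σ ℚ} :
    f ∈ Ph wt x ↔ ∀ j, aeval x ((T wt f).coeff j) = 0 := by
  rw [Ph, RingHom.mem_ker]
  constructor
  · intro h j
    have := congrArg (fun p => Polynomial.coeff p j) h
    simpa using this
  · intro h
    ext j
    simpa using h j

lemma mem_Pf {f : MvPolynomial σ ℚ} : f ∈ Pf x ↔ aeval x f = 0 := by
  rw [Pf, RingHom.mem_ker]

instance : (Ph wt x).IsPrime := RingHom.ker_isPrime _

instance : (Pf x).IsPrime := RingHom.ker_isPrime _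

lemma coeff_T_mem_H (f : MvPolynomial σ ℚ) (j : ℕ) : (T wt f).coeff j ∈ H wt j := by
  rw [H, mem_A]
  intro m hm
  rw [coeff_T] at hm
  by_contra hc
  exact hm (if_neg hc)

lemma mem_Ph_of_mem_H {f : MvPolynomial σ ℚ} {k : ℕ} (hf : f ∈ H wt k) :
    f ∈ Ph wt x ↔ aeval x f = 0 := by
  rw [mem_Ph, mem_H.1 hf]
  constructor
  · intro h
    simpa using h k
  · intro h j
    rw [Polynomial.coeff_monomial]
    split_ifs
    · exact h
    · simp

lemma coeff_T_mem_Ph {f : MvPolynomial σ ℚ} (hf : f ∈ Ph wt x) (j : ℕ) :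
    (T wt f).coeff j ∈ Ph wt x := by
  rw [mem_Ph_of_mem_H (coeff_T_mem_H f j)]
  exact mem_Ph.1 hf j

lemma eq_sum_coeff_T (f : MvPolynomial σ ℚ) :
    f = ∑ j ∈ (T wt f).support, (T wt f).coeff j := by
  have := eval_T (wt := wt) f
  rw [Polynomial.eval_eq_sum, Polynomial.sum] at this
  simpa using this.symm

lemma Ph_le_Pf : Ph wt x ≤ Pf x := by
  intro f hf
  rw [mem_Pf, eq_sum_coeff_T (wt := wt) f, map_sum]
  exact Finset.sum_eq_zero fun j _ => mem_Ph.1 hf j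

lemma exists_prime_Ph (h : Ph wt x ≠ ⊥) :
    ∃ f n, f ∈ Ph wt x ∧ Prime f ∧ f ∈ H wt n := by
  obtain ⟨a, ha, ha0⟩ := Submodule.exists_mem_ne_zero_of_ne_bot h
  have : ∃ j, (T wt a).coeff j ≠ 0 := by
    by_contra hc
    push Not at hc
    exact T_ne_zero (wt := wt) ha0 (by ext1 j; simpa using hc j)
  obtain ⟨j, hj⟩ := this
  set b := (T wt a).coeff j with hb
  have hbP : b ∈ Ph wt x := coeff_T_mem_Ph ha j
  have hbH : b ∈ H wt j := coeff_T_mem_H a j
  have h1 : (UniqueFactorizationMonoid.factors b).prod ∈ Ph wt x := by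
    obtain ⟨u, hu⟩ := UniqueFactorizationMonoid.factors_prod hj
    rw [← hu] at hbP
    exact (Ideal.mul_unit_mem_iff_mem _ u.isUnit).1 hbP
  obtain ⟨p, hp, hpP⟩ := (Ideal.IsPrime.multiset_prod_mem_iff_exists_mem
    (inferInstance : (Ph wt x).IsPrime) (UniqueFactorizationMonoid.factors b)).1 h1
  obtain ⟨n, hn⟩ := exists_mem_H_of_dvd hbH hj (UniqueFactorizationMonoid.dvd_of_mem_factors hp)
  exact ⟨p, n, hpP, UniqueFactorizationMonoid.prime_of_factor p hp, hn⟩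

lemma exists_not_dvd_Ph {f : MvPolynomial σ ℚ} (hf : f ∈ Ph wt x)
    (h : Ph wt x ≠ Ideal.span {f}) : ∃ g m, g ∈ Ph wt x ∧ ¬ f ∣ g ∧ g ∈ H wt m := by
  have h1 : ∃ a ∈ Ph wt x, ¬ f ∣ a := by
    by_contra hc
    push Not at hc
    exact h (le_antisymm (fun a ha => Ideal.mem_span_singleton.2 (hc a ha))
      ((Ideal.span_singleton_le_iff_mem _).2 hf))
  obtain ⟨a, ha, hfa⟩ := h1
  have h2 : ∃ j, ¬ f ∣ (T wt a).coeff j := by
    by_contra hc
    push Not at hc
    apply hfa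
    rw [eq_sum_coeff_T (wt := wt) a]
    exact Finset.dvd_sum fun j _ => hc j
  obtain ⟨j, hj⟩ := h2
  exact ⟨_, j, coeff_T_mem_Ph ha j, hj, coeff_T_mem_H a j⟩

lemma exists_not_dvd_Pf {f : MvPolynomial σ ℚ} (hf : f ∈ Pf x)
    (h : Pf x ≠ Ideal.span {f}) : ∃ g, g ∈ Pf x ∧ ¬ f ∣ g := by
  by_contra hc
  push Not at hc
  exact h (le_antisymm (fun a ha => Ideal.mem_span_singleton.2 (hc a ha))
    ((Ideal.span_singleton_le_iff_mem _).2 hf))

lemma isUnit_of_weight_zero (hd : ∀ k, {m : σ →₀ ℕ | Finsupp.weight wt m = k}.encard = d k)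
    (h00 : d 0 = 1) {q : MvPolynomial σ ℚ} (hq : ∀ m, q.coeff m ≠ 0 → Finsupp.weight wt m = 0)
    (hq0 : q ≠ 0) : IsUnit q := by
  classical
  have h1 : ∀ m : σ →₀ ℕ, Finsupp.weight wt m = 0 → m = 0 := by
    intro m hm
    have h2 := hd 0
    rw [h00, Nat.cast_one, Set.encard_eq_one] at h2
    obtain ⟨a, ha⟩ := h2
    have h3 : m ∈ {m : σ →₀ ℕ | Finsupp.weight wt m = 0} := hm
    have h4 : (0 : σ →₀ ℕ) ∈ {m : σ →₀ ℕ | Finsupp.weight wt m = 0} := by simp
    rw [ha, Set.mem_singleton_iff] at h3 h4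
    rw [h3, h4]
  have h2 : q = C (q.coeff 0) := by
    ext m
    rw [coeff_C]
    split_ifs with h
    · rw [h]
    · by_contra hc
      exact h (h1 m (hq m hc)).symm
  rw [h2]
  have h3 : q.coeff 0 ≠ 0 := by
    intro h
    rw [h, map_zero] at h2
    exact hq0 h2
  exact (IsUnit.mk0 _ h3).map C

/-- the three cases for the homogeneous ideal -/
theorem tri_hom (h00 : d 0 = 1)
    (hd : ∀ k, {m : σ →₀ ℕ | Finsupp.weight wt m = k}.encard = d k)
    (hZ : ∀ k, Z k = Submodule.span ℚ {y : ℝ | ∃ m : σ →₀ ℕ, Finsupp.weight wt m = k ∧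
      y = m.prod fun s e => x s ^ e}) :
    (Ph wt x = ⊥ ∧ ∀ k, Module.finrank ℚ (Z k) = d k) ∨
    (∃ f n, f ∈ Ph wt x ∧ Prime f ∧ Exact (H wt) f n ∧ Ph wt x = Ideal.span {f} ∧
      ∀ k, Module.finrank ℚ (Z k) + sh d n k = d k) ∨
    (∃ f n g m, n ≤ m ∧ f ∈ Ph wt x ∧ Prime f ∧ Exact (H wt) f n ∧ g ∈ Ph wt x ∧ ¬ f ∣ g ∧
      Exact (H wt) g m ∧
      (∀ k < m, ∀ h ∈ H wt k, h ∈ Ph wt x → f ∣ h) ∧
      (∀ k < m, Module.finrank ℚ (Z k) + sh d n k = d k) ∧
      ∀ k, Module.finrank ℚ (Z k) + sh d n k ≤ d k ∧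
        Module.finrank ℚ (Z k) + sh d n k + sh d m k ≤ d k + sh d (n + m) k) := by
  have := finite_H hd
  have h := trichotomy mul_mem_H (finrank_H hd) (aeval (R := ℚ) x).toLinearMap (P := Ph wt x)
    inferInstance (fun k f hf => mem_Ph_of_mem_H hf)
    (fun q hq hq0 => isUnit_of_weight_zero hd h00 (fun m hm => by
      rw [H, mem_A] at hq
      exact hq m hm) hq0)
    (fun n f hf hf0 _ => exact_H hf0 hf)
    (fun p q n hpq h0 => by
      obtain ⟨i, hi⟩ := exists_mem_H_of_dvd hpq h0 (dvd_mul_right p q)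
      obtain ⟨h1, h2⟩ := (exact_H (left_ne_zero_of_mul h0) hi).2.2 n q (right_ne_zero_of_mul h0) hpq
      exact ⟨i, n - i, by omega, hi, h2⟩)
    (fun f g hg hfg => by
      have h2 : ∃ j, ¬ f ∣ (T wt g).coeff j := by
        by_contra hc
        push Not at hc
        apply hfg
        rw [eq_sum_coeff_T (wt := wt) g]
        exact Finset.dvd_sum fun j _ => hc j
      obtain ⟨j, hj⟩ := h2
      exact ⟨j, _, coeff_T_mem_H g j, coeff_T_mem_Ph hg j, hj⟩)
  have e : ∀ k, Module.finrank ℚ (Z k) =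
      Module.finrank ℚ ((H wt k).map (aeval (R := ℚ) x).toLinearMap) := fun k => by rw [Z_eq hZ]
  simp only [e]
  exact h

/-- the three cases for the full ideal -/
theorem tri_full (h00 : d 0 = 1)
    (hd : ∀ k, {m : σ →₀ ℕ | Finsupp.weight wt m = k}.encard = d k)
    (hZ : ∀ k, Z k = Submodule.span ℚ {y : ℝ | ∃ m : σ →₀ ℕ, Finsupp.weight wt m = k ∧
      y = m.prod fun s e => x s ^ e}) :
    (Pf x = ⊥ ∧ ∀ k, Module.finrank ℚ ↥(⨆ j ∈ Set.Iic k, Z j) = sumTo d k) ∨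
    (∃ f n, f ∈ Pf x ∧ Prime f ∧ Exact (L wt) f n ∧ Pf x = Ideal.span {f} ∧
      ∀ k, Module.finrank ℚ ↥(⨆ j ∈ Set.Iic k, Z j) + sh (sumTo d) n k = sumTo d k) ∨
    (∃ f n g m, n ≤ m ∧ f ∈ Pf x ∧ Prime f ∧ Exact (L wt) f n ∧ g ∈ Pf x ∧ ¬ f ∣ g ∧
      Exact (L wt) g m ∧
      (∀ k < m, ∀ h ∈ L wt k, h ∈ Pf x → f ∣ h) ∧
      (∀ k < m, Module.finrank ℚ ↥(⨆ j ∈ Set.Iic k, Z j) + sh (sumTo d) n k = sumTo d k) ∧
      ∀ k, Module.finrank ℚ ↥(⨆ j ∈ Set.Iic k, Z j) + sh (sumTo d) n k ≤ sumTo d k ∧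
        Module.finrank ℚ ↥(⨆ j ∈ Set.Iic k, Z j) + sh (sumTo d) n k + sh (sumTo d) m k ≤
        sumTo d k + sh (sumTo d) (n + m) k) := by
  have := finite_L hd
  have h := trichotomy mul_mem_L (finrank_L hd) (aeval (R := ℚ) x).toLinearMap (P := Pf x)
    inferInstance (fun k f _ => mem_Pf)
    (fun q hq hq0 => isUnit_of_weight_zero hd h00 (fun m hm => by
      rw [L, mem_A] at hq
      have := hq m hm
      simpa using this) hq0)
    (fun n f hf hf0 hk => by
      have h1 : (T wt f).natDegree = n := by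
        refine le_antisymm (mem_L.1 hf) ?_
        by_contra hc
        exact hk _ (by omega) (mem_L.2 le_rfl)
      rw [← h1]
      exact exact_L hf0)
    (fun p q n hpq h0 => by
      refine ⟨(T wt p).natDegree, (T wt q).natDegree, ?_, mem_L.2 le_rfl, mem_L.2 le_rfl⟩
      rw [mem_L, map_mul, Polynomial.natDegree_mul (T_ne_zero (left_ne_zero_of_mul h0))
        (T_ne_zero (right_ne_zero_of_mul h0))] at hpq
      exact hpq)
    (fun f g hg hfg => ⟨(T wt g).natDegree, g, mem_L.2 le_rfl, hg, hfg⟩)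
  have e : ∀ k, Module.finrank ℚ ↥(⨆ j ∈ Set.Iic k, Z j) =
      Module.finrank ℚ ((L wt k).map (aeval (R := ℚ) x).toLinearMap) :=
    fun k => by rw [iSup_Z_eq hZ]
  simp only [e]
  exact h

end

end Pool.Agent.R390.MZ
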