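import Mathlib
import Pool.Agent.R390.MZ.Main
import Pool.Agent.H447R2.MZ.Tup

set_option autoImplicit false

/-!
# The dimension sequence and the small weights
-/

open MvPolynomial

namespace Pool.Agent.R390.MZ

lemma dz_pos (n : ℕ) : 0 < dz (n + 2) := by
  induction n using Nat.strong_induction_on with
  | _ n ih =>
    match n with
    | 0 => decide
    | 1 => decide
    | n + 2 =>
      have h : dz (n + 2 + 2) = dz (n + 2) + dz (n + 1) := by
        rw [show n + 2 + 2 = (n + 1) + 3 by ring, dz]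
      rw [h]
      have := ih n (by omega)
      omega

lemma sh_pos {n k : ℕ} (h : n + 2 ≤ k) : 0 < sh dz n k := by
  rw [sh, if_pos (by omega)]
  obtain ⟨j, rfl⟩ : ∃ j, k = n + 2 + j := ⟨k - (n + 2), by omega⟩
  rw [show n + 2 + j - n = j + 2 by omega]
  exact dz_pos j

section

variable {σ : Type} {wt : σ → ℕ} {x : σ → ℝ} {Z : ℕ → Submodule ℚ ℝ}

lemma finite_Z (hd : ∀ k, {m : σ →₀ ℕ | Finsupp.weight wt m = k}.encard = dz k)
    (hZ : ∀ k, Z k = Submodule.span ℚ {y : ℝ | ∃ m : σ →₀ ℕ, Finsupp.weight wt m = k ∧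
      y = m.prod fun s e => x s ^ e}) (k : ℕ) : FiniteDimensional ℚ (Z k) := by
  have := finite_H hd k
  rw [Z_eq hZ]
  infer_instance

lemma five_le (hd : ∀ k, {m : σ →₀ ℕ | Finsupp.weight wt m = k}.encard = dz k)
    (hZ : ∀ k, Z k = Submodule.span ℚ {y : ℝ | ∃ m : σ →₀ ℕ, Finsupp.weight wt m = k ∧
      y = m.prod fun s e => x s ^ e}) (h0 : Z 0 ≠ ⊥) (h2 : Z 2 ≠ ⊥) (h3 : Z 3 ≠ ⊥) (h4 : Z 4 ≠ ⊥)
    {f : MvPolynomial σ ℚ} {n : ℕ} (hf : f ∈ Ph wt x) (he : Exact (H wt) f n) : 5 ≤ n := by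
  by_contra hc
  have := finite_H hd
  have i0 := finite_Z hd hZ 0
  have i2 := finite_Z hd hZ 2
  have i3 := finite_Z hd hZ 3
  have i4 := finite_Z hd hZ 4
  have h1 := finrank_pt_ge mul_mem_H (finrank_H hd) he hf n
  have h5 := finrank_map_add (finrank_H hd) (aeval (R := ℚ) x).toLinearMap (P := Ph wt x) (k := n)
    (fun f hf => mem_Ph_of_mem_H hf)
  rw [← Z_eq hZ] at h5
  rw [sh, if_pos le_rfl, Nat.sub_self] at h1
  have e0 := Submodule.one_le_finrank_iff.2 h0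
  have e2 := Submodule.one_le_finrank_iff.2 h2
  have e3 := Submodule.one_le_finrank_iff.2 h3
  have e4 := Submodule.one_le_finrank_iff.2 h4
  have d0 : dz 0 = 1 := rfl
  have d1 : dz 1 = 0 := rfl
  have d2 : dz 2 = 1 := rfl
  have d3 : dz 3 = 1 := rfl
  have d4 : dz 4 = 1 := rfl
  interval_cases n <;> omega

end

/-- **The three cases for the dimensions.** -/
theorem tri_Z {Z : ℕ → Submodule ℚ ℝ} (hG : Gen Z dz) (h0 : Z 0 ≠ ⊥) (h2 : Z 2 ≠ ⊥) (h3 : Z 3 ≠ ⊥)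
    (h4 : Z 4 ≠ ⊥) :
    (∀ k, Module.finrank ℚ (Z k) = dz k) ∨
    (∃ n, 5 ≤ n ∧ (∀ k, n + 2 ≤ k → Module.finrank ℚ (Z k) < dz k) ∧
      ∀ k, Module.finrank ℚ (Z k) + sh dz n k = dz k) ∨
    (∃ n m, 5 ≤ n ∧ n ≤ m ∧ (∀ k, n + 2 ≤ k → Module.finrank ℚ (Z k) < dz k) ∧
      (∀ k < m, Module.finrank ℚ (Z k) + sh dz n k = dz k) ∧
      ∀ k, Module.finrank ℚ (Z k) + sh dz n k + sh dz m k ≤ dz k + sh dz (n + m) k) := by
  obtain ⟨σ, wt, x, hd, hZ⟩ := hG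
  rcases tri_hom rfl hd hZ with
    ⟨-, h⟩ | ⟨f, n, hf, -, he, -, h⟩ | ⟨f, n, g, m, hnm, hf, -, he, hg, -, he', -, h5, h⟩
  · exact Or.inl h
  · refine Or.inr (Or.inl ⟨n, five_le hd hZ h0 h2 h3 h4 hf he, fun k hk => ?_, h⟩)
    have := h k
    have := sh_pos hk
    omega
  · refine Or.inr (Or.inr ⟨n, m, five_le hd hZ h0 h2 h3 h4 hf he, hnm, fun k hk => ?_, h5,
      fun k => (h k).2⟩)
    have := (h k).1
    have := sh_pos hk
    omega

open Pool.Agent.H447R2.MZ in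
lemma Zs_ne_bot {k : ℕ} (hk : k ≠ 1) : Zs k ≠ ⊥ := by
  intro h
  rcases Nat.lt_or_ge k 2 with h1 | h1
  · have : k = 0 := by omega
    subst this
    have := one_mem
    rw [h, Submodule.mem_bot] at this
    exact one_ne_zero this
  · have h2 := zeta_mem k h1
    rw [h, Submodule.mem_bot] at h2
    exact (zeta_pos k h1).ne' h2

end Pool.Agent.R390.MZ
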