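import Mathlib
import Pool.Agent.R390.MZ.Low

set_option autoImplicit false

/-!
# Dimensions and directness together
-/

open MvPolynomial

namespace Pool.Agent.R390.MZ

section

variable {σ : Type} {wt : σ → ℕ} {x : σ → ℝ} {Z : ℕ → Submodule ℚ ℝ}

lemma coeff_T_sum (s : Finset ℕ) (g : ℕ → MvPolynomial σ ℚ) (hg : ∀ i ∈ s, g i ∈ H wt i) (i : ℕ)
    (hi : i ∈ s) : (T wt (∑ j ∈ s, g j)).coeff i = g i := by
  rw [map_sum, Polynomial.finsetSum_coeff]
  rw [Finset.sum_eq_single i]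
  · rw [mem_H.1 (hg i hi), Polynomial.coeff_monomial, if_pos rfl]
  · intro j hj hji
    rw [mem_H.1 (hg j hj), Polynomial.coeff_monomial, if_neg hji]
  · exact fun h => absurd hi h

lemma indep_iff (hZ : ∀ k, Z k = Submodule.span ℚ {y : ℝ | ∃ m : σ →₀ ℕ,
      Finsupp.weight wt m = k ∧ y = m.prod fun s e => x s ^ e}) :
    iSupIndep Z ↔ Pf x = Ph wt x := by
  rw [iSupIndep_iff_finsetSum_eq_zero_imp_eq_zero]
  constructor
  · intro h
    refine le_antisymm (fun g hg => ?_) Ph_le_Pf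
    rw [mem_Ph]
    have h1 : ∑ j ∈ (T wt g).support, aeval x ((T wt g).coeff j) = 0 := by
      rw [← map_sum, ← eq_sum_coeff_T]
      exact mem_Pf.1 hg
    have h2 := h _ (fun j => aeval x ((T wt g).coeff j)) (fun j _ => by
      rw [Z_eq hZ]
      exact ⟨_, coeff_T_mem_H g j, rfl⟩) h1
    intro j
    by_cases hj : j ∈ (T wt g).support
    · exact h2 j hj
    · rw [Polynomial.notMem_support_iff.1 hj, map_zero]
  · intro h s v hv hs
    have h1 : ∀ i ∈ s, ∃ g ∈ H wt i, aeval x g = v i := by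
      intro i hi
      have := hv i hi
      rw [Z_eq hZ] at this
      exact this
    choose! g hg hgv using h1
    have h2 : ∑ j ∈ s, g j ∈ Ph wt x := by
      rw [← h, mem_Pf, map_sum, ← hs]
      exact Finset.sum_congr rfl fun j hj => hgv j hj
    intro i hi
    have := mem_Ph.1 h2 i
    rw [coeff_T_sum s g hg i hi, hgv i hi] at this
    exact this

lemma Ph_bot_dims (hd : ∀ k, {m : σ →₀ ℕ | Finsupp.weight wt m = k}.encard = dz k)
    (hZ : ∀ k, Z k = Submodule.span ℚ {y : ℝ | ∃ m : σ →₀ ℕ, Finsupp.weight wt m = k ∧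
      y = m.prod fun s e => x s ^ e}) (h : Ph wt x = ⊥) (k : ℕ) :
    Module.finrank ℚ (Z k) = dz k := by
  rcases tri_hom rfl hd hZ with ⟨-, h1⟩ | ⟨f, n, hf, hp, -⟩ | ⟨f, n, g, m, -, hf, hp, -⟩
  · exact h1 k
  · rw [h] at hf
    exact absurd (by simpa using hf) hp.ne_zero
  · rw [h] at hf
    exact absurd (by simpa using hf) hp.ne_zero

lemma one_le_full (hd : ∀ k, {m : σ →₀ ℕ | Finsupp.weight wt m = k}.encard = dz k)
    (hZ : ∀ k, Z k = Submodule.span ℚ {y : ℝ | ∃ m : σ →₀ ℕ, Finsupp.weight wt m = k ∧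
      y = m.prod fun s e => x s ^ e}) (h0 : Z 0 ≠ ⊥)
    {p : MvPolynomial σ ℚ} {j : ℕ} (hp : p ∈ Pf x) (hj : Exact (L wt) p j) : 1 ≤ j := by
  by_contra hc
  have h0' : j = 0 := by omega
  subst h0'
  have i := finite_L hd
  have i1 : FiniteDimensional ℚ ↥(⨆ j ∈ Set.Iic 0, Z j) := by
    rw [iSup_Z_eq hZ]
    infer_instance
  have h3 : Module.finrank ℚ ↥(⨆ j ∈ Set.Iic 0, Z j) ≠ 0 := by
    intro h
    rw [Submodule.finrank_eq_zero] at h
    have h1 : Z 0 ≤ ⨆ j ∈ Set.Iic 0, Z j := le_iSup₂_of_le 0 (by simp) le_rfl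
    rw [h, le_bot_iff] at h1
    exact h0 h1
  have h1 := finrank_pt_ge mul_mem_L (finrank_L hd) hj hp 0
  have h2 := finrank_map_add (finrank_L hd) (MvPolynomial.aeval (R := ℚ) x).toLinearMap
    (P := Pf x) (k := 0) (fun f _ => mem_Pf)
  rw [← iSup_Z_eq hZ] at h2
  have h4 : sh (sumTo dz) 0 0 = 1 := rfl
  have h9 : sumTo dz 0 = 1 := rfl
  omega

/-- the four cases -/
theorem tri_four (hd : ∀ k, {m : σ →₀ ℕ | Finsupp.weight wt m = k}.encard = dz k)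
    (hZ : ∀ k, Z k = Submodule.span ℚ {y : ℝ | ∃ m : σ →₀ ℕ, Finsupp.weight wt m = k ∧
      y = m.prod fun s e => x s ^ e}) (h0 : Z 0 ≠ ⊥) (h2 : Z 2 ≠ ⊥) (h3 : Z 3 ≠ ⊥) (h4 : Z 4 ≠ ⊥) :
    (iSupIndep Z ∧ ∀ k, Module.finrank ℚ (Z k) = dz k) ∨
    (iSupIndep Z ∧ ∃ n, 5 ≤ n ∧ ∀ k, Module.finrank ℚ (Z k) + sh dz n k = dz k) ∨
    (¬ iSupIndep Z ∧ (∀ k, Module.finrank ℚ (Z k) = dz k) ∧
      ∃ n, 1 ≤ n ∧
        ∀ k, Module.finrank ℚ ↥(⨆ j ∈ Set.Iic k, Z j) + sh (sumTo dz) n k = sumTo dz k) ∨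
    (∃ n m, 1 ≤ n ∧ n ≤ m ∧
      (∀ k < m, Module.finrank ℚ ↥(⨆ j ∈ Set.Iic k, Z j) + sh (sumTo dz) n k = sumTo dz k) ∧
      ∀ k, Module.finrank ℚ ↥(⨆ j ∈ Set.Iic k, Z j) + sh (sumTo dz) n k ≤ sumTo dz k ∧
      Module.finrank ℚ ↥(⨆ j ∈ Set.Iic k, Z j) + sh (sumTo dz) n k + sh (sumTo dz) m k ≤
        sumTo dz k + sh (sumTo dz) (n + m) k) := by
  rcases tri_full rfl hd hZ with
    ⟨h, -⟩ | ⟨f, n, hf, hp, he, hP, h⟩ | ⟨f, n, g, m, hnm, hf, -, he, hg, -, he', -, h5, h⟩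
  · have h1 : Ph wt x = ⊥ := by
      rw [eq_bot_iff, ← h]
      exact Ph_le_Pf
    exact Or.inl ⟨(indep_iff hZ).2 (by rw [h, h1]), Ph_bot_dims hd hZ h1⟩
  · by_cases hi : ∃ i, f ∈ H wt i
    · obtain ⟨i, hi⟩ := hi
      have h1 : f ∈ Ph wt x := (mem_Ph_of_mem_H hi).2 (mem_Pf.1 hf)
      have h2' : Pf x = Ph wt x := by
        refine le_antisymm ?_ Ph_le_Pf
        rw [hP]
        exact (Ideal.span_singleton_le_iff_mem _).2 h1
      have he' : Exact (H wt) f i := exact_H hp.ne_zero hi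
      refine Or.inr (Or.inl ⟨(indep_iff hZ).2 h2', i, five_le hd hZ h0 h2 h3 h4 h1 he', fun k => ?_⟩)
      have := finite_H hd
      have h5 := finrank_map_add (finrank_H hd) (aeval (R := ℚ) x).toLinearMap (P := Ph wt x)
        (k := k) (fun f hf => mem_Ph_of_mem_H hf)
      rw [← Z_eq hZ, ← h2', hP, finrank_pt_span mul_mem_H (finrank_H hd) he' k] at h5
      exact h5
    · have h1 : Ph wt x = ⊥ := by
        by_contra hc
        obtain ⟨p, j, hpP, hpp, hpj⟩ := exists_prime_Ph hc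
        have h6 : f ∣ p := by
          have := Ph_le_Pf hpP
          rw [hP, Ideal.mem_span_singleton] at this
          exact this
        exact hi (exists_mem_H_of_dvd hpj hpp.ne_zero h6)
      refine Or.inr (Or.inr (Or.inl ⟨fun hc => ?_, Ph_bot_dims hd hZ h1, n,
        one_le_full hd hZ h0 hf he, h⟩))
      rw [(indep_iff hZ).1 hc, h1] at hf
      exact hp.ne_zero (by simpa using hf)
  · exact Or.inr (Or.inr (Or.inr ⟨n, m, one_le_full hd hZ h0 hf he, hnm, h5, h⟩))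

end

end Pool.Agent.R390.MZ
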