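import Mathlib

set_option autoImplicit false

/-!
# Multiple zeta values of lists, Hoffman elements, numbers of relations
-/

namespace Pool.Agent.R390.MZ

/-- the multiple zeta value `ζ(l_1, …, l_r) = ∑_{m_1 > … > m_r ≥ 1} ∏ m_i ^ (-l_i)` of a list `l`
(value `1` for the empty list) -/
noncomputable def zt (l : List ℕ) : ℝ :=
  ∑' m : {m : Fin l.length → ℕ // StrictAnti m ∧ ∀ i, 1 ≤ m i},
    ∏ i, (((m.1 i : ℕ) : ℝ) ^ (l.get i))⁻¹

/-- the `ℚ`-span of the multiple zeta values `ζ(l_1, …, l_r)` (`l_i ≥ 1`, `l_1 ≥ 2`) of weight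
`l_1 + … + l_r = k` -/
noncomputable def ZL (k : ℕ) : Submodule ℚ ℝ :=
  Submodule.span ℚ {x : ℝ | ∃ l : List ℕ,
    (∀ a ∈ l, 1 ≤ a) ∧ (∀ a ∈ l.head?, 2 ≤ a) ∧ l.sum = k ∧ x = zt l}

/-- the words in the letters `2` and `3` -/
abbrev W : Type := {l : List ℕ // ∀ a ∈ l, a = 2 ∨ a = 3}

/-- the words in the letters `2` and `3` of weight `k` -/
abbrev Weq (k : ℕ) : Type := {l : List ℕ // (∀ a ∈ l, a = 2 ∨ a = 3) ∧ l.sum = k}

/-- the words in the letters `2` and `3` of weight at most `k` -/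
abbrev Wle (k : ℕ) : Type := {l : List ℕ // (∀ a ∈ l, a = 2 ∨ a = 3) ∧ l.sum ≤ k}

/-- the number of independent linear relations with rational coefficients between the numbers
`v i`: the dimension of the space of all finitely supported `c : ι → ℚ` with `∑ c i * v i = 0` -/
noncomputable def nrel {ι : Type} (v : ι → ℝ) : ℕ :=
  Module.finrank ℚ (LinearMap.ker (Finsupp.linearCombination ℚ v))

end Pool.Agent.R390.MZ
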