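import Mathlib
import Pool.Agent.R390.MZ.Full
import Pool.Agent.R390.MZ.HDefs

set_option autoImplicit false

/-!
# Words in the letters `2` and `3`, and relations between the members of a family
-/

open MvPolynomial

namespace Pool.Agent.R390.MZ

/-- the words of weight `k` -/
def hw : ℕ → Finset (List ℕ)
  | 0 => {[]}
  | 1 => ∅
  | 2 => {[2]}
  | n + 3 => (hw (n + 1)).image (List.cons 2) ∪ (hw n).image (List.cons 3)

lemma mem_hw (n : ℕ) : ∀ l : List ℕ, l ∈ hw n ↔ (∀ a ∈ l, a = 2 ∨ a = 3) ∧ l.sum = n := by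
  induction n using Nat.strong_induction_on with
  | _ n ih =>
    intro l
    match n, l with
    | 0, [] => simp [hw]
    | 0, a :: t =>
      simp only [hw, Finset.mem_singleton, reduceCtorEq, List.sum_cons, List.mem_cons,
        forall_eq_or_imp, false_iff, not_and]
      rintro ⟨h, -⟩
      omega
    | 1, [] => simp [hw]
    | 1, a :: t =>
      simp only [hw, Finset.notMem_empty, List.sum_cons, List.mem_cons,
        forall_eq_or_imp, false_iff, not_and]
      rintro ⟨h, -⟩
      omega
    | 2, [] => simp [hw]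
    | 2, a :: t =>
      simp only [hw, Finset.mem_singleton, List.cons.injEq, List.sum_cons, List.mem_cons,
        forall_eq_or_imp]
      constructor
      · rintro ⟨rfl, rfl⟩
        simp
      · rintro ⟨⟨h, h2⟩, h3⟩
        have h4 : a = 2 := by omega
        refine ⟨h4, ?_⟩
        have h5 : t.sum = 0 := by omega
        match t with
        | [] => rfl
        | b :: u =>
          have := h2 b (by simp)
          simp only [List.sum_cons] at h5
          omega
    | n + 3, [] => simp [hw]
    | n + 3, a :: t =>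
      simp only [hw, Finset.mem_union, Finset.mem_image, List.cons.injEq, List.sum_cons,
        List.mem_cons, forall_eq_or_imp]
      constructor
      · rintro (⟨u, hu, rfl, rfl⟩ | ⟨u, hu, rfl, rfl⟩)
        · rw [ih (n + 1) (by omega)] at hu
          exact ⟨⟨Or.inl rfl, hu.1⟩, by rw [hu.2]; omega⟩
        · rw [ih n (by omega)] at hu
          exact ⟨⟨Or.inr rfl, hu.1⟩, by rw [hu.2]; omega⟩
      · rintro ⟨⟨h, h2⟩, h3⟩
        rcases h with rfl | rfl
        · exact Or.inl ⟨t, (ih (n + 1) (by omega) t).2 ⟨h2, by omega⟩, rfl, rfl⟩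
        · exact Or.inr ⟨t, (ih n (by omega) t).2 ⟨h2, by omega⟩, rfl, rfl⟩

lemma card_hw (n : ℕ) : (hw n).card = dz n := by
  induction n using Nat.strong_induction_on with
  | _ n ih =>
    match n with
    | 0 => rfl
    | 1 => rfl
    | 2 => rfl
    | n + 3 =>
      rw [hw, dz, Finset.card_union_of_disjoint, Finset.card_image_of_injective,
        Finset.card_image_of_injective, ih (n + 1) (by omega), ih n (by omega)]
      · exact fun a b h => by simpa using h
      · exact fun a b h => by simpa using h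
      · rw [Finset.disjoint_left]
        intro l h1 h2
        rw [Finset.mem_image] at h1 h2
        obtain ⟨u, -, rfl⟩ := h1
        obtain ⟨v, -, h⟩ := h2
        simp at h

lemma nrel_add {ι : Type} [Fintype ι] (v : ι → ℝ) :
    Module.finrank ℚ (Submodule.span ℚ (Set.range v)) + nrel v = Fintype.card ι := by
  have := LinearMap.finrank_range_add_finrank_ker (Finsupp.linearCombination ℚ v)
  rw [Finsupp.range_linearCombination, Module.finrank_finsupp_self] at this
  exact this

lemma indep_of_nrel {ι : Type} [Fintype ι] (v : ι → ℝ) (h : nrel v = 0) :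
    LinearIndependent ℚ v := by
  rw [LinearIndependent, ← LinearMap.ker_eq_bot]
  exact Submodule.finrank_eq_zero.1 h

lemma nrel_pos {ι : Type} [Finite ι] (v : ι → ℝ) (h : 0 < nrel v) : ¬ LinearIndependent ℚ v := by
  intro hc
  rw [LinearIndependent, ← LinearMap.ker_eq_bot] at hc
  rw [nrel, hc, finrank_bot] at h
  exact lt_irrefl _ h

open Pool.Agent.H447R2.MZ in
lemma zt_eq_val {l : List ℕ} (h : Adm l) : zt l = val l := by
  have hk : Adm (List.ofFn l.get) := by rw [List.ofFn_get]; exact h
  rw [zt, (hasSum_val l.length l.get hk).tsum_eq, List.ofFn_get]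

open Pool.Agent.H447R2.MZ in
lemma ZL_eq (k : ℕ) : ZL k = Zs k := by
  rw [Zs_eq, ZL]
  congr 1
  ext x
  constructor
  · rintro ⟨l, h1, h2, h3, rfl⟩
    have h : Adm l := ⟨h1, fun a t ht => h2 a (by simp [ht])⟩
    exact ⟨l, h, h3, zt_eq_val h⟩
  · rintro ⟨l, h, h3, rfl⟩
    refine ⟨l, h.1, fun a ha => ?_, h3, (zt_eq_val h).symm⟩
    match l, ha with
    | b :: t, ha =>
      simp only [List.head?_cons, Option.mem_def, Option.some.injEq] at ha
      subst ha
      exact h.2 b t rfl

lemma ZL_ne_bot {k : ℕ} (hk : k ≠ 1) : ZL k ≠ ⊥ := by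
  rw [ZL_eq]
  exact Zs_ne_bot hk

noncomputable instance (k : ℕ) : Fintype (Weq k) :=
  Fintype.subtype (hw k) fun l => mem_hw k l

lemma card_Weq (k : ℕ) : Fintype.card (Weq k) = dz k := by
  rw [Fintype.card_of_subtype (hw k) fun l => mem_hw k l, card_hw]

lemma mem_hwle (k : ℕ) (l : List ℕ) : l ∈ (Finset.range (k + 1)).biUnion hw ↔
    (∀ a ∈ l, a = 2 ∨ a = 3) ∧ l.sum ≤ k := by
  simp only [Finset.mem_biUnion, Finset.mem_range, mem_hw]
  constructor
  · rintro ⟨j, hj, h1, h2⟩
    exact ⟨h1, by omega⟩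
  · rintro ⟨h1, h2⟩
    exact ⟨l.sum, by omega, h1, rfl⟩

noncomputable instance (k : ℕ) : Fintype (Wle k) :=
  Fintype.subtype ((Finset.range (k + 1)).biUnion hw) fun l => mem_hwle k l

lemma card_Wle (k : ℕ) : Fintype.card (Wle k) = sumTo dz k := by
  rw [Fintype.card_of_subtype ((Finset.range (k + 1)).biUnion hw) fun l => mem_hwle k l,
    Finset.card_biUnion]
  · exact Finset.sum_congr rfl fun j _ => card_hw j
  · intro i _ j _ hij
    rw [Function.onFun, Finset.disjoint_left]
    intro l h1 h2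
    rw [mem_hw] at h1 h2
    exact hij (h1.2.symm.trans h2.2)

/-- the Hoffman elements of weight `k` -/
lemma nrel_Weq {k : ℕ} (h : Submodule.span ℚ (Set.range fun l : Weq k => zt l.1) = ZL k) :
    Module.finrank ℚ (ZL k) + nrel (fun l : Weq k => zt l.1) = dz k := by
  rw [← card_Weq, ← nrel_add, h]

lemma span_Wle (h : ∀ k, Submodule.span ℚ (Set.range fun l : Weq k => zt l.1) = ZL k) (k : ℕ) :
    Submodule.span ℚ (Set.range fun l : Wle k => zt l.1) = ⨆ j ∈ Set.Iic k, ZL j := by
  simp only [← h, ← Submodule.span_iUnion₂]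
  congr 1
  ext y
  simp only [Set.mem_range, Set.mem_iUnion, Set.mem_Iic]
  constructor
  · rintro ⟨⟨l, h1, h2⟩, rfl⟩
    exact ⟨l.sum, h2, ⟨l, h1, rfl⟩, rfl⟩
  · rintro ⟨j, hj, ⟨l, h1, h2⟩, rfl⟩
    exact ⟨⟨l, h1, by omega⟩, rfl⟩

lemma nrel_Wle (h : ∀ k, Submodule.span ℚ (Set.range fun l : Weq k => zt l.1) = ZL k) (k : ℕ) :
    Module.finrank ℚ ↥(⨆ j ∈ Set.Iic k, ZL j) + nrel (fun l : Wle k => zt l.1) =
      sumTo dz k := by
  rw [← card_Wle, ← nrel_add, span_Wle h]

lemma indep_W (h : ∀ k, nrel (fun l : Wle k => zt l.1) = 0) :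
    LinearIndependent ℚ (fun l : W => zt l.1) := by
  rw [linearIndependent_iff']
  intro s g hg i hi
  set k := ∑ l ∈ s, l.1.sum with hk
  have hle : ∀ l ∈ s, l.1.sum ≤ k := fun l hl =>
    Finset.single_le_sum (f := fun l : W => l.1.sum) (fun _ _ => Nat.zero_le _) hl
  have h1 := indep_of_nrel _ (h k)
  let e : Wle k → W := fun l => ⟨l.1, l.2.1⟩
  have he : Function.Injective e := fun a b hab => Subtype.ext (congrArg (fun x : W => x.1) hab)
  have h2 := (linearIndependent_iff'.1 h1) (s.preimage e he.injOn) (fun l => g (e l)) (by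
    rw [← hg]
    have := Finset.sum_preimage e s he.injOn (fun l : W => g l • zt l.1) (fun l hl hn => by
      exact absurd ⟨⟨l.1, l.2, hle l hl⟩, rfl⟩ hn)
    exact this)
  have h3 := h2 ⟨i.1, i.2, hle i hi⟩ (by
    rw [Finset.mem_preimage]
    exact hi)
  exact h3

end Pool.Agent.R390.MZ
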