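import Mathlib
import Pool.Agent.R390.MZ.Hoff

set_option autoImplicit false

/-!
# The numbers of relations are supermodular
-/

open MvPolynomial

namespace Pool.Agent.R390.MZ

section

variable {R : Type*} [CommRing R] [IsDomain R] [Algebra ℚ R]

lemma finrank_mul_pt {F : ℕ → Submodule ℚ R} {P : Ideal R} {u : R} (hu : u ≠ 0) (k : ℕ) :
    Module.finrank ℚ ((pt F P k).map (LinearMap.mulLeft ℚ u)) = Module.finrank ℚ (pt F P k) := by
  have hi : Function.Injective (LinearMap.mulLeft ℚ u) :=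
    fun a b hab => mul_left_cancel₀ hu (by simpa using hab)
  exact (Submodule.equivMapOfInjective _ hi _).finrank_eq.symm

lemma supermod {F : ℕ → Submodule ℚ R} [∀ k, FiniteDimensional ℚ (F k)]
    (hmul : ∀ a b, ∀ x ∈ F a, ∀ y ∈ F b, x * y ∈ F (a + b)) {P : Ideal R} (hP : P.IsPrime)
    {u v : R} {i j : ℕ} (hu : Exact F u i) (hv : Exact F v j) (hvP : v ∉ P)
    (huv : ∀ w, v ∣ u * w → v ∣ w) (k : ℕ) :
    Module.finrank ℚ (pt F P (k + i)) + Module.finrank ℚ (pt F P (k + j)) ≤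
      Module.finrank ℚ (pt F P (k + i + j)) + Module.finrank ℚ (pt F P k) := by
  have i0 : ∀ k, FiniteDimensional ℚ (pt F P k) := fun k =>
    Submodule.finiteDimensional_of_le (S₂ := F k) inf_le_left
  rw [← finrank_mul_pt hv.1 (k + i), ← finrank_mul_pt hu.1 (k + j),
    ← Submodule.finrank_sup_add_finrank_inf_eq]
  refine add_le_add (Submodule.finrank_mono ?_) ?_
  · refine sup_le ?_ ?_
    · rintro _ ⟨x, hx, rfl⟩
      rw [SetLike.mem_coe, mem_pt] at hx
      rw [mem_pt, LinearMap.mulLeft_apply]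
      refine ⟨?_, P.mul_mem_left _ hx.2⟩
      have := hmul _ _ _ hv.2.1 _ hx.1
      rwa [show j + (k + i) = k + i + j by ring] at this
    · rintro _ ⟨x, hx, rfl⟩
      rw [SetLike.mem_coe, mem_pt] at hx
      rw [mem_pt, LinearMap.mulLeft_apply]
      refine ⟨?_, P.mul_mem_left _ hx.2⟩
      have := hmul _ _ _ hu.2.1 _ hx.1
      rwa [show i + (k + j) = k + i + j by ring] at this
  · rw [← finrank_mul_pt (F := F) (P := P) (mul_ne_zero hu.1 hv.1) k]
    refine Submodule.finrank_mono ?_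
    rintro x ⟨⟨b, hb, hbx⟩, a, ha, hax⟩
    rw [SetLike.mem_coe, mem_pt] at ha hb
    rw [LinearMap.mulLeft_apply] at hax hbx
    obtain ⟨c, hc⟩ := huv a ⟨b, by rw [hax, hbx]⟩
    refine ⟨c, ?_, by rw [LinearMap.mulLeft_apply, ← hax, hc, mul_assoc]⟩
    rw [SetLike.mem_coe, mem_pt]
    by_cases hc0 : c = 0
    · rw [hc0]
      exact ⟨zero_mem _, zero_mem _⟩
    · rw [hc] at ha
      obtain ⟨h1, h2⟩ := hv.2.2 (k + j) c hc0 ha.1
      rw [Nat.add_sub_cancel] at h2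
      exact ⟨h2, (hP.mem_or_mem ha.2).resolve_left hvP⟩

end

section

variable {σ : Type} {wt : σ → ℕ} {x : σ → ℝ} {Z : ℕ → Submodule ℚ ℝ}

lemma exists_lift (hZ : ∀ k, Z k = Submodule.span ℚ {y : ℝ | ∃ m : σ →₀ ℕ, Finsupp.weight wt m = k ∧
      y = m.prod fun s e => x s ^ e}) {i : ℕ} (h : Z i ≠ ⊥) :
    ∃ u ∈ H wt i, aeval x u ≠ 0 := by
  obtain ⟨y, hy, hy0⟩ := Submodule.exists_mem_ne_zero_of_ne_bot h
  rw [Z_eq hZ] at hy
  obtain ⟨u, hu, rfl⟩ := hy
  exact ⟨u, hu, hy0⟩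

lemma coeff_T_zero_of_dvd {h v : MvPolynomial σ ℚ} {i : ℕ} (hi : 1 ≤ i) (hh : h ∈ H wt i)
    (hv : h ∣ v) : (T wt v).coeff 0 = 0 := by
  obtain ⟨q, rfl⟩ := hv
  rw [map_mul, mem_H.1 hh, Polynomial.mul_coeff_zero, Polynomial.coeff_monomial,
    if_neg (by omega), zero_mul]

/-- the full numbers of relations -/
theorem super_full (hd : ∀ k, {m : σ →₀ ℕ | Finsupp.weight wt m = k}.encard = dz k)
    (hZ : ∀ k, Z k = Submodule.span ℚ {y : ℝ | ∃ m : σ →₀ ℕ, Finsupp.weight wt m = k ∧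
      y = m.prod fun s e => x s ^ e}) {i j : ℕ} (hj0 : 1 ≤ j) (hi : Z i ≠ ⊥) (hj : Z j ≠ ⊥) (k : ℕ) :
    Module.finrank ℚ (pt (L wt) (Pf x) (k + i)) + Module.finrank ℚ (pt (L wt) (Pf x) (k + j)) ≤
      Module.finrank ℚ (pt (L wt) (Pf x) (k + i + j)) + Module.finrank ℚ (pt (L wt) (Pf x) k) := by
  have := finite_L hd
  obtain ⟨u, hu, hux⟩ := exists_lift hZ hi
  obtain ⟨w, hw, hwx⟩ := exists_lift hZ hj
  have hu0 : u ≠ 0 := fun h => hux (by rw [h, map_zero])
  have hw0 : w ≠ 0 := fun h => hwx (by rw [h, map_zero])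
  have hr : ∃ r : ℚ, r ≠ 0 ∧ aeval x (w + C r) ≠ 0 := by
    by_cases h1 : aeval x (w + C 1) = 0
    · refine ⟨2, two_ne_zero, fun h2 => ?_⟩
      rw [map_add, aeval_C] at h1 h2
      have h3 : (algebraMap ℚ ℝ) 1 = (algebraMap ℚ ℝ) 2 := by linarith
      rw [(algebraMap ℚ ℝ).injective.eq_iff] at h3
      norm_num at h3
    · exact ⟨1, one_ne_zero, h1⟩
  obtain ⟨r, hr0, hrx⟩ := hr
  have hC : T wt (C r : MvPolynomial σ ℚ) = Polynomial.monomial 0 (C r) := by
    have := T_monomial (wt := wt) 0 r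
    rw [map_zero] at this
    exact this
  have hTv : T wt (w + C r) = Polynomial.monomial j w + Polynomial.monomial 0 (C r) := by
    rw [map_add, mem_H.1 hw, hC]
  have hv0 : w + C r ≠ 0 := fun h => hrx (by rw [h, map_zero])
  have hTu : (T wt u).natDegree = i := by
    classical
    rw [mem_H.1 hu, Polynomial.natDegree_monomial, if_neg hu0]
  have hdv : (T wt (w + C r)).natDegree = j := by
    rw [hTv]
    refine le_antisymm ?_ ?_
    · refine (Polynomial.natDegree_add_le _ _).trans (max_le (Polynomial.natDegree_monomial_le _) ?_)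
      exact (Polynomial.natDegree_monomial_le _).trans (by omega)
    · refine Polynomial.le_natDegree_of_ne_zero ?_
      rw [Polynomial.coeff_add, Polynomial.coeff_monomial, Polynomial.coeff_monomial, if_pos rfl,
        if_neg (by omega), add_zero]
      exact hw0
  have eu : Exact (L wt) u i := by
    have := exact_L (wt := wt) hu0
    rwa [hTu] at this
  have ev : Exact (L wt) (w + C r) j := by
    have := exact_L (wt := wt) hv0
    rwa [hdv] at this
  have hvP : w + C r ∉ Pf x := fun h => hrx (mem_Pf.1 h)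
  refine supermod mul_mem_L inferInstance eu ev hvP (fun a ha => ?_) k
  have hrel : IsRelPrime (w + C r) u := by
    intro p hp1 hp2
    obtain ⟨l, hl⟩ := exists_mem_H_of_dvd hu hu0 hp2
    rcases Nat.eq_zero_or_pos l with h0 | h0
    · subst h0
      refine isUnit_of_weight_zero hd rfl (fun m hm => ?_) (fun h => hu0 ?_)
      · rw [H, mem_A] at hl
        exact hl m hm
      · rw [h] at hp2
        exact zero_dvd_iff.1 hp2
    · exfalso
      have h1 := coeff_T_zero_of_dvd h0 hl hp1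
      rw [hTv, Polynomial.coeff_add, Polynomial.coeff_monomial, Polynomial.coeff_monomial,
        if_neg (by omega), if_pos rfl, zero_add] at h1
      exact hr0 (C_eq_zero.1 h1)
  exact hrel.dvd_of_dvd_mul_left ha

lemma pow_mem_H' {h : MvPolynomial σ ℚ} {i : ℕ} (hh : h ∈ H wt i) (c : ℕ) :
    h ^ c ∈ H wt (i * c) := by
  rw [mem_H] at *
  rw [map_pow, hh, Polynomial.monomial_pow]

lemma prime_small (hd : ∀ k, {m : σ →₀ ℕ | Finsupp.weight wt m = k}.encard = dz k) {i : ℕ}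
    (hi : i = 2 ∨ i = 3) {h : MvPolynomial σ ℚ} (hh : h ∈ H wt i) (h0 : h ≠ 0) : Prime h := by
  have hfin := finite_H hd
  have H1 : ∀ p ∈ H wt 1, p = 0 := by
    have h1 : Module.finrank ℚ (H wt 1) = 0 := finrank_H hd 1
    rw [Submodule.finrank_eq_zero] at h1
    intro p hp
    rw [h1] at hp
    simpa using hp
  have hunit : ∀ q ∈ H wt 0, q ≠ 0 → IsUnit q := by
    intro q hq hq0
    refine isUnit_of_weight_zero hd rfl (fun m hm => ?_) hq0
    rw [H, mem_A] at hq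
    exact hq m hm
  rw [← UniqueFactorizationMonoid.irreducible_iff_prime]
  refine ⟨fun hu => ?_, ?_⟩
  · have h1 : (1 : MvPolynomial σ ℚ) ∈ H wt 0 := by
      rw [mem_H, map_one]
      rfl
    obtain ⟨l, hl⟩ := hu.exists_right_inv
    have h2 := (exact_H h0 hh).2.2 0 l (fun hl0 => by simp [hl0] at hl) (by rw [hl]; exact h1)
    omega
  · rintro p q rfl
    have hp0 := left_ne_zero_of_mul h0
    have hq0 := right_ne_zero_of_mul h0
    obtain ⟨a, ha⟩ := exists_mem_H_of_dvd hh h0 (dvd_mul_right p q)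
    obtain ⟨h1, h2⟩ := (exact_H hp0 ha).2.2 i q hq0 hh
    have ha1 : a ≠ 1 := fun h => hp0 (H1 p (h ▸ ha))
    have hb1 : i - a ≠ 1 := fun h => hq0 (H1 q (h ▸ h2))
    rcases Nat.eq_zero_or_pos a with h3 | h3
    · subst h3
      exact Or.inl (hunit p ha hp0)
    · right
      have h4 : i - a = 0 := by omega
      rw [h4] at h2
      exact hunit q h2 hq0

lemma exists_generic (hd : ∀ k, {m : σ →₀ ℕ | Finsupp.weight wt m = k}.encard = dz k)
    (hZ : ∀ k, Z k = Submodule.span ℚ {y : ℝ | ∃ m : σ →₀ ℕ, Finsupp.weight wt m = k ∧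
      y = m.prod fun s e => x s ^ e}) {i : ℕ} (hi5 : 5 ≤ i) (hi : Z i ≠ ⊥)
    {h2 h3 : MvPolynomial σ ℚ} (hh2 : h2 ∈ H wt 2) (h20 : h2 ≠ 0) (hh3 : h3 ∈ H wt 3)
    (h30 : h3 ≠ 0) : ∃ u ∈ H wt i, aeval x u ≠ 0 ∧ ¬ h2 ∣ u ∧ ¬ h3 ∣ u := by
  have hfin := finite_H hd
  by_contra hc
  push Not at hc
  let q : Fin 3 → Submodule ℚ (H wt i) := ![(pt (H wt) (Ideal.span {h2}) i).comap (H wt i).subtype,
    (pt (H wt) (Ideal.span {h3}) i).comap (H wt i).subtype,
    (LinearMap.ker (aeval (R := ℚ) x).toLinearMap).comap (H wt i).subtype]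
  have hcov : ⋃ a, (q a : Set (H wt i)) = Set.univ := by
    rw [Set.eq_univ_iff_forall]
    rintro ⟨u, hu⟩
    rw [Set.mem_iUnion]
    by_cases h1 : aeval x u = 0
    · exact ⟨2, h1⟩
    · by_cases h4 : h2 ∣ u
      · exact ⟨0, mem_pt.2 ⟨hu, Ideal.mem_span_singleton.2 h4⟩⟩
      · exact ⟨1, mem_pt.2 ⟨hu, Ideal.mem_span_singleton.2 (hc u hu h1 h4)⟩⟩
  obtain ⟨a, ha⟩ := Subspace.exists_eq_top_of_iUnion_eq_univ hcov
  have key : ∀ {b : ℕ} {g : MvPolynomial σ ℚ}, g ∈ H wt b → g ≠ 0 → sh dz b i < dz i →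
      (pt (H wt) (Ideal.span {g}) i).comap (H wt i).subtype ≠ ⊤ := by
    intro b g hg hg0 hlt htop
    have h5 : pt (H wt) (Ideal.span {g}) i = H wt i := by
      refine le_antisymm inf_le_left fun u hu => ?_
      have : (⟨u, hu⟩ : H wt i) ∈ (⊤ : Submodule ℚ (H wt i)) := trivial
      rw [← htop] at this
      exact this
    have h6 := finrank_pt_span mul_mem_H (finrank_H hd) (exact_H hg0 hg) i
    rw [h5, finrank_H hd] at h6
    omega
  obtain ⟨j, rfl⟩ : ∃ j, i = j + 3 := ⟨i - 3, by omega⟩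
  obtain ⟨l, rfl⟩ : ∃ l, j = l + 2 := ⟨j - 2, by omega⟩
  have e1 : dz (l + 2 + 3) = dz (l + 2 + 1) + dz (l + 2) := by rw [dz]
  have e2 : 0 < dz (l + 2) := dz_pos l
  have e3 : 0 < dz (l + 2 + 1) := dz_pos (l + 1)
  fin_cases a
  · refine key hh2 h20 ?_ ha
    rw [sh, if_pos (by omega), show l + 2 + 3 - 2 = l + 2 + 1 by omega]
    omega
  · refine key hh3 h30 ?_ ha
    rw [sh, if_pos (by omega), show l + 2 + 3 - 3 = l + 2 by omega]
    omega
  · apply hi
    rw [Z_eq hZ, eq_bot_iff]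
    rintro _ ⟨u, hu, rfl⟩
    have : (⟨u, hu⟩ : H wt (l + 2 + 3)) ∈ (⊤ : Submodule ℚ (H wt (l + 2 + 3))) := trivial
    rw [← ha] at this
    exact this

/-- the numbers of homogeneous relations -/
theorem super_hom (hd : ∀ k, {m : σ →₀ ℕ | Finsupp.weight wt m = k}.encard = dz k)
    (hZ : ∀ k, Z k = Submodule.span ℚ {y : ℝ | ∃ m : σ →₀ ℕ, Finsupp.weight wt m = k ∧
      y = m.prod fun s e => x s ^ e}) (hne : ∀ k, k ≠ 1 → Z k ≠ ⊥) {i j : ℕ}
    (hij : (5 ≤ i ∧ 2 ≤ j) ∨ (i = 2 ∧ j = 3) ∨ (i = 4 ∧ j = 3)) (k : ℕ) :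
    Module.finrank ℚ (pt (H wt) (Ph wt x) (k + i)) +
      Module.finrank ℚ (pt (H wt) (Ph wt x) (k + j)) ≤
      Module.finrank ℚ (pt (H wt) (Ph wt x) (k + i + j)) +
        Module.finrank ℚ (pt (H wt) (Ph wt x) k) := by
  have hfin := finite_H hd
  obtain ⟨h2, hh2, h2x⟩ := exists_lift hZ (hne 2 (by norm_num))
  obtain ⟨h3, hh3, h3x⟩ := exists_lift hZ (hne 3 (by norm_num))
  have h20 : h2 ≠ 0 := fun h => h2x (by rw [h, map_zero])
  have h30 : h3 ≠ 0 := fun h => h3x (by rw [h, map_zero])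
  have p2 := prime_small hd (Or.inl rfl) hh2 h20
  have p3 := prime_small hd (Or.inr rfl) hh3 h30
  have main : ∀ u v : MvPolynomial σ ℚ, u ∈ H wt i → v ∈ H wt j → aeval x u ≠ 0 → aeval x v ≠ 0 →
      IsRelPrime v u → Module.finrank ℚ (pt (H wt) (Ph wt x) (k + i)) +
      Module.finrank ℚ (pt (H wt) (Ph wt x) (k + j)) ≤
      Module.finrank ℚ (pt (H wt) (Ph wt x) (k + i + j)) +
        Module.finrank ℚ (pt (H wt) (Ph wt x) k) := by
    intro u v hu hv hux hvx hrel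
    refine supermod mul_mem_H inferInstance (exact_H (fun h => hux (by rw [h, map_zero])) hu)
      (exact_H (fun h => hvx (by rw [h, map_zero])) hv)
      (fun h => hvx ((mem_Ph_of_mem_H hv).1 h)) (fun a ha => hrel.dvd_of_dvd_mul_left ha) k
  have h32 : ¬ h3 ∣ h2 := by
    rintro ⟨q, hq⟩
    have h1 := (exact_H h30 hh3).2.2 2 q (fun h => h20 (by rw [hq, h, mul_zero])) (by
      rw [← hq]
      exact hh2)
    omega
  rcases hij with ⟨hi, hj⟩ | ⟨rfl, rfl⟩ | ⟨rfl, rfl⟩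
  · obtain ⟨u, hu, hux, hu2, hu3⟩ := exists_generic hd hZ hi (hne i (by omega)) hh2 h20 hh3 h30
    have r2 : IsRelPrime h2 u := (p2.irreducible.isRelPrime_iff_not_dvd).2 hu2
    have r3 : IsRelPrime h3 u := (p3.irreducible.isRelPrime_iff_not_dvd).2 hu3
    obtain ⟨c, e, hce⟩ : ∃ c e, 2 * c + 3 * e = j := by
      rcases Nat.even_or_odd' j with ⟨c, hc | hc⟩
      · exact ⟨c, 0, by omega⟩
      · exact ⟨c - 1, 1, by omega⟩
    refine main u (h2 ^ c * h3 ^ e) hu ?_ hux ?_ (r2.pow_left.mul_left r3.pow_left)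
    · rw [← hce]
      exact mul_mem_H _ _ _ (pow_mem_H' hh2 c) _ (pow_mem_H' hh3 e)
    · rw [map_mul, map_pow, map_pow]
      exact mul_ne_zero (pow_ne_zero _ h2x) (pow_ne_zero _ h3x)
  · exact main h2 h3 hh2 hh3 h2x h3x ((p3.irreducible.isRelPrime_iff_not_dvd).2 h32)
  · refine main (h2 ^ 2) h3 (pow_mem_H' hh2 2) hh3 (by
      rw [map_pow]
      exact pow_ne_zero _ h2x) h3x
      ((p3.irreducible.isRelPrime_iff_not_dvd).2 fun h => h32 (p3.dvd_of_dvd_pow h))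

end

end Pool.Agent.R390.MZ
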