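import Mathlib
import Pool.Agent.R390.MZ.ADefs
import Pool.Agent.R390.MZ.Super

set_option autoImplicit false

/-!
# The dimensions for alternating multiple zeta values
-/

open MvPolynomial

namespace Pool.Agent.R390.MZ

open Filter Topology

lemma psum_zero (a : Fin 0 → ℕ) (z : Fin 0 → ℝ) (M : ℕ) : psum a z M = 1 := by
  classical
  rw [psum, Finset.filter_true_of_mem fun l _ => Subsingleton.strictAnti l]
  simp

lemma AZ_zero_ne_bot : AZ 0 ≠ ⊥ := by
  intro h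
  have h1 : (1 : ℝ) ∈ AZ 0 := by
    refine Submodule.subset_span ⟨0, Fin.elim0, Fin.elim0, fun j => j.elim0, fun j => j.elim0,
      fun h => absurd h (lt_irrefl 0), by simp, ?_⟩
    have : psum (Fin.elim0 : Fin 0 → ℕ) (Fin.elim0 : Fin 0 → ℝ) = fun _ => 1 := by
      funext M
      exact psum_zero _ _ M
    rw [this]
    exact tendsto_const_nhds
  rw [h, Submodule.mem_bot] at h1
  exact one_ne_zero h1

lemma psum_one (M : ℕ) : psum (fun _ : Fin 1 => 1) (fun _ : Fin 1 => (-1 : ℝ)) M =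
    -∑ i ∈ Finset.range M, (-1 : ℝ) ^ i * (1 / ((i : ℝ) + 1)) := by
  classical
  rw [psum, Finset.filter_true_of_mem fun l _ => Subsingleton.strictAnti l]
  simp only [Finset.univ_unique, Finset.prod_singleton, pow_one]
  rw [← Finset.sum_neg_distrib, ← Fin.sum_univ_eq_sum_range
    (fun i => -((-1 : ℝ) ^ i * (1 / ((i : ℝ) + 1))))]
  refine Fintype.sum_equiv (Equiv.funUnique (Fin 1) (Fin M)) _ _ fun l => ?_
  simp only [Equiv.funUnique_apply, Fin.default_eq_zero]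
  rw [pow_succ]
  push_cast
  ring

lemma AZ_one_ne_bot : AZ 1 ≠ ⊥ := by
  have ha : Antitone fun i : ℕ => 1 / ((i : ℝ) + 1) := fun i j hij =>
    one_div_le_one_div_of_le (by positivity) (by exact_mod_cast Nat.succ_le_succ hij)
  obtain ⟨l, hl⟩ := ha.tendsto_alternating_series_of_tendsto_zero
    tendsto_one_div_add_atTop_nhds_zero_nat
  have h1 := ha.alternating_series_le_tendsto hl 1
  norm_num [Finset.sum_range_succ] at h1
  intro h
  have h2 : -l ∈ AZ 1 := by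
    refine Submodule.subset_span ⟨1, fun _ => 1, fun _ => -1, fun j => le_rfl, fun j => Or.inr rfl,
      fun h h2 => ?_, by simp, ?_⟩
    · have := h2.2
      norm_num at this
    · have : psum (fun _ : Fin 1 => 1) (fun _ : Fin 1 => (-1 : ℝ)) =
          fun M => -∑ i ∈ Finset.range M, (-1 : ℝ) ^ i * (1 / ((i : ℝ) + 1)) := by
        funext M
        exact psum_one M
      rw [this]
      exact hl.neg
  rw [h, Submodule.mem_bot] at h2
  linarith

lemma sh_fb (n k : ℕ) : sh fb n k = Nat.fib (k + 1 - n) := by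
  rw [sh]
  split_ifs with h
  · rw [fb, show k + 1 - n = k - n + 1 by omega]
  · rw [show k + 1 - n = 0 by omega, Nat.fib_zero]

lemma fb_pos (k : ℕ) : 0 < fb k := Nat.fib_pos.2 (Nat.succ_pos k)

lemma fb_lt (k : ℕ) : fb (k + 1) < fb (k + 2) := by
  rw [fb, fb, Nat.fib_add_two (n := k + 1)]
  have : 0 < Nat.fib (k + 1) := Nat.fib_pos.2 (Nat.succ_pos k)
  omega

section

variable {σ : Type} {wt : σ → ℕ} {x : σ → ℝ} {Z : ℕ → Submodule ℚ ℝ} {d : ℕ → ℕ}

lemma finite_Z' (hd : ∀ k, {m : σ →₀ ℕ | Finsupp.weight wt m = k}.encard = d k)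
    (hZ : ∀ k, Z k = Submodule.span ℚ {y : ℝ | ∃ m : σ →₀ ℕ, Finsupp.weight wt m = k ∧
      y = m.prod fun s e => x s ^ e}) (k : ℕ) : FiniteDimensional ℚ (Z k) := by
  have := finite_H hd k
  rw [Z_eq hZ]
  infer_instance

lemma no_small (hd : ∀ k, {m : σ →₀ ℕ | Finsupp.weight wt m = k}.encard = d k)
    (hZ : ∀ k, Z k = Submodule.span ℚ {y : ℝ | ∃ m : σ →₀ ℕ, Finsupp.weight wt m = k ∧
      y = m.prod fun s e => x s ^ e}) (h00 : d 0 = 1) {n : ℕ} (h1 : d n = 1) (hn : Z n ≠ ⊥)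
    {f : MvPolynomial σ ℚ} (hf : f ∈ Ph wt x) (he : Exact (H wt) f n) : False := by
  have := finite_H hd
  have i0 := finite_Z' hd hZ n
  have h1 := finrank_pt_ge mul_mem_H (finrank_H hd) he hf n
  have h5 := finrank_map_add (finrank_H hd) (aeval (R := ℚ) x).toLinearMap (P := Ph wt x) (k := n)
    (fun f hf => mem_Ph_of_mem_H hf)
  rw [← Z_eq hZ] at h5
  rw [sh, if_pos le_rfl, Nat.sub_self, h00] at h1
  have e0 := Submodule.one_le_finrank_iff.2 hn
  omega

lemma two_le_alt (hd : ∀ k, {m : σ →₀ ℕ | Finsupp.weight wt m = k}.encard = fb k)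
    (hZ : ∀ k, Z k = Submodule.span ℚ {y : ℝ | ∃ m : σ →₀ ℕ, Finsupp.weight wt m = k ∧
      y = m.prod fun s e => x s ^ e}) (h0 : Z 0 ≠ ⊥) (h1 : Z 1 ≠ ⊥)
    {f : MvPolynomial σ ℚ} {n : ℕ} (hf : f ∈ Ph wt x) (he : Exact (H wt) f n) : 2 ≤ n := by
  by_contra hc
  have h2 : n = 0 ∨ n = 1 := by omega
  rcases h2 with rfl | rfl
  · exact no_small hd hZ rfl rfl h0 hf he
  · exact no_small hd hZ rfl rfl h1 hf he

end

/-- **The three cases for the dimensions.** -/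
theorem tri_alt {Z : ℕ → Submodule ℚ ℝ} (hG : Gen Z fb) (h0 : Z 0 ≠ ⊥) (h1 : Z 1 ≠ ⊥) :
    (∀ k, Module.finrank ℚ (Z k) = Nat.fib (k + 1)) ∨
    (∃ n, 2 ≤ n ∧ ∀ k, Module.finrank ℚ (Z k) + Nat.fib (k + 1 - n) = Nat.fib (k + 1)) ∨
    (∃ n m, 2 ≤ n ∧ n ≤ m ∧
      (∀ k < m, Module.finrank ℚ (Z k) + Nat.fib (k + 1 - n) = Nat.fib (k + 1)) ∧
      ∀ k, Module.finrank ℚ (Z k) + Nat.fib (k + 1 - n) ≤ Nat.fib (k + 1) ∧
        Module.finrank ℚ (Z k) + Nat.fib (k + 1 - n) + Nat.fib (k + 1 - m) ≤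
          Nat.fib (k + 1) + Nat.fib (k + 1 - (n + m))) := by
  obtain ⟨σ, wt, x, hd, hZ⟩ := hG
  have e : ∀ k, fb k = Nat.fib (k + 1) := fun k => rfl
  rcases tri_hom rfl hd hZ with
    ⟨-, h⟩ | ⟨f, n, hf, -, he, -, h⟩ | ⟨f, n, g, m, hnm, hf, -, he, hg, -, he', -, h5, h⟩
  · exact Or.inl h
  · refine Or.inr (Or.inl ⟨n, two_le_alt hd hZ h0 h1 hf he, fun k => ?_⟩)
    have := h k
    rwa [sh_fb, e] at this
  · refine Or.inr (Or.inr ⟨n, m, two_le_alt hd hZ h0 h1 hf he, hnm, fun k hk => ?_, fun k => ?_⟩)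
    · have := h5 k hk
      rwa [sh_fb, e] at this
    · have := h k
      rwa [sh_fb, sh_fb, sh_fb, e] at this

section

variable {σ : Type} {wt : σ → ℕ} {x : σ → ℝ} {Z : ℕ → Submodule ℚ ℝ}

lemma prime_one (hd : ∀ k, {m : σ →₀ ℕ | Finsupp.weight wt m = k}.encard = fb k)
    {h : MvPolynomial σ ℚ} (hh : h ∈ H wt 1) (h0 : h ≠ 0) : Prime h := by
  have hunit : ∀ q ∈ H wt 0, q ≠ 0 → IsUnit q := by
    intro q hq hq0
    refine isUnit_of_weight_zero hd rfl (fun m hm => ?_) hq0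
    rw [H, mem_A] at hq
    exact hq m hm
  rw [← UniqueFactorizationMonoid.irreducible_iff_prime]
  refine ⟨fun hu => ?_, ?_⟩
  · have h1 : (1 : MvPolynomial σ ℚ) ∈ H wt 0 := by
      rw [mem_H, map_one]
      rfl
    obtain ⟨l, hl⟩ := hu.exists_right_inv
    have h2 := (exact_H h0 hh).2.2 0 l (fun hl0 => by simp [hl0] at hl) (by rw [hl]; exact h1)
    omega
  · rintro p q rfl
    have hp0 := left_ne_zero_of_mul h0
    have hq0 := right_ne_zero_of_mul h0
    obtain ⟨a, ha⟩ := exists_mem_H_of_dvd hh h0 (dvd_mul_right p q)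
    obtain ⟨h1, h2⟩ := (exact_H hp0 ha).2.2 1 q hq0 hh
    rcases Nat.eq_zero_or_pos a with h3 | h3
    · subst h3
      exact Or.inl (hunit p ha hp0)
    · right
      have h4 : 1 - a = 0 := by omega
      rw [h4] at h2
      exact hunit q h2 hq0

lemma exists_generic_alt (hd : ∀ k, {m : σ →₀ ℕ | Finsupp.weight wt m = k}.encard = fb k)
    (hZ : ∀ k, Z k = Submodule.span ℚ {y : ℝ | ∃ m : σ →₀ ℕ, Finsupp.weight wt m = k ∧
      y = m.prod fun s e => x s ^ e}) {j : ℕ} (hj2 : 2 ≤ j) (hj : Z j ≠ ⊥)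
    {h1 : MvPolynomial σ ℚ} (hh1 : h1 ∈ H wt 1) (h10 : h1 ≠ 0) :
    ∃ u ∈ H wt j, aeval x u ≠ 0 ∧ ¬ h1 ∣ u := by
  have hfin := finite_H hd
  by_contra hc
  push Not at hc
  let q : Fin 2 → Submodule ℚ (H wt j) := ![(pt (H wt) (Ideal.span {h1}) j).comap (H wt j).subtype,
    (LinearMap.ker (aeval (R := ℚ) x).toLinearMap).comap (H wt j).subtype]
  have hcov : ⋃ a, (q a : Set (H wt j)) = Set.univ := by
    rw [Set.eq_univ_iff_forall]
    rintro ⟨u, hu⟩
    rw [Set.mem_iUnion]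
    by_cases h2 : aeval x u = 0
    · exact ⟨1, h2⟩
    · exact ⟨0, mem_pt.2 ⟨hu, Ideal.mem_span_singleton.2 (hc u hu h2)⟩⟩
  obtain ⟨a, ha⟩ := Subspace.exists_eq_top_of_iUnion_eq_univ hcov
  fin_cases a
  · have h5 : pt (H wt) (Ideal.span {h1}) j = H wt j := by
      refine le_antisymm inf_le_left fun u hu => ?_
      have : (⟨u, hu⟩ : H wt j) ∈ (⊤ : Submodule ℚ (H wt j)) := trivial
      rw [← ha] at this
      exact this
    have h6 := finrank_pt_span mul_mem_H (finrank_H hd) (exact_H h10 hh1) j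
    rw [h5, finrank_H hd, sh, if_pos (by omega)] at h6
    have h7 := fb_lt (j - 2)
    rw [show j - 2 + 1 = j - 1 by omega, show j - 2 + 2 = j by omega] at h7
    omega
  · apply hj
    rw [Z_eq hZ, eq_bot_iff]
    rintro _ ⟨u, hu, rfl⟩
    have : (⟨u, hu⟩ : H wt j) ∈ (⊤ : Submodule ℚ (H wt j)) := trivial
    rw [← ha] at this
    exact this

/-- the numbers of homogeneous relations -/
theorem super_alt (hd : ∀ k, {m : σ →₀ ℕ | Finsupp.weight wt m = k}.encard = fb k)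
    (hZ : ∀ k, Z k = Submodule.span ℚ {y : ℝ | ∃ m : σ →₀ ℕ, Finsupp.weight wt m = k ∧
      y = m.prod fun s e => x s ^ e}) (hne : Z 1 ≠ ⊥) {i j : ℕ} (hj : 2 ≤ j) (k : ℕ) :
    Module.finrank ℚ (pt (H wt) (Ph wt x) (k + i)) +
      Module.finrank ℚ (pt (H wt) (Ph wt x) (k + j)) ≤
      Module.finrank ℚ (pt (H wt) (Ph wt x) (k + i + j)) +
        Module.finrank ℚ (pt (H wt) (Ph wt x) k) := by
  have hfin := finite_H hd
  obtain ⟨h1, hh1, h1x⟩ := exists_lift hZ hne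
  have h10 : h1 ≠ 0 := fun h => h1x (by rw [h, map_zero])
  have p1 := prime_one hd hh1 h10
  have hpow : ∀ c, h1 ^ c ∈ H wt c := fun c => by
    have := pow_mem_H' hh1 c
    rwa [one_mul] at this
  have hZj : Z j ≠ ⊥ := by
    intro h
    have h2 : aeval x (h1 ^ j) ∈ Z j := by
      rw [Z_eq hZ]
      exact ⟨_, hpow j, rfl⟩
    rw [h, Submodule.mem_bot, map_pow] at h2
    exact pow_ne_zero _ h1x h2
  obtain ⟨v, hv, hvx, hv1⟩ := exists_generic_alt hd hZ hj hZj hh1 h10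
  have r1 : IsRelPrime h1 v := (p1.irreducible.isRelPrime_iff_not_dvd).2 hv1
  have hrel : IsRelPrime v (h1 ^ i) := (r1.pow_left).symm
  have hux : aeval x (h1 ^ i) ≠ 0 := by
    rw [map_pow]
    exact pow_ne_zero _ h1x
  exact supermod mul_mem_H inferInstance (exact_H (fun h => hux (by rw [h, map_zero])) (hpow i))
    (exact_H (fun h => hvx (by rw [h, map_zero])) hv)
    (fun h => hvx ((mem_Ph_of_mem_H hv).1 h)) (fun a ha => hrel.dvd_of_dvd_mul_left ha) k

end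

end Pool.Agent.R390.MZ
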