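import Mathlib
import Pool.Agent.R390.MZ.HDefs

set_option autoImplicit false

/-!
# The depth filtration and the Broadhurst-Kreimer series
-/

namespace Pool.Agent.R390.MZ

/-- admissible indices of weight `k` and depth at most `r` -/
def Ind (r k : ℕ) : Set (List ℕ) :=
  {l | (∀ a ∈ l, 1 ≤ a) ∧ (∀ a ∈ l.head?, 2 ≤ a) ∧ l.sum = k ∧ l.length ≤ r}

/-- the span of the numbers `v l`, `l` admissible of weight `k` and depth at most `r` -/
def FilD {V : Type} [AddCommGroup V] [Module ℚ V] (v : List ℕ → V) (r k : ℕ) : Submodule ℚ V :=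
  Submodule.span ℚ (v '' Ind r k)

/-- the dimension of the part of depth `r` and weight `k` of the depth graded space -/
noncomputable def grD {V : Type} [AddCommGroup V] [Module ℚ V] (v : List ℕ → V) : ℕ → ℕ → ℤ
  | 0, k => Module.finrank ℚ (FilD v 0 k)
  | r + 1, k => (Module.finrank ℚ (FilD v (r + 1) k) : ℤ) - Module.finrank ℚ (FilD v r k)

open PowerSeries in
/-- `F` is the Broadhurst-Kreimer series, a power series in `X` whose coefficients are polynomials in
`Y`: `F = (1 + E Y) / (1 - O Y + S Y² - S Y⁴)` with `E = X² / (1 - X²)`, `O = X³ / (1 - X²)`,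
`S = X¹² / ((1 - X⁴) (1 - X⁶))`, written without denominators -/
def IsBK (F : PowerSeries (Polynomial ℤ)) : Prop :=
  F * ((1 - X ^ 2) * (1 - X ^ 4) * (1 - X ^ 6) - X ^ 3 * (1 - X ^ 4) * (1 - X ^ 6) *
      C Polynomial.X + X ^ 12 * (1 - X ^ 2) * (C Polynomial.X ^ 2 - C Polynomial.X ^ 4)) =
    (1 - X ^ 4) * (1 - X ^ 6) * ((1 - X ^ 2) + X ^ 2 * C Polynomial.X)

/-- the formula of Broadhurst and Kreimer holds in weight `k` for the depth graded dimensions of the
family `v` -/
def BKat {V : Type} [AddCommGroup V] [Module ℚ V] (F : PowerSeries (Polynomial ℤ))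
    (v : List ℕ → V) (k : ℕ) : Prop :=
  ∀ r, grD v r k = (PowerSeries.coeff k F).coeff r

end Pool.Agent.R390.MZ
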