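import Mathlib
import Pool.Agent.R390.MZ.Hoff

set_option autoImplicit false

/-!
# Transfer of the relations between real multiple zeta values to another family
-/

open MvPolynomial

namespace Pool.Agent.R390.MZ

section

variable {R A B : Type*} [AddCommGroup R] [Module ℚ R] [AddCommGroup A] [Module ℚ A]
  [AddCommGroup B] [Module ℚ B]

lemma rank_nullity (V : Submodule ℚ R) [FiniteDimensional ℚ V] (φ : R →ₗ[ℚ] A) :
    Module.finrank ℚ (V.map φ) + Module.finrank ℚ ↥(V ⊓ LinearMap.ker φ) = Module.finrank ℚ V := by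
  have h1 := LinearMap.finrank_range_add_finrank_ker (φ.domRestrict V)
  rw [LinearMap.range_domRestrict] at h1
  have e : Module.finrank ℚ (LinearMap.ker (φ.domRestrict V)) =
      Module.finrank ℚ ↥(V ⊓ LinearMap.ker φ) := by
    have : (LinearMap.ker (φ.domRestrict V)).map V.subtype = V ⊓ LinearMap.ker φ := by
      ext x
      rw [Submodule.mem_map, Submodule.mem_inf]
      constructor
      · rintro ⟨y, hy, rfl⟩
        exact ⟨y.2, by simpa using hy⟩
      · rintro ⟨h1, h2⟩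
        exact ⟨⟨x, h1⟩, by simpa using h2, rfl⟩
    rw [← this]
    exact (Submodule.equivMapOfInjective _ V.injective_subtype _).finrank_eq
  rw [e] at h1
  exact h1

lemma finrank_transfer (V : Submodule ℚ R) [FiniteDimensional ℚ V] (ρ : R →ₗ[ℚ] A)
    (π : R →ₗ[ℚ] B) (h : ∀ v ∈ V, ρ v = 0 → π v = 0) :
    Module.finrank ℚ (V.map ρ) = Module.finrank ℚ (V.map π) +
      Module.finrank ℚ ((V ⊓ LinearMap.ker π).map ρ) := by
  have i : FiniteDimensional ℚ ↥(V ⊓ LinearMap.ker π) :=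
    Submodule.finiteDimensional_of_le (S₂ := V) inf_le_left
  have h1 := rank_nullity V ρ
  have h2 := rank_nullity V π
  have h3 := rank_nullity (V ⊓ LinearMap.ker π) ρ
  have e : V ⊓ LinearMap.ker π ⊓ LinearMap.ker ρ = V ⊓ LinearMap.ker ρ := by
    ext x
    simp only [Submodule.mem_inf, LinearMap.mem_ker]
    exact ⟨fun h4 => ⟨h4.1.1, h4.2⟩, fun h4 => ⟨⟨h4.1, h _ h4.1 h4.2⟩, h4.2⟩⟩
  rw [e] at h3
  omega

end

/-- nonempty indices `(s_1, …, s_r)` with `s_i ≥ 1` and `s_1 ≥ 2` -/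
def Admissible (l : List ℕ) : Prop := l ≠ [] ∧ (∀ a ∈ l, 1 ≤ a) ∧ ∀ a ∈ l.head?, 2 ≤ a

/-- Every polynomial relation with rational coefficients between real multiple zeta values holds for
the numbers `zp s`. -/
def Transfer {K : Type} [Field K] [CharZero K] (zp : List ℕ → K) : Prop :=
  ∀ (m : ℕ) (s : Fin m → List ℕ), (∀ i, Admissible (s i)) → ∀ f : MvPolynomial (Fin m) ℚ,
    aeval (fun i => zt (s i)) f = 0 → aeval (fun i => zp (s i)) f = 0

/-- the `ℚ`-span of the numbers `zp s`, `s` admissible of weight `k`, and of `1` if `k = 0` -/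
def PL {K : Type} [Field K] [CharZero K] (zp : List ℕ → K) (k : ℕ) : Submodule ℚ K :=
  Submodule.span ℚ {x : K | (k = 0 ∧ x = 1) ∨ ∃ l : List ℕ, Admissible l ∧ l.sum = k ∧ x = zp l}

section

variable {K : Type} [Field K] [CharZero K] {zp : List ℕ → K}

/-- the admissible indices -/
abbrev Ix : Type := {l : List ℕ // Admissible l}

lemma transfer_Ix (h : Transfer zp) (f : MvPolynomial Ix ℚ)
    (hf : aeval (fun i : Ix => zt i.1) f = 0) : aeval (fun i : Ix => zp i.1) f = 0 := by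
  obtain ⟨n, g, -, q, rfl⟩ := exists_fin_rename f
  rw [aeval_rename] at hf ⊢
  exact h n (fun i => (g i).1) (fun i => (g i).2) q hf

/-- the linear forms of weight `k` (and the constants, if `k = 0`) -/
noncomputable def VL (k : ℕ) : Submodule ℚ (MvPolynomial Ix ℚ) :=
  Submodule.span ℚ {f | (k = 0 ∧ f = 1) ∨ ∃ l : Ix, l.1.sum = k ∧ f = X l}

lemma zt_nil : zt [] = 1 := by
  have h : Pool.Agent.H447R2.MZ.Adm [] := ⟨fun a ha => by simp at ha, fun a t h => by simp at h⟩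
  rw [zt_eq_val h, Pool.Agent.H447R2.MZ.val]
  simp [Pool.Agent.H447R2.MZ.H_nil]

lemma map_VL_real (k : ℕ) : (VL k).map (aeval (R := ℚ) fun i : Ix => zt i.1).toLinearMap = ZL k := by
  rw [VL, Submodule.map_span, ZL]
  congr 1
  ext x
  simp only [Set.mem_image, Set.mem_ofPred_eq, AlgHom.toLinearMap_apply]
  constructor
  · rintro ⟨f, ⟨rfl, rfl⟩ | ⟨l, hl, rfl⟩, rfl⟩
    · exact ⟨[], by simp, by simp, by simp, by rw [map_one, zt_nil]⟩
    · exact ⟨l.1, l.2.2.1, l.2.2.2, hl, by rw [aeval_X]⟩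
  · rintro ⟨l, h1, h2, h3, rfl⟩
    by_cases hl : l = []
    · subst hl
      exact ⟨1, Or.inl ⟨by simpa using h3.symm, rfl⟩, by rw [map_one, zt_nil]⟩
    · exact ⟨X ⟨l, hl, h1, h2⟩, Or.inr ⟨⟨l, hl, h1, h2⟩, h3, rfl⟩, by rw [aeval_X]⟩

lemma map_VL_p (k : ℕ) : (VL k).map (aeval (R := ℚ) fun i : Ix => zp i.1).toLinearMap = PL zp k := by
  rw [VL, Submodule.map_span, PL]
  congr 1
  ext x
  simp only [Set.mem_image, Set.mem_ofPred_eq, AlgHom.toLinearMap_apply]
  constructor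
  · rintro ⟨f, ⟨rfl, rfl⟩ | ⟨l, hl, rfl⟩, rfl⟩
    · exact Or.inl ⟨rfl, map_one _⟩
    · exact Or.inr ⟨l.1, l.2, hl, by rw [aeval_X]⟩
  · rintro (⟨rfl, rfl⟩ | ⟨l, h1, h2, rfl⟩)
    · exact ⟨1, Or.inl ⟨rfl, rfl⟩, map_one _⟩
    · exact ⟨X ⟨l, h1⟩, Or.inr ⟨⟨l, h1⟩, h2, rfl⟩, by rw [aeval_X]⟩

lemma finite_VL (k : ℕ) : FiniteDimensional ℚ (VL k) := by
  refine FiniteDimensional.span_of_finite ℚ ?_
  have h1 : {f : MvPolynomial Ix ℚ | (k = 0 ∧ f = 1) ∨ ∃ l : Ix, l.1.sum = k ∧ f = X l} ⊆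
      {1} ∪ X '' {l : Ix | l.1.sum = k} := by
    rintro f (⟨-, rfl⟩ | ⟨l, hl, rfl⟩)
    · exact Or.inl rfl
    · exact Or.inr ⟨l, hl, rfl⟩
  refine Set.Finite.subset ((Set.finite_singleton _).union (Set.Finite.image _ ?_)) h1
  have h2 : {l : Ix | l.1.sum = k} ⊆ (fun l : Ix => l.1) ⁻¹'
      Set.range (fun c : Composition k => c.blocks) := by
    intro l hl
    exact ⟨⟨l.1, fun {i} hi => l.2.2.1 i hi, hl⟩, rfl⟩
  exact Set.Finite.subset ((Set.finite_range _).preimage Subtype.val_injective.injOn) h2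

lemma adm_two : Admissible [2] := ⟨by simp, by simp, by simp⟩

/-- **The inequality.** -/
theorem transfer_ineq (h : Transfer zp) (h2 : zp [2] = 0) (k : ℕ) :
    Module.finrank ℚ (PL zp (k + 2)) + Module.finrank ℚ (ZL k) ≤
      Module.finrank ℚ (ZL (k + 2)) := by
  have i := finite_VL (k + 2)
  have h1 := finrank_transfer (VL (k + 2)) (aeval (R := ℚ) fun i : Ix => zt i.1).toLinearMap
    (aeval (R := ℚ) fun i : Ix => zp i.1).toLinearMap
    (fun v _ hv => transfer_Ix h v hv)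
  rw [map_VL_real, map_VL_p] at h1
  rw [h1]
  refine Nat.add_le_add_left ?_ _
  have hz : zt [2] ≠ 0 := by
    have ha : Pool.Agent.H447R2.MZ.Adm [2] := ⟨by simp, fun a t h => by simp at h; omega⟩
    rw [zt_eq_val ha, ← (Pool.Agent.H447R2.MZ.val_single 2 le_rfl).tsum_eq]
    exact (Pool.Agent.H447R2.MZ.zeta_pos 2 le_rfl).ne'
  have hi : Function.Injective (LinearMap.mulLeft ℚ (zt [2])) :=
    fun a b hab => mul_left_cancel₀ hz (by simpa using hab)
  have i2 : FiniteDimensional ℚ ↥(VL (k + 2) ⊓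
      LinearMap.ker (aeval (R := ℚ) fun i : Ix => zp i.1).toLinearMap) :=
    Submodule.finiteDimensional_of_le (S₂ := VL (k + 2)) inf_le_left
  rw [(Submodule.equivMapOfInjective _ hi (ZL k)).finrank_eq]
  refine Submodule.finrank_mono ?_
  rintro _ ⟨z, hz, rfl⟩
  have h5 : zt [2] ∈ ZL 2 := Submodule.subset_span ⟨[2], by simp, by simp, by simp, rfl⟩
  have h3 : zt [2] * z ∈ ZL (k + 2) := by
    rw [ZL_eq] at h5 ⊢
    rw [SetLike.mem_coe, ZL_eq] at hz
    rw [add_comm]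
    exact Pool.Agent.H447R2.MZ.mul_mem 2 k _ _ h5 hz
  rw [SetLike.mem_coe, ← map_VL_real] at hz
  obtain ⟨v, hv, rfl⟩ := hz
  rw [← map_VL_real] at h3
  obtain ⟨u, hu, huz⟩ := h3
  refine ⟨u, ⟨hu, ?_⟩, huz⟩
  have h4 := transfer_Ix h (X ⟨[2], adm_two⟩ * v - u) (by
    rw [map_sub, map_mul, aeval_X, sub_eq_zero]
    exact huz.symm)
  rw [map_sub, map_mul, aeval_X, h2, zero_mul, zero_sub, neg_eq_zero] at h4
  exact h4

/-- **The sum of the dimensions.** -/
theorem transfer_sum (h : Transfer zp) (h2 : zp [2] = 0) (k : ℕ) :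
    ∑ j ∈ Finset.range (k / 2 + 1), Module.finrank ℚ (PL zp (k - 2 * j)) ≤
      Module.finrank ℚ (ZL k) := by
  induction k using Nat.strong_induction_on with
  | _ k ih =>
    match k with
    | 0 | 1 =>
      simp only [Nat.reduceDiv, zero_add, Finset.range_one, Finset.sum_singleton]
      rw [← map_VL_real, ← map_VL_p]
      have h1 := fun k => @finrank_transfer _ _ _ _ _ _ _ _ _ (VL k) (finite_VL k)
        (aeval (R := ℚ) fun i : Ix => zt i.1).toLinearMap
        (aeval (R := ℚ) fun i : Ix => zp i.1).toLinearMap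
        (fun v _ hv => transfer_Ix h v hv)
      rw [h1]
      exact Nat.le_add_right _ _
    | k + 2 =>
      have h3 := transfer_ineq h h2 k
      have h4 := ih k (by omega)
      rw [show (k + 2) / 2 + 1 = (k / 2 + 1) + 1 by omega, Finset.sum_range_succ']
      have e : ∑ j ∈ Finset.range (k / 2 + 1), Module.finrank ℚ (PL zp (k + 2 - 2 * (j + 1))) =
          ∑ j ∈ Finset.range (k / 2 + 1), Module.finrank ℚ (PL zp (k - 2 * j)) :=
        Finset.sum_congr rfl fun j _ => by rw [show k + 2 - 2 * (j + 1) = k - 2 * j by omega]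
      rw [e, show k + 2 - 2 * 0 = k + 2 by omega]
      omega

end

end Pool.Agent.R390.MZ
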