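import Mathlib

set_option autoImplicit false

/-!
# Counting the monomials that are not divisible by given monomials
-/

namespace Pool.Agent.R390.MZ

section

variable {σ : Type} (wt : σ → ℕ)

/-- the monomials of weight `k` that are not above an element of `G` -/
def avoid (G : Set (σ →₀ ℕ)) (k : ℕ) : Set (σ →₀ ℕ) :=
  {m | Finsupp.weight wt m = k ∧ ∀ g ∈ G, ¬ g ≤ m}

variable {wt}

lemma avoid_insert (hfin : ∀ k, {m : σ →₀ ℕ | Finsupp.weight wt m = k}.Finite)
    (g : σ →₀ ℕ) (G : Set (σ →₀ ℕ)) (k : ℕ) :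
    (avoid wt (insert g G) k).ncard +
      (if Finsupp.weight wt g ≤ k then
        (avoid wt ((fun h => h - g) '' G) (k - Finsupp.weight wt g)).ncard else 0) =
      (avoid wt G k).ncard := by
  classical
  have hf : ∀ G k, (avoid wt G k).Finite := fun G k => (hfin k).subset fun m hm => hm.1
  set B : Set (σ →₀ ℕ) := {m | m ∈ avoid wt G k ∧ g ≤ m} with hB
  have h1 : avoid wt G k = avoid wt (insert g G) k ∪ B := by
    ext m
    simp only [avoid, hB, Set.mem_ofPred_eq, Set.mem_union, Set.mem_insert_iff, forall_eq_or_imp]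
    constructor
    · rintro ⟨h1, h2⟩
      by_cases hg : g ≤ m
      · exact Or.inr ⟨⟨h1, h2⟩, hg⟩
      · exact Or.inl ⟨h1, hg, h2⟩
    · rintro (⟨h1, -, h2⟩ | ⟨⟨h1, h2⟩, -⟩)
      · exact ⟨h1, h2⟩
      · exact ⟨h1, h2⟩
  have h2 : Disjoint (avoid wt (insert g G) k) B := by
    rw [Set.disjoint_left]
    rintro m h1 h2
    exact h1.2 g (Set.mem_insert _ _) h2.2
  rw [h1, Set.ncard_union_eq h2 (hf _ _) ((hf G k).subset fun m hm => hm.1)]
  congr 1
  split_ifs with hk
  · have h3 : B = (fun m => g + m) '' avoid wt ((fun h => h - g) '' G)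
        (k - Finsupp.weight wt g) := by
      ext m
      constructor
      · rintro ⟨⟨hm1, hm2⟩, hgm⟩
        refine ⟨m - g, ⟨?_, ?_⟩, add_tsub_cancel_of_le hgm⟩
        · have : Finsupp.weight wt g + Finsupp.weight wt (m - g) = k := by
            rw [← map_add, add_tsub_cancel_of_le hgm, hm1]
          omega
        · rintro _ ⟨h, hh, rfl⟩ hc
          apply hm2 h hh
          have h4 : h - g ≤ m - g := hc
          rw [tsub_le_iff_left, add_tsub_cancel_of_le hgm] at h4
          exact h4
      · rintro ⟨a, ⟨ha1, ha2⟩, rfl⟩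
        refine ⟨⟨?_, fun h hh hc => ?_⟩, le_self_add⟩
        · show Finsupp.weight wt (g + a) = k
          rw [map_add, ha1]
          omega
        · exact ha2 (h - g) ⟨h, hh, rfl⟩ (tsub_le_iff_left.2 hc)
    rw [h3, Set.ncard_image_of_injective _ (add_right_injective g)]
  · have h3 : B = ∅ := by
      ext m
      simp only [hB, Set.mem_ofPred_eq, Set.mem_empty_iff_false, iff_false, not_and]
      rintro ⟨hm1, hm2⟩ hgm
      have : Finsupp.weight wt g + Finsupp.weight wt (m - g) = k := by
        rw [← map_add, add_tsub_cancel_of_le hgm, hm1]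
      omega
    rw [h3, Set.ncard_empty]

open PowerSeries in
lemma exists_poly (hfin : ∀ k, {m : σ →₀ ℕ | Finsupp.weight wt m = k}.Finite) (n : ℕ) :
    ∀ G : Finset (σ →₀ ℕ), G.card ≤ n → ∃ K : Polynomial ℤ,
      PowerSeries.mk (fun k => ((avoid wt (G : Set (σ →₀ ℕ)) k).ncard : ℤ)) =
        (K : PowerSeries ℤ) *
          PowerSeries.mk (fun k => (({m : σ →₀ ℕ | Finsupp.weight wt m = k}).ncard : ℤ)) := by
  classical
  induction n with
  | zero =>
    intro G hG
    have : G = ∅ := Finset.card_eq_zero.1 (by omega)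
    subst this
    refine ⟨1, ?_⟩
    rw [Polynomial.coe_one, one_mul]
    congr 1
    funext k
    congr 2
    ext m
    simp [avoid]
  | succ n ih =>
    intro G hG
    rcases G.eq_empty_or_nonempty with h0 | ⟨g, hg⟩
    · exact ih G (by rw [h0]; simp)
    · set G' := G.erase g with hG'
      have hc : G'.card ≤ n := by
        rw [hG', Finset.card_erase_of_mem hg]
        omega
      obtain ⟨K1, h1⟩ := ih G' hc
      obtain ⟨K2, h2⟩ := ih (G'.image fun h => h - g) (Finset.card_image_le.trans hc)
      refine ⟨K1 - Polynomial.X ^ (Finsupp.weight wt g) * K2, ?_⟩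
      rw [Polynomial.coe_sub, Polynomial.coe_mul, Polynomial.coe_pow, Polynomial.coe_X, sub_mul,
        ← h1, mul_assoc, ← h2]
      ext k
      rw [map_sub, coeff_mk, coeff_mk, PowerSeries.coeff_X_pow_mul', coeff_mk]
      have h3 := avoid_insert hfin g (G' : Set (σ →₀ ℕ)) k
      have h4 : insert g (G' : Set (σ →₀ ℕ)) = (G : Set (σ →₀ ℕ)) := by
        rw [hG', ← Finset.coe_insert, Finset.insert_erase hg]
      rw [h4] at h3
      rw [Finset.coe_image]
      split_ifs at h3 ⊢ with hk
      · rw [← h3]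
        push_cast
        ring
      · rw [← h3]
        push_cast
        ring

/-- Dickson's lemma for monomials in finitely many of the variables -/
lemma dickson (S : Set σ) (hS : S.Finite) (U : Set (σ →₀ ℕ))
    (hU : ∀ u ∈ U, ∀ s ∈ u.support, s ∈ S) :
    ∃ G : Finset (σ →₀ ℕ), (G : Set (σ →₀ ℕ)) ⊆ U ∧ ∀ u ∈ U, ∃ g ∈ G, g ≤ u := by
  classical
  have : Finite S := hS
  let e : (S →₀ ℕ) → (σ →₀ ℕ) := fun f => f.embDomain (Function.Embedding.subtype _)
  have he : Monotone e := by
    intro a b hab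
    have h1 : b = a + (b - a) := (add_tsub_cancel_of_le hab).symm
    show a.embDomain _ ≤ b.embDomain _
    rw [h1, Finsupp.embDomain_add]
    exact le_self_add
  have hUe : U ⊆ e '' Set.univ := by
    intro u hu
    refine ⟨u.subtypeDomain (· ∈ S), trivial, ?_⟩
    ext s
    by_cases hs : s ∈ S
    · have h2 := Finsupp.embDomain_apply_self (Function.Embedding.subtype (· ∈ S))
        (u.subtypeDomain (· ∈ S)) ⟨s, hs⟩
      exact h2
    · have h3 : u s = 0 := by
        by_contra hc
        exact hs (hU u hu s (by simpa using hc))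
      rw [h3]
      refine Finsupp.embDomain_of_notMem_range _ _ _ ?_
      rintro ⟨⟨t, ht⟩, rfl⟩
      exact hs ht
  have hPWO : U.IsPWO := ((Set.isPWO_of_wellQuasiOrderedLE _).image_of_monotone he).mono hUe
  have hfin : {u | Minimal (· ∈ U) u}.Finite :=
    (setOfPred_minimal_antichain _).finite_of_partiallyWellOrderedOn
      (hPWO.mono fun u hu => hu.1)
  refine ⟨hfin.toFinset, fun u hu => ?_, fun u hu => ?_⟩
  · rw [Set.Finite.coe_toFinset] at hu
    exact hu.1
  · obtain ⟨g, hg1, hg2⟩ := hPWO.exists_le_minimal hu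
    exact ⟨g, by simpa using hg2, hg1⟩

end

end Pool.Agent.R390.MZ
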