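import Mathlib
import Pool.Agent.R390.MZ.Full

set_option autoImplicit false

/-!
# Standard monomials
-/

open MvPolynomial

namespace Pool.Agent.R390.MZ

section

variable {σ : Type}

/-- a monomial order exists -/
lemma exists_monomialOrder (σ : Type) : Nonempty (MonomialOrder.{0, 0} σ) := by
  classical
  let _ : LinearOrder σ := linearOrderOfSTO (Function.swap (WellOrderingRel : σ → σ → Prop))
  have _ : WellFoundedGT σ := ⟨(WellOrderingRel.isWellOrder (α := σ)).wf⟩
  exact ⟨MonomialOrder.lex⟩

variable (mo : MonomialOrder.{0, 0} σ)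

/-- the set of the leading exponents of the elements of `V` -/
def lead (V : Submodule ℚ (MvPolynomial σ ℚ)) : Set (σ →₀ ℕ) :=
  {u | ∃ f ∈ V, f ≠ 0 ∧ mo.degree f = u}

variable {mo}

lemma sup_std {W : Set (σ →₀ ℕ)} {V : Submodule ℚ (MvPolynomial σ ℚ)}
    (hV : V ≤ restrictSupport ℚ W) :
    V ⊔ restrictSupport ℚ (W \ lead mo V) = restrictSupport ℚ W := by
  classical
  refine le_antisymm (sup_le hV (restrictSupport_mono ℚ Set.sdiff_subset)) ?_
  have key : ∀ u : mo.syn, ∀ f ∈ restrictSupport ℚ W, mo.toSyn (mo.degree f) = u →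
      f ∈ V ⊔ restrictSupport ℚ (W \ lead mo V) := by
    intro u
    induction u using WellFoundedLT.induction with
    | _ u ih =>
      intro f hf hfu
      by_cases hf0 : f = 0
      · rw [hf0]
        exact zero_mem _
      have hW : mo.degree f ∈ W :=
        (mem_restrictSupport_iff ℚ).1 hf (by simpa using mo.degree_mem_support hf0)
      have step : ∀ g ∈ V ⊔ restrictSupport ℚ (W \ lead mo V), g ∈ restrictSupport ℚ W →
          (∀ a ∈ g.support, mo.toSyn a ≤ mo.toSyn (mo.degree f)) →
          g.coeff (mo.degree f) = f.coeff (mo.degree f) →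
          f ∈ V ⊔ restrictSupport ℚ (W \ lead mo V) := by
        intro g hg hgW hgl hgc
        by_cases h0 : f - g = 0
        · rw [sub_eq_zero] at h0
          rw [h0]
          exact hg
        have h1 : mo.toSyn (mo.degree (f - g)) < u := by
          have h2 := mo.degree_mem_support h0
          have h3 : mo.toSyn (mo.degree (f - g)) ≤ mo.toSyn (mo.degree f) := by
            rcases Finset.mem_union.1 (support_sub σ f g h2) with h | h
            · exact mo.le_degree h
            · exact hgl _ h
          rw [← hfu]
          refine lt_of_le_of_ne h3 fun he => ?_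
          have he' := mo.toSyn.injective he
          rw [mem_support_iff, he', coeff_sub, hgc, sub_self] at h2
          exact h2 rfl
        have h2 := ih _ h1 (f - g) (Submodule.sub_mem _ hf hgW) rfl
        have h3 := Submodule.add_mem _ h2 hg
        rwa [sub_add_cancel] at h3
      by_cases hu : mo.degree f ∈ lead mo V
      · obtain ⟨v, hv, hv0, hvu⟩ := hu
        have hc : v.coeff (mo.degree f) ≠ 0 := by
          rw [← hvu]
          exact mo.coeff_degree_ne_zero_iff.2 hv0
        have h1 : (f.coeff (mo.degree f) / v.coeff (mo.degree f)) • v ∈ V := V.smul_mem _ hv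
        refine step _ (Submodule.mem_sup_left h1) (hV h1) (fun a ha => ?_) ?_
        · rw [← hvu]
          exact mo.le_degree (support_smul ha)
        · rw [coeff_smul, smul_eq_mul, div_mul_cancel₀ _ hc]
      · have h1 : monomial (mo.degree f) (f.coeff (mo.degree f)) ∈
            restrictSupport ℚ (W \ lead mo V) := by
          rw [monomial_mem_restrictSupport]
          exact Or.inl ⟨hW, hu⟩
        refine step _ (Submodule.mem_sup_right h1)
          (restrictSupport_mono ℚ Set.sdiff_subset h1) (fun a ha => ?_) ?_
        · have := support_monomial_subset ha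
          rw [Finset.mem_singleton] at this
          rw [this]
        · rw [coeff_monomial, if_pos rfl]
  exact fun f hf => key _ f hf rfl

lemma inf_std {W : Set (σ →₀ ℕ)} {V : Submodule ℚ (MvPolynomial σ ℚ)} :
    V ⊓ restrictSupport ℚ (W \ lead mo V) = ⊥ := by
  rw [eq_bot_iff]
  rintro f ⟨h1, h2⟩
  rw [Submodule.mem_bot]
  by_contra h0
  have h3 : mo.degree f ∈ W \ lead mo V :=
    (mem_restrictSupport_iff ℚ).1 h2 (by simpa using mo.degree_mem_support h0)
  exact h3.2 ⟨f, h1, h0, rfl⟩

lemma finrank_std {W : Set (σ →₀ ℕ)} (hW : W.Finite) {V : Submodule ℚ (MvPolynomial σ ℚ)}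
    (hV : V ≤ restrictSupport ℚ W) :
    Module.finrank ℚ (restrictSupport ℚ W) = Module.finrank ℚ V + (W \ lead mo V).ncard := by
  have i1 : FiniteDimensional ℚ (restrictSupport ℚ W) := by
    have := hW.to_subtype
    exact Module.Finite.of_basis (basisRestrictSupport ℚ W)
  have i2 : FiniteDimensional ℚ V := Submodule.finiteDimensional_of_le hV
  have i3 : FiniteDimensional ℚ (restrictSupport ℚ (W \ lead mo V)) :=
    Submodule.finiteDimensional_of_le (restrictSupport_mono ℚ Set.sdiff_subset)
  have h := Submodule.finrank_sup_add_finrank_inf_eq V (restrictSupport ℚ (W \ lead mo V))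
  rw [sup_std hV, inf_std, finrank_bot, add_zero] at h
  rw [h, Module.finrank_eq_nat_card_basis (basisRestrictSupport ℚ (W \ lead mo V)),
    Nat.card_coe_set_eq]

end

end Pool.Agent.R390.MZ
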