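import Mathlib
import Pool.Agent.R390.MZ.Std
import Pool.Agent.R390.MZ.Dick

set_option autoImplicit false

/-!
# The recurrence for large weights if the relations are generated in bounded weight
-/

open MvPolynomial

namespace Pool.Agent.R390.MZ

section

variable {σ : Type}

open Classical in
/-- the coefficient of the monomial `μ` in the variables outside `S` -/
noncomputable def cut (S : Set σ) (μ : σ →₀ ℕ) : MvPolynomial σ ℚ →ₗ[ℚ] MvPolynomial σ ℚ :=
  (basisMonomials σ ℚ).constr ℚ fun a =>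
    if a.filter (· ∉ S) = μ then monomial (a.filter (· ∈ S)) 1 else 0

open Classical in
lemma cut_monomial (S : Set σ) (μ a : σ →₀ ℕ) (c : ℚ) :
    cut S μ (monomial a c) =
      if a.filter (· ∉ S) = μ then monomial (a.filter (· ∈ S)) c else 0 := by
  have h1 : monomial a c = c • basisMonomials σ ℚ a := by
    rw [coe_basisMonomials, smul_monomial, smul_eq_mul, mul_one]
  rw [h1, map_smul, cut, Module.Basis.constr_basis]
  split_ifs
  · rw [smul_monomial, smul_eq_mul, mul_one]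
  · rw [smul_zero]

open Classical in
lemma filter_iff {S : Set σ} {μ a b : σ →₀ ℕ} (hμ : μ.filter (· ∈ S) = 0) :
    (a.filter (· ∉ S) = μ ∧ a.filter (· ∈ S) = b) ↔ (b.filter (· ∉ S) = 0 ∧ a = b + μ) := by
  constructor
  · rintro ⟨h1, h2⟩
    refine ⟨?_, ?_⟩
    · rw [← h2]
      ext s
      by_cases hs : s ∈ S <;> simp [Finsupp.filter_apply, hs]
    · rw [← h1, ← h2]
      exact (Finsupp.filter_add_filter_not a (· ∈ S)).symm
  · rintro ⟨h1, rfl⟩
    have e1 : μ.filter (· ∉ S) = μ := by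
      have := Finsupp.filter_add_filter_not μ (· ∈ S)
      rw [hμ, zero_add] at this
      exact this
    have e2 : b.filter (· ∈ S) = b := by
      have := Finsupp.filter_add_filter_not b (· ∈ S)
      rw [h1, add_zero] at this
      exact this
    rw [Finsupp.filter_add, Finsupp.filter_add, h1, e1, e2, hμ, zero_add, add_zero]
    exact ⟨rfl, rfl⟩

open Classical in
lemma coeff_cut {S : Set σ} {μ : σ →₀ ℕ} (hμ : μ.filter (· ∈ S) = 0) (f : MvPolynomial σ ℚ)
    (b : σ →₀ ℕ) : (cut S μ f).coeff b = if b.filter (· ∉ S) = 0 then f.coeff (b + μ) else 0 := by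
  induction f using MvPolynomial.induction_on' with
  | monomial a c =>
    rw [cut_monomial]
    have h := filter_iff (a := a) (b := b) hμ
    by_cases h1 : a.filter (· ∉ S) = μ
    · rw [if_pos h1]
      by_cases h2 : b.filter (· ∉ S) = 0
      · rw [if_pos h2, coeff_monomial, coeff_monomial]
        by_cases h3 : a.filter (· ∈ S) = b
        · rw [if_pos h3, if_pos (h.1 ⟨h1, h3⟩).2]
        · rw [if_neg h3, if_neg fun h4 => h3 (h.2 ⟨h2, h4⟩).2]
      · rw [if_neg h2, coeff_monomial, if_neg fun h3 => h2 (h.1 ⟨h1, h3⟩).1]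
    · rw [if_neg h1, coeff_zero]
      split_ifs with h2
      · rw [coeff_monomial, if_neg fun h4 => h1 (h.2 ⟨h2, h4⟩).1]
      · rfl
  | add p q hp hq =>
    rw [map_add, coeff_add, hp, hq, coeff_add]
    split_ifs <;> simp

open Classical in
lemma cut_mul_monomial {S : Set σ} (μ : σ →₀ ℕ) (r : MvPolynomial σ ℚ) {b : σ →₀ ℕ}
    (hb : b.filter (· ∉ S) = 0) (c : ℚ) :
    cut S μ (r * monomial b c) = cut S μ r * monomial b c := by
  have e2 : b.filter (· ∈ S) = b := by
    have := Finsupp.filter_add_filter_not b (· ∈ S)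
    rw [hb, add_zero] at this
    exact this
  induction r using MvPolynomial.induction_on' with
  | monomial a e =>
    rw [monomial_mul, cut_monomial, cut_monomial, Finsupp.filter_add, Finsupp.filter_add, hb, e2,
      add_zero]
    split_ifs
    · rw [monomial_mul]
    · rw [zero_mul]
  | add p q hp hq => rw [add_mul, map_add, hp, hq, map_add, add_mul]

open Classical in
lemma cut_mul {S : Set σ} (μ : σ →₀ ℕ) (r : MvPolynomial σ ℚ) {g : MvPolynomial σ ℚ}
    (hg : ∀ b ∈ g.support, b.filter (· ∉ S) = 0) : cut S μ (r * g) = cut S μ r * g := by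
  conv_lhs => rw [g.as_sum, Finset.mul_sum, map_sum]
  conv_rhs => rw [g.as_sum, Finset.mul_sum]
  exact Finset.sum_congr rfl fun b hb => cut_mul_monomial μ r (hg b hb) _

open Classical in
lemma cut_mem {S : Set σ} (μ : σ →₀ ℕ) {gens : Set (MvPolynomial σ ℚ)}
    (hg : ∀ g ∈ gens, ∀ b ∈ g.support, b.filter (· ∉ S) = 0) {f : MvPolynomial σ ℚ}
    (hf : f ∈ Ideal.span gens) : cut S μ f ∈ Ideal.span gens := by
  rw [Ideal.span, Submodule.mem_span_set] at hf
  obtain ⟨c, hc, rfl⟩ := hf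
  rw [Finsupp.sum, map_sum]
  refine Ideal.sum_mem _ fun g hgc => ?_
  rw [smul_eq_mul, cut_mul μ _ (hg g (hc hgc))]
  exact Ideal.mul_mem_left _ _ (Ideal.subset_span (hc hgc))

/-- the leading exponents of an ideal -/
def leadI (mo : MonomialOrder.{0, 0} σ) (P : Ideal (MvPolynomial σ ℚ)) : Set (σ →₀ ℕ) :=
  {u | ∃ f ∈ P, f ≠ 0 ∧ mo.degree f = u}

open Classical in
lemma filter_mem_leadI {mo : MonomialOrder.{0, 0} σ} {S : Set σ} {gens : Set (MvPolynomial σ ℚ)}
    (hg : ∀ g ∈ gens, ∀ b ∈ g.support, b.filter (· ∉ S) = 0) {u : σ →₀ ℕ}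
    (hu : u ∈ leadI mo (Ideal.span gens)) : u.filter (· ∈ S) ∈ leadI mo (Ideal.span gens) := by
  obtain ⟨f, hf, hf0, rfl⟩ := hu
  set μ := (mo.degree f).filter (· ∉ S) with hμ
  have h1 : μ.filter (· ∈ S) = 0 := by
    rw [hμ]
    ext s
    by_cases hs : s ∈ S <;> simp [Finsupp.filter_apply, hs]
  have h2 : ((mo.degree f).filter (· ∈ S)).filter (· ∉ S) = 0 := by
    ext s
    by_cases hs : s ∈ S <;> simp [Finsupp.filter_apply, hs]
  have h3 : (mo.degree f).filter (· ∈ S) + μ = mo.degree f :=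
    Finsupp.filter_add_filter_not _ _
  have h4 : (cut S μ f).coeff ((mo.degree f).filter (· ∈ S)) ≠ 0 := by
    rw [coeff_cut h1, if_pos h2, h3]
    exact mo.coeff_degree_ne_zero_iff.2 hf0
  have h5 : cut S μ f ≠ 0 := fun h => h4 (by rw [h, coeff_zero])
  refine ⟨cut S μ f, cut_mem μ hg hf, h5, ?_⟩
  apply mo.toSyn.injective
  refine le_antisymm ?_ (mo.le_degree (mem_support_iff.2 h4))
  have h6 := mo.degree_mem_support h5
  rw [mem_support_iff, coeff_cut h1] at h6
  split_ifs at h6 with h7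
  · have h8 := mo.le_degree (mem_support_iff.2 h6)
    rw [map_add] at h8
    have h9 : mo.toSyn (mo.degree f) = mo.toSyn ((mo.degree f).filter (· ∈ S)) + mo.toSyn μ := by
      rw [← map_add, h3]
    rw [h9] at h8
    exact le_of_add_le_add_right h8
  · exact absurd rfl h6

lemma add_mem_leadI {mo : MonomialOrder.{0, 0} σ} {P : Ideal (MvPolynomial σ ℚ)} {u : σ →₀ ℕ}
    (hu : u ∈ leadI mo P) {m : σ →₀ ℕ} (hm : u ≤ m) : m ∈ leadI mo P := by
  classical
  obtain ⟨f, hf, hf0, rfl⟩ := hu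
  have h1 : (monomial (m - mo.degree f) (1 : ℚ)) ≠ 0 := by
    rw [Ne, monomial_eq_zero]
    exact one_ne_zero
  refine ⟨f * monomial (m - mo.degree f) 1, P.mul_mem_right _ hf, mul_ne_zero hf0 h1, ?_⟩
  rw [mo.degree_mul hf0 h1, mo.degree_monomial, if_neg one_ne_zero, add_tsub_cancel_of_le hm]

end

section

variable {σ : Type} {wt : σ → ℕ} {x : σ → ℝ} {Z : ℕ → Submodule ℚ ℝ} {d : ℕ → ℕ}

lemma mem_lead_pt {mo : MonomialOrder.{0, 0} σ} {k : ℕ} {m : σ →₀ ℕ}
    (hm : Finsupp.weight wt m = k) :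
    m ∈ lead mo (pt (H wt) (Ph wt x) k) ↔ m ∈ leadI mo (Ph wt x) := by
  constructor
  · rintro ⟨f, hf, hf0, hfm⟩
    exact ⟨f, (mem_pt.1 hf).2, hf0, hfm⟩
  · rintro ⟨f, hf, hf0, hfm⟩
    have h1 : ∀ b, ((T wt f).coeff k).coeff b = if Finsupp.weight wt b = k then f.coeff b else 0 :=
      coeff_T f k
    have h2 : ((T wt f).coeff k).coeff m ≠ 0 := by
      rw [h1, if_pos hm, ← hfm]
      exact mo.coeff_degree_ne_zero_iff.2 hf0
    have h3 : (T wt f).coeff k ≠ 0 := fun h => h2 (by rw [h, coeff_zero])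
    refine ⟨(T wt f).coeff k, mem_pt.2 ⟨coeff_T_mem_H f k, coeff_T_mem_Ph hf k⟩, h3, ?_⟩
    apply mo.toSyn.injective
    refine le_antisymm ?_ (mo.le_degree (mem_support_iff.2 h2))
    have h6 := mo.degree_mem_support h3
    rw [mem_support_iff, h1] at h6
    split_ifs at h6 with h7
    · have h8 := mo.le_degree (mem_support_iff.2 h6)
      rwa [hfm] at h8
    · exact absurd rfl h6

/-- the homogeneous relations of weight at most `N` -/
def relsLe (wt : σ → ℕ) (x : σ → ℝ) (N : ℕ) : Set (MvPolynomial σ ℚ) :=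
  {f | ∃ k ≤ N, IsWeightedHomogeneous wt f k ∧ aeval x f = 0}

lemma homog_iff {f : MvPolynomial σ ℚ} {k : ℕ} : IsWeightedHomogeneous wt f k ↔ f ∈ H wt k := by
  rw [H, mem_A]
  exact ⟨fun h m hm => h hm, fun h m hm => h m hm⟩

/-- the Hilbert function counts the monomials that avoid a finite set -/
theorem exists_avoid (hd : ∀ k, {m : σ →₀ ℕ | Finsupp.weight wt m = k}.encard = d k)
    (hZ : ∀ k, Z k = Submodule.span ℚ {y : ℝ | ∃ m : σ →₀ ℕ, Finsupp.weight wt m = k ∧
      y = m.prod fun s e => x s ^ e}) {N : ℕ} (hN : Ph wt x = Ideal.span (relsLe wt x N)) :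
    ∃ G : Finset (σ →₀ ℕ), ∀ k,
      Module.finrank ℚ (Z k) = (avoid wt (G : Set (σ →₀ ℕ)) k).ncard := by
  classical
  obtain ⟨mo⟩ := exists_monomialOrder σ
  obtain ⟨S, hS⟩ : ∃ S : Set σ, ∀ s, s ∈ S ↔ wt s ≤ N := ⟨{s | wt s ≤ N}, fun s => Iff.rfl⟩
  have hSfin : S.Finite := by
    have h1 := finite_le hd N
    have h2 : Set.InjOn (fun s : σ => Finsupp.single s 1) S := fun a _ b _ hab =>
      Finsupp.single_left_injective one_ne_zero hab
    refine Set.Finite.of_finite_image (h1.subset ?_) h2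
    rintro _ ⟨s, hs, rfl⟩
    show Finsupp.weight wt (Finsupp.single s 1) ≤ N
    rw [Finsupp.weight_single, one_smul]
    exact (hS s).1 hs
  have hgens : ∀ g ∈ relsLe wt x N, ∀ b ∈ g.support, b.filter (· ∉ S) = 0 := by
    rintro g ⟨k, hk, hg, -⟩ b hb
    ext s
    by_cases hs : s ∈ S
    · simp [Finsupp.filter_apply, hs]
    · rw [Finsupp.filter_apply, if_pos hs, Finsupp.zero_apply]
      by_contra hc
      have h1 : Finsupp.weight wt b = k := hg (by simpa using hb)
      have h2 : wt s ≤ Finsupp.weight wt b := Finsupp.le_weight_of_ne_zero' wt hc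
      exact hs ((hS s).2 (by omega))
  set U := leadI mo (Ph wt x) with hU
  obtain ⟨G, hG1, hG2⟩ := dickson S hSfin {u | u ∈ U ∧ ∀ s ∈ u.support, s ∈ S}
    (fun u hu => hu.2)
  refine ⟨G, fun k => ?_⟩
  have hfinW : {m : σ →₀ ℕ | Finsupp.weight wt m = k}.Finite := Set.finite_of_encard_eq_coe (hd k)
  have hle : pt (H wt) (Ph wt x) k ≤ restrictSupport ℚ {m : σ →₀ ℕ | Finsupp.weight wt m = k} := by
    intro f hf
    have h1 := (mem_pt.1 hf).1
    rw [mem_restrictSupport_iff]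
    intro m hm
    rw [H, mem_A] at h1
    exact h1 m (by simpa using hm)
  have h1 := finrank_std (mo := mo) hfinW hle
  have hHk : restrictSupport ℚ {m : σ →₀ ℕ | Finsupp.weight wt m = k} = H wt k := by
    rw [H, A]
    rfl
  have h2 := finrank_H hd
  have hfinH := finite_H hd
  have h3 := finrank_map_add h2 (aeval (R := ℚ) x).toLinearMap (P := Ph wt x) (k := k)
    (fun f hf => mem_Ph_of_mem_H hf)
  rw [← Z_eq hZ] at h3
  rw [hHk, h2 k] at h1
  have h4 : {m : σ →₀ ℕ | Finsupp.weight wt m = k} \ lead mo (pt (H wt) (Ph wt x) k) =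
      avoid wt (G : Set (σ →₀ ℕ)) k := by
    ext m
    constructor
    · rintro ⟨hm1, hm2⟩
      refine ⟨hm1, fun g hg hgm => hm2 ?_⟩
      rw [mem_lead_pt hm1]
      exact add_mem_leadI (hG1 hg).1 hgm
    · rintro ⟨hm1, hm2⟩
      refine ⟨hm1, fun hc => ?_⟩
      rw [mem_lead_pt hm1, hN] at hc
      have h5 := filter_mem_leadI hgens hc
      rw [← hN] at h5
      obtain ⟨g, hg, hgm⟩ := hG2 (m.filter (· ∈ S)) ⟨h5, fun s hs => by
        rw [Finsupp.support_filter, Finset.mem_filter] at hs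
        exact hs.2⟩
      refine hm2 g hg (hgm.trans ?_)
      intro s
      rw [Finsupp.filter_apply]
      split_ifs
      · exact le_rfl
      · exact Nat.zero_le _
  rw [← h4]
  omega

open PowerSeries in
lemma dz_series : (1 - PowerSeries.X ^ 2 - PowerSeries.X ^ 3 : PowerSeries ℤ) *
    PowerSeries.mk (fun k => (dz k : ℤ)) = 1 := by
  ext k
  rw [sub_mul, sub_mul, one_mul, map_sub, map_sub, PowerSeries.coeff_X_pow_mul',
    PowerSeries.coeff_X_pow_mul', coeff_mk, coeff_mk, coeff_mk, PowerSeries.coeff_one]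
  match k with
  | 0 => simp [dz]
  | 1 => simp [dz]
  | 2 => simp [dz]
  | k + 3 =>
    rw [if_pos (by omega), if_pos (by omega), if_neg (by omega), dz,
      show k + 3 - 2 = k + 1 by omega, show k + 3 - 3 = k by omega]
    push_cast
    ring

open PowerSeries in
/-- **The recurrence.** -/
theorem rational_of_bounded (hd : ∀ k, {m : σ →₀ ℕ | Finsupp.weight wt m = k}.encard = dz k)
    (hZ : ∀ k, Z k = Submodule.span ℚ {y : ℝ | ∃ m : σ →₀ ℕ, Finsupp.weight wt m = k ∧
      y = m.prod fun s e => x s ^ e}) {N : ℕ} (hN : Ph wt x = Ideal.span (relsLe wt x N)) :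
    ∃ K : Polynomial ℤ, (1 - PowerSeries.X ^ 2 - PowerSeries.X ^ 3 : PowerSeries ℤ) *
      PowerSeries.mk (fun k => (Module.finrank ℚ (Z k) : ℤ)) = (K : PowerSeries ℤ) := by
  obtain ⟨G, hG⟩ := exists_avoid hd hZ hN
  obtain ⟨K, hK⟩ := exists_poly (fun k => Set.finite_of_encard_eq_coe (hd k)) G.card G le_rfl
  refine ⟨K, ?_⟩
  simp only [hG]
  rw [hK]
  have h1 : (fun k => (({m : σ →₀ ℕ | Finsupp.weight wt m = k}).ncard : ℤ)) =
      fun k => (dz k : ℤ) := by
    funext k
    rw [Set.ncard_def, hd k, ENat.toNat_natCast]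
  rw [h1, mul_left_comm, dz_series, mul_one]

lemma relsLe_subset (N : ℕ) : Ideal.span (relsLe wt x N) ≤ Ph wt x := by
  rw [Ideal.span_le]
  rintro f ⟨k, -, hf, hx⟩
  exact (mem_Ph_of_mem_H (homog_iff.1 hf)).2 hx

/-- if the relations of weight at most `N` do not generate, there is a new relation in a larger
weight -/
lemma exists_new {N : ℕ} (hN : Ph wt x ≠ Ideal.span (relsLe wt x N)) :
    ∃ k, N < k ∧ ∃ f, IsWeightedHomogeneous wt f k ∧ aeval x f = 0 ∧
      f ∉ Ideal.span {g : MvPolynomial σ ℚ | ∃ j < k, IsWeightedHomogeneous wt g j ∧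
        aeval x g = 0} := by
  classical
  have h1 : ∃ k, ∃ f, IsWeightedHomogeneous wt f k ∧ aeval x f = 0 ∧
      f ∉ Ideal.span (relsLe wt x N) := by
    by_contra hc
    push Not at hc
    refine hN (le_antisymm (fun f hf => ?_) (relsLe_subset N))
    rw [eq_sum_coeff_T (wt := wt) f]
    exact Ideal.sum_mem _ fun j _ =>
      hc j _ (homog_iff.2 (coeff_T_mem_H f j)) (mem_Ph.1 hf j)
  obtain ⟨f, hf, hx, hfn⟩ := Nat.find_spec h1
  refine ⟨Nat.find h1, ?_, f, hf, hx, fun hc => hfn ?_⟩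
  · by_contra hk
    exact hfn (Ideal.subset_span ⟨Nat.find h1, by omega, hf, hx⟩)
  · refine Ideal.span_le.2 ?_ hc
    rintro g ⟨j, hj, hg, hgx⟩
    by_contra hgn
    exact Nat.find_min h1 hj ⟨g, hg, hgx, hgn⟩

open PowerSeries in
lemma recurrence_of_poly {z : ℕ → ℤ} {K : Polynomial ℤ}
    (h : (1 - PowerSeries.X ^ 2 - PowerSeries.X ^ 3 : PowerSeries ℤ) * PowerSeries.mk z =
      (K : PowerSeries ℤ)) : ∃ k0, ∀ k, k0 ≤ k → z k = z (k - 2) + z (k - 3) := by
  refine ⟨K.natDegree + 3, fun k hk => ?_⟩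
  have h1 := congrArg (PowerSeries.coeff k) h
  rw [sub_mul, sub_mul, one_mul, map_sub, map_sub, PowerSeries.coeff_X_pow_mul',
    PowerSeries.coeff_X_pow_mul', coeff_mk, coeff_mk, coeff_mk, if_pos (by omega),
    if_pos (by omega), Polynomial.coeff_coe,
    Polynomial.coeff_eq_zero_of_natDegree_lt (by omega)] at h1
  linarith

/-- **Either the recurrence or infinitely many new relations.** -/
theorem dichotomy (hd : ∀ k, {m : σ →₀ ℕ | Finsupp.weight wt m = k}.encard = dz k)
    (hZ : ∀ k, Z k = Submodule.span ℚ {y : ℝ | ∃ m : σ →₀ ℕ, Finsupp.weight wt m = k ∧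
      y = m.prod fun s e => x s ^ e}) :
    (∃ K : Polynomial ℤ, (1 - PowerSeries.X ^ 2 - PowerSeries.X ^ 3 : PowerSeries ℤ) *
      PowerSeries.mk (fun k => (Module.finrank ℚ (Z k) : ℤ)) = (K : PowerSeries ℤ)) ∨
    ∀ N, ∃ k, N < k ∧ ∃ f, IsWeightedHomogeneous wt f k ∧ aeval x f = 0 ∧
      f ∉ Ideal.span {g : MvPolynomial σ ℚ | ∃ j < k, IsWeightedHomogeneous wt g j ∧
        aeval x g = 0} := by
  by_cases h : ∃ N, Ph wt x = Ideal.span (relsLe wt x N)
  · obtain ⟨N, hN⟩ := h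
    exact Or.inl (rational_of_bounded hd hZ hN)
  · push Not at h
    exact Or.inr fun N => exists_new (h N)

end

end Pool.Agent.R390.MZ
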