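import Mathlib
import Pool.Agent.R390.MZ.BKDefs
import Pool.Agent.R390.MZ.Rec
import Pool.Agent.R390.MZ.Padic

set_option autoImplicit false

/-!
# The Broadhurst-Kreimer formula in infinitely many weights
-/

open MvPolynomial

namespace Pool.Agent.R390.MZ

section

variable {V : Type} [AddCommGroup V] [Module ℚ V]

lemma sum_grD (v : List ℕ → V) (k N : ℕ) :
    ∑ r ∈ Finset.range (N + 1), grD v r k = Module.finrank ℚ (FilD v N k) := by
  induction N with
  | zero => simp [grD]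
  | succ N ih =>
    rw [Finset.sum_range_succ, ih, grD]
    ring

lemma Ind_top {N k : ℕ} (h : k ≤ N) : Ind N k = Ind k k := by
  ext l
  constructor
  · rintro ⟨h1, h2, h3, -⟩
    refine ⟨h1, h2, h3, ?_⟩
    rw [← h3]
    exact List.length_le_sum_of_one_le l h1
  · rintro ⟨h1, h2, h3, h4⟩
    exact ⟨h1, h2, h3, h4.trans h⟩

lemma FilD_zt (k : ℕ) : FilD zt k k = ZL k := by
  rw [FilD, ZL]
  congr 1
  ext y
  constructor
  · rintro ⟨l, ⟨h1, h2, h3, -⟩, rfl⟩
    exact ⟨l, h1, h2, h3, rfl⟩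
  · rintro ⟨l, h1, h2, h3, rfl⟩
    refine ⟨l, ⟨h1, h2, h3, ?_⟩, rfl⟩
    rw [← h3]
    exact List.length_le_sum_of_one_le l h1

end

open PowerSeries in
/-- the Broadhurst-Kreimer series at `Y = 1` -/
lemma BK_one {F : PowerSeries (Polynomial ℤ)} (hF : IsBK F) (k : ℕ) :
    (PowerSeries.coeff k F).eval 1 = dz k := by
  have h1 := congrArg (PowerSeries.map (Polynomial.evalRingHom (1 : ℤ))) hF
  simp only [map_mul, map_sub, map_add, map_pow, map_one, PowerSeries.map_X, PowerSeries.map_C,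
    Polynomial.coe_evalRingHom, Polynomial.eval_X, one_pow, mul_one, sub_self, mul_zero,
    add_zero] at h1
  have h2 : (1 - PowerSeries.X ^ 4 : PowerSeries ℤ) * (1 - PowerSeries.X ^ 6) ≠ 0 := by
    intro h
    have := congrArg (PowerSeries.coeff 0) h
    simp at this
  have h3 := dz_series
  have h4 : PowerSeries.map (Polynomial.evalRingHom (1 : ℤ)) F =
      PowerSeries.mk (fun k => (dz k : ℤ)) := by
    have h5 : (1 - PowerSeries.X ^ 4 : PowerSeries ℤ) * (1 - PowerSeries.X ^ 6) *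
        (PowerSeries.map (Polynomial.evalRingHom (1 : ℤ)) F * (1 - PowerSeries.X ^ 2 - PowerSeries.X ^ 3)) =
        (1 - PowerSeries.X ^ 4 : PowerSeries ℤ) * (1 - PowerSeries.X ^ 6) * 1 := by
      linear_combination h1
    have h6 := mul_left_cancel₀ h2 h5
    calc PowerSeries.map (Polynomial.evalRingHom (1 : ℤ)) F
        = PowerSeries.map (Polynomial.evalRingHom (1 : ℤ)) F *
          ((1 - PowerSeries.X ^ 2 - PowerSeries.X ^ 3) * PowerSeries.mk (fun k => (dz k : ℤ))) := by rw [h3, mul_one]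
      _ = PowerSeries.mk (fun k => (dz k : ℤ)) := by rw [← mul_assoc, h6, one_mul]
  have h5 := congrArg (PowerSeries.coeff k) h4
  rw [PowerSeries.coeff_map, coeff_mk] at h5
  exact h5

lemma dim_of_BKat {F : PowerSeries (Polynomial ℤ)} (hF : IsBK F) {k : ℕ} (h : BKat F zt k) :
    Module.finrank ℚ (ZL k) = dz k := by
  set N := max k (PowerSeries.coeff k F).natDegree with hN
  have h1 := sum_grD zt k N
  have h2 : FilD zt N k = ZL k := by
    rw [FilD, Ind_top (le_max_left _ _), ← FilD, FilD_zt]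
  rw [h2] at h1
  have h3 := BK_one hF k
  rw [Polynomial.eval_eq_sum_range' (n := N + 1) (by
    have := le_max_right k (PowerSeries.coeff k F).natDegree
    omega)] at h3
  simp only [one_pow, mul_one] at h3
  rw [Finset.sum_congr rfl fun r _ => h r, h3] at h1
  exact_mod_cast h1.symm

section

variable {σ : Type} {wt : σ → ℕ} {x : σ → ℝ}

/-- if the dimension is right in infinitely many weights, there are no homogeneous relations -/
lemma Ph_bot_of_inf (hd : ∀ k, {m : σ →₀ ℕ | Finsupp.weight wt m = k}.encard = dz k)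
    (hZ : ∀ k, ZL k = Submodule.span ℚ {y : ℝ | ∃ m : σ →₀ ℕ, Finsupp.weight wt m = k ∧
      y = m.prod fun s e => x s ^ e}) (h : ∀ N, ∃ k, N < k ∧ Module.finrank ℚ (ZL k) = dz k) :
    Ph wt x = ⊥ := by
  rcases tri_hom rfl hd hZ with
    ⟨hP, -⟩ | ⟨f, n, hf, -, he, -, h1⟩ | ⟨f, n, g, m, hnm, hf, -, he, hg, -, he', -, -, h1⟩
  · exact hP
  · exfalso
    obtain ⟨k, hk, hk2⟩ := h (n + 1)
    have := h1 k
    have := sh_pos (n := n) (k := k) (by omega)
    omega
  · exfalso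
    obtain ⟨k, hk, hk2⟩ := h (n + 1)
    have := (h1 k).1
    have := sh_pos (n := n) (k := k) (by omega)
    omega

lemma aeval_injOn (hP : Ph wt x = ⊥) {k : ℕ} {f : MvPolynomial σ ℚ} (hf : f ∈ H wt k)
    (h0 : aeval x f = 0) : f = 0 := by
  have := (mem_Ph_of_mem_H hf).2 h0
  rw [hP] at this
  simpa using this

lemma FilD_le {mot : List ℕ → MvPolynomial σ ℚ}
    (hm : ∀ l : List ℕ, (∀ a ∈ l, 1 ≤ a) → (∀ a ∈ l.head?, 2 ≤ a) →
      IsWeightedHomogeneous wt (mot l) l.sum ∧ aeval x (mot l) = zt l) (r k : ℕ) :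
    FilD mot r k ≤ H wt k := by
  rw [FilD, Submodule.span_le]
  rintro _ ⟨l, ⟨h1, h2, h3, -⟩, rfl⟩
  have := homog_iff.1 (hm l h1 h2).1
  rwa [h3] at this

lemma finrank_FilD (hd : ∀ k, {m : σ →₀ ℕ | Finsupp.weight wt m = k}.encard = dz k)
    (hP : Ph wt x = ⊥) {mot : List ℕ → MvPolynomial σ ℚ}
    (hm : ∀ l : List ℕ, (∀ a ∈ l, 1 ≤ a) → (∀ a ∈ l.head?, 2 ≤ a) →
      IsWeightedHomogeneous wt (mot l) l.sum ∧ aeval x (mot l) = zt l) (r k : ℕ) :
    Module.finrank ℚ (FilD zt r k) = Module.finrank ℚ (FilD mot r k) := by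
  have i1 := finite_H hd k
  have i2 : FiniteDimensional ℚ (FilD mot r k) :=
    Submodule.finiteDimensional_of_le (FilD_le hm r k)
  have h1 : (FilD mot r k).map (aeval (R := ℚ) x).toLinearMap = FilD zt r k := by
    rw [FilD, Submodule.map_span, FilD, ← Set.image_comp]
    congr 1
    refine Set.image_congr fun l hl => ?_
    exact (hm l hl.1 hl.2.1).2
  have h2 := rank_nullity (FilD mot r k) (aeval (R := ℚ) x).toLinearMap
  have h3 : FilD mot r k ⊓ LinearMap.ker (aeval (R := ℚ) x).toLinearMap = ⊥ := by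
    rw [eq_bot_iff]
    rintro f ⟨hf1, hf2⟩
    rw [Submodule.mem_bot]
    exact aeval_injOn hP (FilD_le hm r k hf1) hf2
  rw [h1, h3, finrank_bot, add_zero] at h2
  exact h2

/-- **The Broadhurst-Kreimer formula in infinitely many weights.** -/
theorem BK_inf (hB : Gens ZL dz wt x) {mot : List ℕ → MvPolynomial σ ℚ}
    (hm : ∀ l : List ℕ, (∀ a ∈ l, 1 ≤ a) → (∀ a ∈ l.head?, 2 ≤ a) →
      IsWeightedHomogeneous wt (mot l) l.sum ∧ aeval x (mot l) = zt l)
    {F : PowerSeries (Polynomial ℤ)} (hF : IsBK F) (h : ∀ N, ∃ k, N < k ∧ BKat F zt k) :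
    (∀ k, Module.finrank ℚ (ZL k) = dz k) ∧
    (∀ r k, Module.finrank ℚ (FilD zt r k) = Module.finrank ℚ (FilD mot r k)) ∧
    ∀ k, BKat F zt k ↔ BKat F mot k := by
  obtain ⟨hd, hZ⟩ := hB
  have hP : Ph wt x = ⊥ := Ph_bot_of_inf hd hZ fun N => by
    obtain ⟨k, hk, hk2⟩ := h N
    exact ⟨k, hk, dim_of_BKat hF hk2⟩
  have h1 := finrank_FilD hd hP hm
  refine ⟨Ph_bot_dims hd hZ hP, h1, fun k => ?_⟩
  have h2 : ∀ r, grD zt r k = grD mot r k := by
    intro r
    cases r with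
    | zero => rw [grD, grD, h1]
    | succ r => rw [grD, grD, h1, h1]
  exact forall_congr' fun r => by rw [h2]

end

end Pool.Agent.R390.MZ
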