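import Mathlib
import Pool.Agent.R390.MZ.Core

set_option autoImplicit false

/-!
# Prime ideals and subspaces with two indices
-/

namespace Pool.Agent.R390.MZ

variable {R : Type*} [CommRing R] [IsDomain R] [Algebra ℚ R]

/-- the nonzero element `f` has degrees exactly `n`, `e` with respect to the family `F` -/
def Exact2 (F : ℕ → ℕ → Submodule ℚ R) (f : R) (n e : ℕ) : Prop :=
  f ≠ 0 ∧ f ∈ F n e ∧ ∀ j i g, g ≠ 0 → f * g ∈ F j i → n ≤ j ∧ e ≤ i ∧ g ∈ F (j - n) (i - e)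

/-- the part of an ideal in `F k d` -/
def pt2 (F : ℕ → ℕ → Submodule ℚ R) (I : Ideal R) (k d : ℕ) : Submodule ℚ R :=
  F k d ⊓ I.restrictScalars ℚ

/-- `D (k - n) (d - e)`, or `0` if `k < n` or `d < e` -/
def shD (D : ℕ → ℕ → ℕ) (n e k d : ℕ) : ℕ := if n ≤ k ∧ e ≤ d then D (k - n) (d - e) else 0

omit [IsDomain R] in
lemma mem_pt2 {F : ℕ → ℕ → Submodule ℚ R} {I : Ideal R} {k d : ℕ} {x : R} :
    x ∈ pt2 F I k d ↔ x ∈ F k d ∧ x ∈ I := by
  simp [pt2]

lemma Exact2.mul {F : ℕ → ℕ → Submodule ℚ R}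
    (hmul : ∀ a b c d, ∀ x ∈ F a b, ∀ y ∈ F c d, x * y ∈ F (a + c) (b + d))
    {f g : R} {n e m l : ℕ} (hf : Exact2 F f n e) (hg : Exact2 F g m l) :
    Exact2 F (f * g) (n + m) (e + l) := by
  refine ⟨mul_ne_zero hf.1 hg.1, hmul _ _ _ _ _ hf.2.1 _ hg.2.1, fun j i h hh hj => ?_⟩
  rw [mul_assoc] at hj
  obtain ⟨h1, h1', h2⟩ := hf.2.2 j i (g * h) (mul_ne_zero hg.1 hh) hj
  obtain ⟨h3, h3', h4⟩ := hg.2.2 (j - n) (i - e) h hh h2
  refine ⟨by omega, by omega, ?_⟩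
  rwa [show j - (n + m) = j - n - m by omega, show i - (e + l) = i - e - l by omega]

lemma finrank_pt2_span {F : ℕ → ℕ → Submodule ℚ R}
    (hmul : ∀ a b c d, ∀ x ∈ F a b, ∀ y ∈ F c d, x * y ∈ F (a + c) (b + d))
    {D : ℕ → ℕ → ℕ} (hD : ∀ k d, Module.finrank ℚ (F k d) = D k d)
    {f : R} {n e : ℕ} (hf : Exact2 F f n e) (k d : ℕ) :
    Module.finrank ℚ (pt2 F (Ideal.span {f}) k d) = shD D n e k d := by
  unfold shD
  split_ifs with hk
  · have e1 : pt2 F (Ideal.span {f}) k d = (F (k - n) (d - e)).map (LinearMap.mulLeft ℚ f) := by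
      ext x
      rw [mem_pt2, Ideal.mem_span_singleton', Submodule.mem_map]
      constructor
      · rintro ⟨h1, a, rfl⟩
        by_cases ha : a = 0
        · exact ⟨0, zero_mem _, by simp [ha]⟩
        · rw [mul_comm] at h1
          exact ⟨a, (hf.2.2 k d a ha h1).2.2, by simp [mul_comm]⟩
      · rintro ⟨a, ha, rfl⟩
        refine ⟨?_, a, by simp [mul_comm]⟩
        have := hmul _ _ _ _ _ hf.2.1 _ ha
        rwa [show n + (k - n) = k by omega, show e + (d - e) = d by omega] at this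
    rw [e1, ← hD (k - n) (d - e)]
    have hi : Function.Injective (LinearMap.mulLeft ℚ f) :=
      fun a b hab => mul_left_cancel₀ hf.1 (by simpa using hab)
    exact (Submodule.equivMapOfInjective _ hi _).finrank_eq.symm
  · have e1 : pt2 F (Ideal.span {f}) k d = ⊥ := by
      rw [eq_bot_iff]
      intro x hx
      rw [mem_pt2, Ideal.mem_span_singleton'] at hx
      obtain ⟨h1, a, rfl⟩ := hx
      by_cases ha : a = 0
      · simp [ha]
      · rw [mul_comm] at h1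
        have := hf.2.2 k d a ha h1
        exact absurd ⟨this.1, this.2.1⟩ hk
    rw [e1, finrank_bot]

lemma finrank_pt2_ge {F : ℕ → ℕ → Submodule ℚ R} [∀ k d, FiniteDimensional ℚ (F k d)]
    (hmul : ∀ a b c d, ∀ x ∈ F a b, ∀ y ∈ F c d, x * y ∈ F (a + c) (b + d))
    {D : ℕ → ℕ → ℕ} (hD : ∀ k d, Module.finrank ℚ (F k d) = D k d)
    {f : R} {n e : ℕ} (hf : Exact2 F f n e) {P : Ideal R} (hP : f ∈ P) (k d : ℕ) :
    shD D n e k d ≤ Module.finrank ℚ (pt2 F P k d) := by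
  rw [← finrank_pt2_span hmul hD hf k d]
  have : FiniteDimensional ℚ (pt2 F P k d) :=
    Submodule.finiteDimensional_of_le (S₂ := F k d) inf_le_left
  refine Submodule.finrank_mono ?_
  intro x hx
  rw [mem_pt2] at hx ⊢
  exact ⟨hx.1, (Ideal.span_singleton_le_iff_mem P).2 hP hx.2⟩

lemma finrank_pt2_ge_two {F : ℕ → ℕ → Submodule ℚ R} [∀ k d, FiniteDimensional ℚ (F k d)]
    (hmul : ∀ a b c d, ∀ x ∈ F a b, ∀ y ∈ F c d, x * y ∈ F (a + c) (b + d))
    {D : ℕ → ℕ → ℕ} (hD : ∀ k d, Module.finrank ℚ (F k d) = D k d)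
    {f g : R} {n e m l : ℕ} (hf : Exact2 F f n e) (hg : Exact2 F g m l) (hfp : Prime f)
    (hfg : ¬ f ∣ g) {P : Ideal R} (hP : f ∈ P) (hQ : g ∈ P) (k d : ℕ) :
    shD D n e k d + shD D m l k d ≤
      Module.finrank ℚ (pt2 F P k d) + shD D (n + m) (e + l) k d := by
  rw [← finrank_pt2_span hmul hD hf k d, ← finrank_pt2_span hmul hD hg k d,
    ← finrank_pt2_span hmul hD (hf.mul hmul hg) k d]
  have i0 : FiniteDimensional ℚ (pt2 F P k d) :=
    Submodule.finiteDimensional_of_le (S₂ := F k d) inf_le_left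
  have i1 : FiniteDimensional ℚ (pt2 F (Ideal.span {f}) k d) :=
    Submodule.finiteDimensional_of_le (S₂ := F k d) inf_le_left
  have i2 : FiniteDimensional ℚ (pt2 F (Ideal.span {g}) k d) :=
    Submodule.finiteDimensional_of_le (S₂ := F k d) inf_le_left
  rw [← Submodule.finrank_sup_add_finrank_inf_eq]
  refine add_le_add (Submodule.finrank_mono ?_) (le_of_eq ?_)
  · refine sup_le ?_ ?_
    · intro x hx
      rw [mem_pt2] at hx ⊢
      exact ⟨hx.1, (Ideal.span_singleton_le_iff_mem P).2 hP hx.2⟩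
    · intro x hx
      rw [mem_pt2] at hx ⊢
      exact ⟨hx.1, (Ideal.span_singleton_le_iff_mem P).2 hQ hx.2⟩
  · have e : pt2 F (Ideal.span {f}) k d ⊓ pt2 F (Ideal.span {g}) k d =
        pt2 F (Ideal.span {f * g}) k d := ?_
    · rw [e]
    ext x
    rw [Submodule.mem_inf, mem_pt2, mem_pt2, mem_pt2, Ideal.mem_span_singleton,
      Ideal.mem_span_singleton, Ideal.mem_span_singleton]
    constructor
    · rintro ⟨⟨h1, h2⟩, -, c, hc⟩
      refine ⟨h1, ?_⟩
      rw [hc] at h2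
      obtain ⟨e, rfl⟩ := (hfp.dvd_or_dvd h2).resolve_left hfg
      exact ⟨e, by rw [hc]; ring⟩
    · rintro ⟨h1, h2⟩
      exact ⟨⟨h1, dvd_of_mul_right_dvd h2⟩, h1, dvd_of_mul_left_dvd h2⟩

end Pool.Agent.R390.MZ
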