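import Mathlib
import Pool.Agent.H447R2.MZ.Tup

set_option autoImplicit false

/-!
# The width of relations between the weight spaces
-/

namespace Pool.Agent.R390.MZ

open Pool.Agent.H447R2.MZ

lemma finite_Zs (n : ℕ) : FiniteDimensional ℚ (Zs n) := by
  rw [Zs_eq]
  refine FiniteDimensional.span_of_finite ℚ ?_
  have h1 : {x : ℝ | ∃ s : List ℕ, Adm s ∧ s.sum = n ∧ x = val s} ⊆
      Set.range (fun c : Composition n => val c.blocks) := by
    rintro x ⟨s, hs, hn, rfl⟩
    exact ⟨⟨s, fun {i} hi => hs.1 i hi, hn⟩, rfl⟩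
  exact (Set.finite_range _).subset h1

lemma Zs_ne_bot' {k : ℕ} (hk : k ≠ 1) : Zs k ≠ ⊥ := by
  intro h
  rcases Nat.lt_or_ge k 2 with h1 | h1
  · have : k = 0 := by omega
    subst this
    have := one_mem
    rw [h, Submodule.mem_bot] at this
    exact one_ne_zero this
  · have h2 := zeta_mem k h1
    rw [h, Submodule.mem_bot] at h2
    exact (zeta_pos k h1).ne' h2

/-- `near D M` is the set of the weights `j` with `M - D ≤ j < M` -/
def near (D M : ℕ) : Set ℕ := {j | j < M ∧ M ≤ j + D}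

section

variable {Z : ℕ → Submodule ℚ ℝ}

lemma indep_of_disjoint (h : ∀ D M, Z M ⊓ ⨆ j ∈ near D M, Z j = ⊥) : iSupIndep Z := by
  rw [iSupIndep_iff_finsetSum_eq_zero_imp_eq_zero]
  intro s v hv hs
  by_contra hc
  push Not at hc
  obtain ⟨i, hi, hvi⟩ := hc
  set t := s.filter (fun i => v i ≠ 0) with ht
  have hne : t.Nonempty := ⟨i, by rw [ht, Finset.mem_filter]; exact ⟨hi, hvi⟩⟩
  set M := t.max' hne with hM
  have hMt : M ∈ t := t.max'_mem hne
  have hMs : M ∈ s := (Finset.mem_filter.1 hMt).1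
  have hMv : v M ≠ 0 := (Finset.mem_filter.1 hMt).2
  have h1 : v M = -∑ j ∈ s.erase M, v j := by
    rw [← Finset.add_sum_erase s v hMs] at hs
    linarith
  have h2 : v M ∈ Z M ⊓ ⨆ j ∈ near M M, Z j := by
    refine ⟨hv M hMs, ?_⟩
    rw [h1]
    refine Submodule.neg_mem _ (Submodule.sum_mem _ fun j hj => ?_)
    rw [Finset.mem_erase] at hj
    by_cases h0 : v j = 0
    · rw [h0]
      exact zero_mem _
    · have h3 : j ≤ M := t.le_max' j (by rw [ht, Finset.mem_filter]; exact ⟨hj.2, h0⟩)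
      have h4 : j ∈ near M M := ⟨lt_of_le_of_ne h3 hj.1, by omega⟩
      exact (le_iSup₂_of_le (f := fun j (_ : j ∈ near M M) => Z j) j h4 le_rfl) (hv j hj.2)
  rw [h M M, Submodule.mem_bot] at h2
  exact hMv h2

lemma mul_mem_near (hmul : ∀ a b, ∀ x ∈ Z a, ∀ y ∈ Z b, x * y ∈ Z (a + b)) {D N k : ℕ} {v z : ℝ}
    (hv : v ∈ ⨆ j ∈ near D N, Z j) (hz : z ∈ Z k) : v * z ∈ ⨆ j ∈ near D (N + k), Z j := by
  have h1 : (⨆ j ∈ near D N, Z j).map (LinearMap.mulRight ℚ z) ≤ ⨆ j ∈ near D (N + k), Z j := by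
    rw [Submodule.map_iSup]
    refine iSup_le fun j => ?_
    rw [Submodule.map_iSup]
    refine iSup_le fun hj => ?_
    rintro _ ⟨w, hw, rfl⟩
    have h2 : j + k ∈ near D (N + k) := ⟨by have := hj.1; omega, by have := hj.2; omega⟩
    exact (le_iSup₂_of_le (f := fun j (_ : j ∈ near D (N + k)) => Z j) (j + k) h2 le_rfl)
      (hmul j k w hw z hz)
  exact h1 ⟨v, hv, rfl⟩

/-- the sharp threshold for the width of the relations -/
theorem threshold [hfd : ∀ k, FiniteDimensional ℚ (Z k)]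
    (hmul : ∀ a b, ∀ x ∈ Z a, ∀ y ∈ Z b, x * y ∈ Z (a + b)) :
    iSupIndep Z ∨ ∃ D N, 1 ≤ D ∧ D ≤ N ∧
      (∀ M, Z M ⊓ ⨆ j ∈ near (D - 1) M, Z j = ⊥) ∧
      ∀ M, N ≤ M → Module.finrank ℚ (Z (M - N)) ≤
        Module.finrank ℚ ↥(Z M ⊓ ⨆ j ∈ near D M, Z j) := by
  classical
  by_cases h : ∀ D M, Z M ⊓ ⨆ j ∈ near D M, Z j = ⊥
  · exact Or.inl (indep_of_disjoint h)
  · right
    push Not at h
    obtain ⟨N, hN⟩ := Nat.find_spec h
    set D := Nat.find h with hD
    have hmin : ∀ E < D, ∀ M, Z M ⊓ ⨆ j ∈ near E M, Z j = ⊥ := by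
      intro E hE M
      have := Nat.find_min h hE
      push Not at this
      exact this M
    have h1 : 1 ≤ D := by
      by_contra hc
      have h0 : D = 0 := by omega
      apply hN
      rw [h0]
      have : near 0 N = ∅ := by
        ext j
        simp only [near, Set.mem_ofPred_eq, Set.mem_empty_iff_false, iff_false]
        omega
      rw [this]
      simp
    have h2 : D ≤ N := by
      by_contra hc
      apply hN
      have : near D N = near N N := by
        ext j
        simp only [near, Set.mem_ofPred_eq]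
        omega
      rw [this]
      exact hmin N (by omega) N
    refine ⟨D, N, h1, h2, fun M => hmin (D - 1) (by omega) M, fun M hM => ?_⟩
    obtain ⟨v, hv, hv0⟩ := Submodule.exists_mem_ne_zero_of_ne_bot hN
    have hi : Function.Injective (LinearMap.mulLeft ℚ v) :=
      fun a b hab => mul_left_cancel₀ hv0 (by simpa using hab)
    have i1 : FiniteDimensional ℚ ↥(Z M ⊓ ⨆ j ∈ near D M, Z j) :=
      Submodule.finiteDimensional_of_le (S₂ := Z M) inf_le_left
    rw [(Submodule.equivMapOfInjective _ hi (Z (M - N))).finrank_eq]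
    refine Submodule.finrank_mono ?_
    rintro _ ⟨z, hz, rfl⟩
    have e : N + (M - N) = M := by omega
    refine ⟨?_, ?_⟩
    · have := hmul N (M - N) v hv.1 z hz
      rw [e] at this
      exact this
    · have := mul_mem_near hmul hv.2 hz
      rw [e] at this
      exact this

end

end Pool.Agent.R390.MZ
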