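import Mathlib
import Pool.Agent.R390.MZ.Rec
import Pool.Agent.R390.MZ.Hoff

set_option autoImplicit false

/-!
# Filtered generators become graded ones with one more variable of weight `1` and value `1`
-/

open MvPolynomial

namespace Pool.Agent.R390.MZ

section

variable {σ : Type} {wt : σ → ℕ} {x : σ → ℝ} {Z : ℕ → Submodule ℚ ℝ} {d : ℕ → ℕ}

lemma weight_option (m : Option σ →₀ ℕ) :
    Finsupp.weight (fun o : Option σ => o.elim 1 wt) m = m none + Finsupp.weight wt m.some := by
  rw [Finsupp.weight_apply, Finsupp.weight_apply,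
    Finsupp.sum_option_index_smul m (fun o : Option σ => o.elim 1 wt)]
  simp

lemma image_some (k : ℕ) : Finsupp.some ''
    {m : Option σ →₀ ℕ | Finsupp.weight (fun o : Option σ => o.elim 1 wt) m = k} =
    {m : σ →₀ ℕ | Finsupp.weight wt m ≤ k} := by
  ext m
  constructor
  · rintro ⟨m', hm', rfl⟩
    have h1 : Finsupp.weight (fun o : Option σ => o.elim 1 wt) m' = k := hm'
    rw [weight_option] at h1
    show Finsupp.weight wt m'.some ≤ k
    omega
  · intro hm
    have h1 : Finsupp.weight wt m ≤ k := hm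
    refine ⟨m.optionElim (k - Finsupp.weight wt m), ?_, Finsupp.some_optionElim _ _⟩
    show Finsupp.weight (fun o : Option σ => o.elim 1 wt) (m.optionElim (k - _)) = k
    rw [weight_option, Finsupp.some_optionElim, Finsupp.optionElim_apply_none]
    omega

lemma injOn_some (k : ℕ) : Set.InjOn Finsupp.some
    {m : Option σ →₀ ℕ | Finsupp.weight (fun o : Option σ => o.elim 1 wt) m = k} := by
  intro a ha b hb hab
  have h1 : Finsupp.weight (fun o : Option σ => o.elim 1 wt) a = k := ha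
  have h2 : Finsupp.weight (fun o : Option σ => o.elim 1 wt) b = k := hb
  rw [weight_option] at h1 h2
  rw [hab] at h1
  ext o
  cases o with
  | none => omega
  | some s => exact congrArg (fun f : σ →₀ ℕ => f s) hab

lemma encard_option (hd : ∀ k, {m : σ →₀ ℕ | Finsupp.weight wt m = k}.encard = d k) (k : ℕ) :
    {m : Option σ →₀ ℕ | Finsupp.weight (fun o : Option σ => o.elim 1 wt) m = k}.encard =
      (sumTo d k : ℕ) := by
  rw [← (injOn_some k).encard_image, image_some]
  have h1 := finrank_L hd k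
  rw [L, finrank_A, Nat.card_coe_set_eq] at h1
  simp only [Set.mem_Iic] at h1
  rw [← h1]
  exact ((finite_le hd k).cast_ncard_eq).symm

lemma span_option (hZ : ∀ k, Z k = Submodule.span ℚ {y : ℝ | ∃ m : σ →₀ ℕ,
      Finsupp.weight wt m = k ∧ y = m.prod fun s e => x s ^ e}) (k : ℕ) :
    ⨆ j ∈ Set.Iic k, Z j = Submodule.span ℚ {y : ℝ | ∃ m : Option σ →₀ ℕ,
      Finsupp.weight (fun o : Option σ => o.elim 1 wt) m = k ∧
      y = m.prod fun o e => (o.elim 1 x : ℝ) ^ e} := by
  simp only [hZ, ← Submodule.span_iUnion₂]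
  congr 1
  have hprod : ∀ m : Option σ →₀ ℕ, (m.prod fun o e => (o.elim 1 x : ℝ) ^ e) =
      m.some.prod fun s e => x s ^ e := by
    intro m
    rw [Finsupp.prod_option_index m (fun o e => (o.elim 1 x : ℝ) ^ e) (fun o => pow_zero _)
      (fun o a b => pow_add _ _ _)]
    simp
  ext y
  simp only [Set.mem_iUnion, Set.mem_ofPred_eq, Set.mem_Iic]
  constructor
  · rintro ⟨j, hj, m, hm, rfl⟩
    refine ⟨m.optionElim (k - Finsupp.weight wt m), ?_, ?_⟩
    · rw [weight_option, Finsupp.some_optionElim, Finsupp.optionElim_apply_none]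
      omega
    · rw [hprod, Finsupp.some_optionElim]
  · rintro ⟨m, hm, rfl⟩
    rw [weight_option] at hm
    exact ⟨_, by omega, m.some, rfl, hprod m⟩

end

section

variable {σ : Type} {wt : σ → ℕ} {x : σ → ℝ} {Z : ℕ → Submodule ℚ ℝ}

open PowerSeries in
lemma sum_series : (1 - PowerSeries.X - PowerSeries.X ^ 2 + PowerSeries.X ^ 4 : PowerSeries ℤ) *
    PowerSeries.mk (fun k => (sumTo dz k : ℤ)) = 1 := by
  have h1 : (1 - PowerSeries.X - PowerSeries.X ^ 2 + PowerSeries.X ^ 4 : PowerSeries ℤ) =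
      (1 - PowerSeries.X ^ 2 - PowerSeries.X ^ 3) * (1 - PowerSeries.X) := by ring
  have h2 : (1 - PowerSeries.X : PowerSeries ℤ) * PowerSeries.mk (fun k => (sumTo dz k : ℤ)) =
      PowerSeries.mk (fun k => (dz k : ℤ)) := by
    ext k
    rw [sub_mul, one_mul, map_sub, coeff_mk, coeff_mk]
    cases k with
    | zero => simp [sumTo]
    | succ k =>
      rw [PowerSeries.coeff_succ_X_mul, coeff_mk, sumTo, sumTo, Finset.sum_range_succ _ (k + 1)]
      push_cast
      ring
  rw [h1, mul_assoc, h2, dz_series]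

lemma S_rec (k : ℕ) : sumTo dz (k + 4) + sumTo dz k = sumTo dz (k + 3) + sumTo dz (k + 2) := by
  induction k with
  | zero => decide
  | succ k ih =>
    have e1 : sumTo dz (k + 1 + 4) = sumTo dz (k + 4) + dz (k + 1 + 4) := Finset.sum_range_succ _ _
    have e2 : sumTo dz (k + 1) = sumTo dz k + dz (k + 1) := Finset.sum_range_succ _ _
    have e3 : sumTo dz (k + 1 + 3) = sumTo dz (k + 3) + dz (k + 1 + 3) := Finset.sum_range_succ _ _
    have e4 : sumTo dz (k + 1 + 2) = sumTo dz (k + 2) + dz (k + 1 + 2) := Finset.sum_range_succ _ _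
    have e5 : dz (k + 1 + 4) = dz (k + 1 + 2) + dz (k + 2) := by
      rw [show k + 1 + 4 = (k + 2) + 3 by ring, dz]
    have e6 : dz (k + 1 + 3) = dz (k + 2) + dz (k + 1) := by
      rw [show k + 1 + 3 = (k + 1) + 3 by ring, dz]
    omega

/-- **The filtered dichotomy.** -/
theorem dichotomy_filt (hd : ∀ k, {m : σ →₀ ℕ | Finsupp.weight wt m = k}.encard = dz k)
    (hZ : ∀ k, Z k = Submodule.span ℚ {y : ℝ | ∃ m : σ →₀ ℕ, Finsupp.weight wt m = k ∧
      y = m.prod fun s e => x s ^ e}) :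
    (∃ k0, ∀ k, k0 ≤ k → Module.finrank ℚ ↥(⨆ j ∈ Set.Iic (k + 4), Z j) +
        Module.finrank ℚ ↥(⨆ j ∈ Set.Iic k, Z j) =
      Module.finrank ℚ ↥(⨆ j ∈ Set.Iic (k + 3), Z j) +
        Module.finrank ℚ ↥(⨆ j ∈ Set.Iic (k + 2), Z j)) ∨
    ∀ N, ∃ k, N < k ∧ ∃ f : MvPolynomial (Option σ) ℚ,
      IsWeightedHomogeneous (fun o : Option σ => o.elim 1 wt) f k ∧
      aeval (fun o : Option σ => (o.elim 1 x : ℝ)) f = 0 ∧
      f ∉ Ideal.span {g : MvPolynomial (Option σ) ℚ | ∃ j < k,
        IsWeightedHomogeneous (fun o : Option σ => o.elim 1 wt) g j ∧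
        aeval (fun o : Option σ => (o.elim 1 x : ℝ)) g = 0} := by
  have hd' := encard_option hd
  have hZ' := span_option hZ
  by_cases h : ∃ N, Ph (fun o : Option σ => o.elim 1 wt) (fun o : Option σ => (o.elim 1 x : ℝ)) =
      Ideal.span (relsLe (fun o : Option σ => o.elim 1 wt) (fun o : Option σ => (o.elim 1 x : ℝ)) N)
  · left
    obtain ⟨N, hN⟩ := h
    obtain ⟨G, hG⟩ := exists_avoid (Z := fun k => ⨆ j ∈ Set.Iic k, Z j) hd' hZ' hN
    obtain ⟨K, hK⟩ := exists_poly (fun k => Set.finite_of_encard_eq_coe (hd' k)) G.card G le_rfl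
    have h1 : (fun k => (({m : Option σ →₀ ℕ |
        Finsupp.weight (fun o : Option σ => o.elim 1 wt) m = k}).ncard : ℤ)) =
        fun k => (sumTo dz k : ℤ) := by
      funext k
      rw [Set.ncard_def, hd' k, ENat.toNat_natCast]
    rw [h1] at hK
    have h2 : (1 - PowerSeries.X - PowerSeries.X ^ 2 + PowerSeries.X ^ 4 : PowerSeries ℤ) *
        PowerSeries.mk (fun k => (Module.finrank ℚ ↥(⨆ j ∈ Set.Iic k, Z j) : ℤ)) =
        (K : PowerSeries ℤ) := by
      have h3 : (fun k => (Module.finrank ℚ ↥(⨆ j ∈ Set.Iic k, Z j) : ℤ)) =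
          fun k => ((avoid (fun o : Option σ => o.elim 1 wt) (G : Set (Option σ →₀ ℕ)) k).ncard : ℤ) :=
        funext fun k => by rw [hG k]
      rw [h3, hK, mul_left_comm, sum_series, mul_one]
    refine ⟨K.natDegree, fun k hk => ?_⟩
    have h4 := congrArg (PowerSeries.coeff (k + 4)) h2
    have e1 : (PowerSeries.X : PowerSeries ℤ) = PowerSeries.X ^ 1 := (pow_one _).symm
    rw [e1, ← pow_mul, ← pow_mul, add_mul, sub_mul, sub_mul, one_mul, map_add, map_sub, map_sub,
      PowerSeries.coeff_X_pow_mul', PowerSeries.coeff_X_pow_mul', PowerSeries.coeff_X_pow_mul',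
      PowerSeries.coeff_mk, PowerSeries.coeff_mk, PowerSeries.coeff_mk, PowerSeries.coeff_mk,
      if_pos (by omega), if_pos (by omega), if_pos (by omega), Polynomial.coeff_coe,
      Polynomial.coeff_eq_zero_of_natDegree_lt (by omega)] at h4
    have h5 : k + 4 - 1 = k + 3 := by omega
    have h6 : k + 4 - 1 * 2 = k + 2 := by omega
    have h7 : k + 4 - 1 * 4 = k := by omega
    rw [h5, h6, h7] at h4
    have h8 : (Module.finrank ℚ ↥(⨆ j ∈ Set.Iic (k + 4), Z j) : ℤ) +
        Module.finrank ℚ ↥(⨆ j ∈ Set.Iic k, Z j) =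
        Module.finrank ℚ ↥(⨆ j ∈ Set.Iic (k + 3), Z j) +
        Module.finrank ℚ ↥(⨆ j ∈ Set.Iic (k + 2), Z j) := by linarith
    exact_mod_cast h8
  · push Not at h
    exact Or.inr fun N => exists_new (h N)

end

end Pool.Agent.R390.MZ
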