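import Mathlib
import Pool.Agent.R390.MZ.HDefs

set_option autoImplicit false

/-!
# Words, shuffle and stuffle products, regularized double shuffle elements
-/

namespace Pool.Agent.R390.MZ

/-- rational combinations of words in `x = false` and `y = true` -/
abbrev Wd : Type := List Bool →₀ ℚ

/-- the word `y_{k_1} ... y_{k_t}`, where `y_k = x ^ (k - 1) y` -/
def word : List ℕ → List Bool
  | [] => []
  | k :: l => List.replicate (k - 1) false ++ true :: word l

/-- `index 0 w` is the list of the `k_i` for the word `w = y_{k_1} ... y_{k_t}` -/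
def index : ℕ → List Bool → List ℕ
  | _, [] => []
  | c, true :: u => (c + 1) :: index 0 u
  | c, false :: u => index (c + 1) u

/-- the list of the shuffles of two words -/
def shuffles : List Bool → List Bool → List (List Bool)
  | [], v => [v]
  | a :: u, [] => [a :: u]
  | a :: u, b :: v => (shuffles u (b :: v)).map (a :: ·) ++ (shuffles (a :: u) v).map (b :: ·)
termination_by u v => u.length + v.length

/-- the list of the indices in the stuffle product of two indices -/
def stuffles : List ℕ → List ℕ → List (List ℕ)
  | [], l => [l]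
  | i :: k, [] => [i :: k]
  | i :: k, j :: l => (stuffles k (j :: l)).map (i :: ·) ++ (stuffles (i :: k) l).map (j :: ·) ++
      (stuffles k l).map ((i + j) :: ·)
termination_by k l => k.length + l.length

/-- the sum of a list of words -/
noncomputable def total (L : List (List Bool)) : Wd := (L.map fun w => Finsupp.single w 1).sum

/-- the shuffle product -/
noncomputable def shp (f g : Wd) : Wd :=
  f.sum fun u a => g.sum fun v b => (a * b) • total (shuffles u v)

/-- the shuffle powers of `y` -/
noncomputable def ypow : ℕ → Wd
  | 0 => Finsupp.single [] 1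
  | j + 1 => shp (ypow j) (Finsupp.single [true] 1)

/-- the empty word and the words which begin with `x` and end with `y` -/
def W0 : Set (List Bool) := {w | w = [] ∨ (w.head? = some false ∧ w.getLast? = some true)}

/-- the part of weight `p` of `H^0`: combinations of words in `W0` of length `p` -/
noncomputable def H0 (p : ℕ) : Submodule ℚ Wd :=
  Finsupp.supported ℚ ℚ {w | w ∈ W0 ∧ w.length = p}

/-- the linear map `Z` with `Z (y_{k_1} ... y_{k_t}) = ζ(k_1, ..., k_t)` -/
noncomputable def Zmap : Wd →ₗ[ℚ] ℝ := Finsupp.linearCombination ℚ fun w => zt (index 0 w)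

/-- the part of weight `p` of the kernel of `Z` on `H^0` -/
noncomputable def kerZ (p : ℕ) : Submodule ℚ Wd := H0 p ⊓ LinearMap.ker Zmap

/-- `e = reg (w1 shuffle w0 - w1 stuffle w0)` for words `w1 = y_{k_1} ... y_{k_s}` in `H^1` and
`w0 = y_{l_1} ... y_{l_t}` in `H^0` of total weight `p`: the element
`w1 shuffle w0 - w1 stuffle w0` is `∑ c_j shuffle y ^ j` with `c_j` in `H^0`, and `e = c_0` -/
def IsRDS (p : ℕ) (e : Wd) : Prop :=
  ∃ k l : List ℕ, (∀ a ∈ k, 1 ≤ a) ∧ (∀ a ∈ l, 1 ≤ a) ∧ (∀ a ∈ l.head?, 2 ≤ a) ∧
    k.sum + l.sum = p ∧ ∃ (J : ℕ) (c : ℕ → Wd), (∀ j, c j ∈ Finsupp.supported ℚ ℚ W0) ∧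
      e = c 0 ∧ total (shuffles (word k) (word l)) - total ((stuffles k l).map word) =
        ∑ j ∈ Finset.range (J + 1), shp (c j) (ypow j)

/-- the span of the regularized double shuffle elements of weight `p` -/
noncomputable def rds (p : ℕ) : Submodule ℚ Wd := Submodule.span ℚ {e | IsRDS p e}

/-- `dim H^0_p - dim rds_p`: the dimension of the part of weight `p` of the algebra of formal
multiple zeta values -/
noncomputable def fdim (p : ℕ) : ℕ := Module.finrank ℚ (H0 p) - Module.finrank ℚ (rds p)

/-- `dim ker Z_p - dim rds_p`: the number of the independent relations of weight `p` modulo the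
regularized double shuffle relations -/
noncomputable def gap (p : ℕ) : ℕ := Module.finrank ℚ (kerZ p) - Module.finrank ℚ (rds p)

end Pool.Agent.R390.MZ
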