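import Mathlib
import Pool.Agent.R390.MZ.GapDefs
import Pool.Agent.R390.MZ.Padic

set_option autoImplicit false

/-!
# The gap between all relations and the double shuffle relations
-/

open MvPolynomial

namespace Pool.Agent.R390.MZ

instance finite_H0 (p : ℕ) : FiniteDimensional ℚ (H0 p) := by
  have h1 : {w : List Bool | w ∈ W0 ∧ w.length = p}.Finite :=
    (List.finite_length_eq Bool p).subset fun w hw => hw.2
  have := h1.fintype
  exact Module.Finite.equiv (Finsupp.supportedEquivFinsupp (M := ℚ) (R := ℚ)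
    {w : List Bool | w ∈ W0 ∧ w.length = p}).symm

lemma rank_Z (p : ℕ) : Module.finrank ℚ ((H0 p).map Zmap) + Module.finrank ℚ (kerZ p) =
    Module.finrank ℚ (H0 p) := rank_nullity (H0 p) Zmap

lemma index_replicate (c : ℕ) : ∀ j, index c (List.replicate j false ++ [true]) = [c + j + 1] := by
  intro j
  induction j generalizing c with
  | zero => simp [index]
  | succ j ih =>
    rw [List.replicate_succ, List.cons_append, index, ih]
    congr 1
    omega

lemma ZZ_ne_bot {p : ℕ} (hp : p ≠ 1) : (H0 p).map Zmap ≠ ⊥ := by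
  intro h
  rcases Nat.lt_or_ge p 2 with h1 | h1
  · have hp0 : p = 0 := by omega
    subst hp0
    have h2 : Zmap (Finsupp.single [] 1) ∈ (H0 0).map Zmap :=
      ⟨_, Finsupp.single_mem_supported ℚ 1 ⟨Or.inl rfl, rfl⟩, rfl⟩
    rw [h, Submodule.mem_bot, Zmap, Finsupp.linearCombination_single, one_smul, index,
      zt_nil] at h2
    exact one_ne_zero h2
  · obtain ⟨j, rfl⟩ : ∃ j, p = j + 2 := ⟨p - 2, by omega⟩
    have h2 : Zmap (Finsupp.single (List.replicate (j + 1) false ++ [true]) 1) ∈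
        (H0 (j + 2)).map Zmap := by
      refine ⟨_, Finsupp.single_mem_supported ℚ 1 ⟨Or.inr ⟨?_, ?_⟩, ?_⟩, rfl⟩
      · rw [List.replicate_succ]
        rfl
      · simp
      · simp
    rw [h, Submodule.mem_bot, Zmap, Finsupp.linearCombination_single, one_smul,
      index_replicate] at h2
    have ha : Pool.Agent.H447R2.MZ.Adm [0 + (j + 1) + 1] :=
      ⟨by simp, fun a t h => by simp at h; omega⟩
    rw [zt_eq_val ha, ← (Pool.Agent.H447R2.MZ.val_single (0 + (j + 1) + 1) (by omega)).tsum_eq] at h2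
    exact (Pool.Agent.H447R2.MZ.zeta_pos (0 + (j + 1) + 1) (by omega)).ne' h2

section

variable {σ : Type} {wt : σ → ℕ} {x : σ → ℝ}

lemma one_monomial (hwt : ∀ s, 1 ≤ wt s) :
    {m : σ →₀ ℕ | Finsupp.weight wt m = 0}.encard = 1 := by
  rw [Set.encard_eq_one]
  refine ⟨0, ?_⟩
  ext m
  rw [Set.mem_singleton_iff, Set.mem_ofPred_eq]
  constructor
  · intro h
    ext s
    by_contra hc
    have h2 : wt s ≤ Finsupp.weight wt m := Finsupp.le_weight_of_ne_zero' wt hc
    have := hwt s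
    omega
  · rintro rfl
    simp

lemma pos_n {d : ℕ → ℕ} {Z : ℕ → Submodule ℚ ℝ} (h00 : d 0 = 1)
    (hd : ∀ k, {m : σ →₀ ℕ | Finsupp.weight wt m = k}.encard = d k)
    (hZ : ∀ k, Z k = Submodule.span ℚ {y : ℝ | ∃ m : σ →₀ ℕ, Finsupp.weight wt m = k ∧
      y = m.prod fun s e => x s ^ e}) (h0 : Z 0 ≠ ⊥)
    {f : MvPolynomial σ ℚ} {n : ℕ} (hf : f ∈ Ph wt x) (he : Exact (H wt) f n) : 1 ≤ n := by
  by_contra hc
  have hn : n = 0 := by omega
  subst hn
  have := finite_H hd
  have i0 : FiniteDimensional ℚ (Z 0) := by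
    rw [Z_eq hZ]
    infer_instance
  have h1 := finrank_pt_ge mul_mem_H (finrank_H hd) he hf 0
  have h5 := finrank_map_add (finrank_H hd) (aeval (R := ℚ) x).toLinearMap (P := Ph wt x) (k := 0)
    (fun f hf => mem_Ph_of_mem_H hf)
  rw [← Z_eq hZ] at h5
  rw [sh, if_pos le_rfl, Nat.sub_self, h00] at h1
  have e0 := Submodule.one_le_finrank_iff.2 h0
  omega

/-- **The three cases for the gap.** -/
theorem tri_gap (hwt : ∀ s, 1 ≤ wt s) (hI : ∀ p, rds p ≤ kerZ p)
    (hG : Gens (fun p => (H0 p).map Zmap) fdim wt x) :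
    (∀ p, rds p = kerZ p) ∨
    (∃ n, 1 ≤ n ∧ (∀ p, n + 2 ≤ p → rds p ≠ kerZ p) ∧ ∀ p, gap p = sh fdim n p) ∨
    (∃ n m, 1 ≤ n ∧ n ≤ m ∧ (∀ p, n + 2 ≤ p → rds p ≠ kerZ p) ∧
      (∀ p < m, gap p = sh fdim n p) ∧
      ∀ p, sh fdim n p ≤ gap p ∧ sh fdim n p + sh fdim m p ≤ gap p + sh fdim (n + m) p) := by
  obtain ⟨hd, hZ⟩ := hG
  have h00 : fdim 0 = 1 := by
    have := hd 0
    rw [one_monomial hwt] at this
    exact_mod_cast this.symm
  have ik : ∀ p, FiniteDimensional ℚ (kerZ p) := fun p =>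
    Submodule.finiteDimensional_of_le (S₂ := H0 p) inf_le_left
  have ir : ∀ p, FiniteDimensional ℚ (rds p) := fun p =>
    Submodule.finiteDimensional_of_le (hI p)
  have e1 : ∀ p, Module.finrank ℚ (rds p) ≤ Module.finrank ℚ (kerZ p) := fun p =>
    Submodule.finrank_mono (hI p)
  have e2 : ∀ p, Module.finrank ℚ ((H0 p).map Zmap) + gap p = fdim p := fun p => by
    have h1 := rank_Z p
    have h2 := e1 p
    rw [gap, fdim]
    omega
  have e3 : ∀ p, gap p = 0 → rds p = kerZ p := fun p hp => by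
    refine Submodule.eq_of_le_of_finrank_eq (hI p) ?_
    have h2 := e1 p
    rw [gap] at hp
    omega
  have e4 : ∀ p, gap p ≠ 0 → rds p ≠ kerZ p := fun p hp h => hp (by rw [gap, h, Nat.sub_self])
  have e5 : ∀ n p, n + 2 ≤ p → 0 < sh fdim n p := fun n p hp => by
    rw [sh, if_pos (by omega)]
    have h1 := e2 (p - n)
    have h2 := Submodule.one_le_finrank_iff.2 (ZZ_ne_bot (p := p - n) (by omega))
    omega
  rcases tri_hom h00 hd hZ with
    ⟨-, h⟩ | ⟨f, n, hf, -, he, -, h⟩ | ⟨f, n, g, m, hnm, hf, -, he, hg, -, he', -, h5, h⟩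
  · left
    intro p
    have h1 := h p
    have h2 := e2 p
    exact e3 p (by omega)
  · right; left
    have h7 : ∀ p, gap p = sh fdim n p := fun p => by
      have h1 := h p
      have h2 := e2 p
      omega
    refine ⟨n, pos_n h00 hd hZ (ZZ_ne_bot (by norm_num)) hf he, fun p hp => e4 p ?_, h7⟩
    have h3 := e5 n p hp
    have h8 := h7 p
    omega
  · right; right
    have h7 : ∀ p, sh fdim n p ≤ gap p ∧
        sh fdim n p + sh fdim m p ≤ gap p + sh fdim (n + m) p := fun p => by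
      have h1 := h p
      have h2 := e2 p
      constructor <;> omega
    refine ⟨n, m, pos_n h00 hd hZ (ZZ_ne_bot (by norm_num)) hf he, hnm, fun p hp => e4 p ?_,
      fun p hp => ?_, h7⟩
    · have h3 := e5 n p hp
      have h8 := (h7 p).1
      omega
    · have h1 := h5 p hp
      have h2 := e2 p
      omega

end

end Pool.Agent.R390.MZ
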