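import Mathlib
import Pool.Agent.R390.MZ.Rec

set_option autoImplicit false

/-!
# Hilbert series of free Lie algebras with generators in all odd weights: growth
-/

namespace Pool.Agent.R390.MZ

open Filter Topology

/-- `1` for the odd numbers `w ≥ 3`, otherwise `0` -/
def odd3 (w : ℕ) : ℕ := if Odd w ∧ 3 ≤ w then 1 else 0

lemma exists_root : ∃ r : ℝ, 0 < r ∧ r < 1 ∧ r ^ 2 + r ^ 3 = 1 := by
  have h := intermediate_value_Icc (a := (0 : ℝ)) (b := 1) zero_le_one
    (f := fun r : ℝ => r ^ 2 + r ^ 3) (by fun_prop)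
  have h1 : (1 : ℝ) ∈ Set.Icc ((fun r : ℝ => r ^ 2 + r ^ 3) 0) ((fun r : ℝ => r ^ 2 + r ^ 3) 1) := by
    constructor <;> norm_num
  obtain ⟨r, hr, hr1⟩ := h h1
  refine ⟨r, lt_of_le_of_ne hr.1 fun h0 => ?_, lt_of_le_of_ne hr.2 fun h0 => ?_, hr1⟩
  · rw [← h0] at hr1
    norm_num at hr1
  · rw [h0] at hr1
    norm_num at hr1

lemma sum_odd3 {r : ℝ} (hr : r ^ 2 + r ^ 3 = 1) (n : ℕ) :
    ∑ j ∈ Finset.range (2 * n + 2), (odd3 j : ℝ) * r ^ j = 1 - r ^ (2 * n) := by
  induction n with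
  | zero => simp [Finset.sum_range_succ, odd3]
  | succ n ih =>
    rw [show 2 * (n + 1) + 2 = (2 * n + 2) + 1 + 1 by ring, Finset.sum_range_succ,
      Finset.sum_range_succ, ih]
    have h1 : odd3 (2 * n + 2) = 0 := by
      rw [odd3, if_neg]
      rintro ⟨⟨k, hk⟩, -⟩
      omega
    have h2 : odd3 (2 * n + 2 + 1) = 1 := by
      rw [odd3, if_pos]
      exact ⟨⟨n + 1, by ring⟩, by omega⟩
    rw [h1, h2]
    have h3 : r ^ (2 * n + 2 + 1) = r ^ (2 * n) * r ^ 3 := by
      rw [← pow_add]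
    have h4 : r ^ (2 * (n + 1)) = r ^ (2 * n) * r ^ 2 := by
      rw [← pow_add, Nat.mul_succ]
    rw [h3, h4]
    push_cast
    linear_combination (r ^ (2 * n)) * hr

/-- bounded values of a finite part of the generating function -/
lemma partial_le {a u : ℕ → ℕ} (hu0 : 1 ≤ u 0)
    (hu : ∀ n, ∀ N, ∑ j ∈ Finset.range N, (if j ≤ n then a j * u (n - j) else 0) ≤ u n)
    {t : ℝ} (ht : 0 < t) (hs : Summable fun n => (u n : ℝ) * t ^ n) (N : ℕ) :
    ∑ j ∈ Finset.range N, (a j : ℝ) * t ^ j ≤ 1 := by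
  set U := ∑' n, (u n : ℝ) * t ^ n with hU
  have hUpos : 0 < U := by
    have h1 : (u 0 : ℝ) * t ^ 0 ≤ U := hs.le_tsum 0 fun n _ => by positivity
    have h2 : (1 : ℝ) ≤ u 0 := by exact_mod_cast hu0
    rw [pow_zero, mul_one] at h1
    linarith
  have hshift : ∀ j, HasSum (fun n => if j ≤ n then (a j : ℝ) * u (n - j) * t ^ n else 0)
      ((a j : ℝ) * t ^ j * U) := by
    intro j
    have h1 : HasSum (fun n => (a j : ℝ) * t ^ j * ((u n : ℝ) * t ^ n)) ((a j : ℝ) * t ^ j * U) :=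
      hs.hasSum.mul_left _
    have hinj : Function.Injective fun n : ℕ => n + j := fun x y h => by
      have : x + j = y + j := h
      omega
    have h2 : ((fun n => if j ≤ n then (a j : ℝ) * u (n - j) * t ^ n else 0) ∘ fun n : ℕ => n + j) =
        fun n => (a j : ℝ) * t ^ j * ((u n : ℝ) * t ^ n) := by
      funext n
      show (if j ≤ n + j then (a j : ℝ) * u (n + j - j) * t ^ (n + j) else 0) = _
      rw [if_pos (Nat.le_add_left _ _), Nat.add_sub_cancel, pow_add]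
      ring
    rw [← hinj.hasSum_iff, h2]
    · exact h1
    · intro x hx
      rw [if_neg]
      intro h
      exact hx ⟨x - j, Nat.sub_add_cancel h⟩
  have h3 := hasSum_sum (s := Finset.range N) fun j _ => hshift j
  have h4 : ∑ j ∈ Finset.range N, (a j : ℝ) * t ^ j * U ≤ U := by
    refine hasSum_le (fun n => ?_) h3 hs.hasSum
    have h5 := hu n N
    have h6 : ∑ j ∈ Finset.range N, (if j ≤ n then (a j : ℝ) * u (n - j) * t ^ n else 0) =
        ((∑ j ∈ Finset.range N, (if j ≤ n then a j * u (n - j) else 0) : ℕ) : ℝ) * t ^ n := by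
      rw [Nat.cast_sum, Finset.sum_mul]
      refine Finset.sum_congr rfl fun j _ => ?_
      split_ifs
      · push_cast
        ring
      · simp
    rw [h6]
    exact mul_le_mul_of_nonneg_right (by exact_mod_cast h5) (by positivity)
  rw [← Finset.sum_mul] at h4
  exact le_of_mul_le_mul_right (by linarith) hUpos

/-- **Growth determines the generators.** -/
theorem eq_odd3 {a u : ℕ → ℕ} (ha : ∀ w, odd3 w ≤ a w) (ha0 : a 0 = 0) (hu0 : 1 ≤ u 0)
    (hu : ∀ n, ∀ N, ∑ j ∈ Finset.range N, (if j ≤ n then a j * u (n - j) else 0) ≤ u n)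
    (hg : ∀ t : ℝ, 0 < t → t ^ 2 + t ^ 3 < 1 → ∃ C : ℝ, ∀ p, (u p : ℝ) * t ^ p ≤ C) (w : ℕ) :
    a w = odd3 w := by
  obtain ⟨r, hr0, hr1, hr⟩ := exists_root
  have hlt : ∀ t : ℝ, 0 < t → t < r → t ^ 2 + t ^ 3 < 1 := by
    intro t ht htr
    have h1 : t ^ 2 < r ^ 2 := pow_lt_pow_left₀ htr ht.le (by norm_num)
    have h2 : t ^ 3 < r ^ 3 := pow_lt_pow_left₀ htr ht.le (by norm_num)
    linarith
  have hsum : ∀ t : ℝ, 0 < t → t < r → Summable fun n => (u n : ℝ) * t ^ n := by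
    intro t ht htr
    obtain ⟨s, hts, hsr⟩ := exists_between htr
    have hs0 : 0 < s := ht.trans hts
    obtain ⟨C, hC⟩ := hg s hs0 (hlt s hs0 hsr)
    have h1 : Summable fun n : ℕ => C * (t / s) ^ n :=
      (summable_geometric_of_lt_one (by positivity) ((div_lt_one hs0).2 hts)).mul_left C
    refine Summable.of_nonneg_of_le (fun n => by positivity) (fun n => ?_) h1
    have h2 : (u n : ℝ) * t ^ n = (u n : ℝ) * s ^ n * (t / s) ^ n := by
      rw [div_pow]
      field_simp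
    rw [h2]
    exact mul_le_mul_of_nonneg_right (hC n) (by positivity)
  have hpart : ∀ N, ∑ j ∈ Finset.range N, (a j : ℝ) * r ^ j ≤ 1 := by
    intro N
    have hc : Continuous fun t : ℝ => ∑ j ∈ Finset.range N, (a j : ℝ) * t ^ j := by fun_prop
    have h1 : Tendsto (fun t : ℝ => ∑ j ∈ Finset.range N, (a j : ℝ) * t ^ j) (𝓝[<] r)
        (𝓝 (∑ j ∈ Finset.range N, (a j : ℝ) * r ^ j)) := hc.continuousWithinAt
    refine le_of_tendsto h1 ?_
    have h2 : ∀ᶠ t in 𝓝[<] r, t ∈ Set.Ioo 0 r := Ioo_mem_nhdsLT hr0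
    filter_upwards [h2] with t ht
    exact partial_le hu0 hu ht.1 (hsum t ht.1 ht.2) N
  by_contra hne
  have h1 : odd3 w + 1 ≤ a w := by
    have := ha w
    omega
  have hw : 1 ≤ w := by
    by_contra hc
    have : w = 0 := by omega
    subst this
    omega
  have h2 := hpart (2 * w + 2)
  have h3 := sum_odd3 hr w
  have h4 : ∑ j ∈ Finset.range (2 * w + 2), (odd3 j : ℝ) * r ^ j + r ^ w ≤
      ∑ j ∈ Finset.range (2 * w + 2), (a j : ℝ) * r ^ j := by
    have hmem : w ∈ Finset.range (2 * w + 2) := Finset.mem_range.2 (by omega)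
    rw [← Finset.add_sum_erase _ _ hmem, ← Finset.add_sum_erase _ _ hmem]
    have h5 : ∑ j ∈ (Finset.range (2 * w + 2)).erase w, (odd3 j : ℝ) * r ^ j ≤
        ∑ j ∈ (Finset.range (2 * w + 2)).erase w, (a j : ℝ) * r ^ j :=
      Finset.sum_le_sum fun j _ => mul_le_mul_of_nonneg_right (by exact_mod_cast ha j)
        (by positivity)
    have h6 : ((odd3 w : ℝ) + 1) * r ^ w ≤ (a w : ℝ) * r ^ w :=
      mul_le_mul_of_nonneg_right (by exact_mod_cast h1) (by positivity)
    linarith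
  have h7 : r ^ (2 * w) < r ^ w := pow_lt_pow_right_of_lt_one₀ hr0 hr1 (by omega)
  rw [h3] at h4
  linarith

end Pool.Agent.R390.MZ
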