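import Mathlib
import Pool.Agent.R390.MZ.Grow

set_option autoImplicit false

/-!
# Hilbert series of free Lie algebras with generators in all odd weights: growth, continued
-/

namespace Pool.Agent.R390.MZ

open PowerSeries

lemma even_series : (1 - PowerSeries.X ^ 2 : PowerSeries ℤ) *
    PowerSeries.mk (fun n => if Even n then (1 : ℤ) else 0) = 1 := by
  ext n
  rw [sub_mul, one_mul, map_sub, PowerSeries.coeff_X_pow_mul', coeff_mk, coeff_mk,
    PowerSeries.coeff_one]
  match n with
  | 0 => simp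
  | 1 => simp
  | n + 2 =>
    rw [if_pos (by omega : 2 ≤ n + 2), if_neg (by omega : ¬ n + 2 = 0), Nat.add_sub_cancel]
    have : Even (n + 2) ↔ Even n := by
      rw [Nat.even_add]
      simp
    simp only [this, sub_self]

lemma odd3_series : (1 - PowerSeries.X ^ 2 : PowerSeries ℤ) *
    PowerSeries.mk (fun n => (odd3 n : ℤ)) = PowerSeries.X ^ 3 := by
  ext n
  rw [sub_mul, one_mul, map_sub, PowerSeries.coeff_X_pow_mul', coeff_mk, coeff_mk,
    PowerSeries.coeff_X_pow]
  match n with
  | 0 => simp [odd3]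
  | 1 => simp [odd3]
  | 2 => simp [odd3]
  | 3 => simp [odd3, Nat.odd_iff]
  | n + 4 =>
    rw [if_pos (by omega : 2 ≤ n + 4), if_neg (by omega : ¬ n + 4 = 3),
      show n + 4 - 2 = n + 2 by omega]
    have h1 : Odd (n + 4) ↔ Odd (n + 2) := by
      constructor
      · rintro ⟨k, hk⟩
        exact ⟨k - 1, by omega⟩
      · rintro ⟨k, hk⟩
        exact ⟨k + 1, by omega⟩
    have h2 : odd3 (n + 4) = odd3 (n + 2) := by
      rw [odd3, odd3]
      by_cases h : Odd (n + 2)
      · have : n + 2 ≠ 2 := by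
          rintro h0
          rw [h0] at h
          exact absurd h (by decide)
        rw [if_pos ⟨h1.2 h, by omega⟩, if_pos ⟨h, by omega⟩]
      · rw [if_neg fun h3 => h (h1.1 h3.1), if_neg fun h3 => h h3.1]
    rw [h2, sub_self]

/-- **Growth determines the generators and the Hilbert series.** -/
theorem grow_main {a f : ℕ → ℕ} (ha : ∀ w, odd3 w ≤ a w) (ha0 : a 0 = 0)
    (H : (1 - PowerSeries.X ^ 2 : PowerSeries ℤ) * (1 - PowerSeries.mk fun n => (a n : ℤ)) *
      PowerSeries.mk (fun n => (f n : ℤ)) = 1)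
    (hg : ∀ t : ℝ, 0 < t → t ^ 2 + t ^ 3 < 1 → ∃ C : ℝ, ∀ p, (f p : ℝ) * t ^ p ≤ C) :
    (∀ w, a w = odd3 w) ∧ ∀ p, f p = dz p := by
  set A : PowerSeries ℤ := PowerSeries.mk fun n => (a n : ℤ) with hA
  set F : PowerSeries ℤ := PowerSeries.mk fun n => (f n : ℤ) with hF
  set E : PowerSeries ℤ := PowerSeries.mk fun n => if Even n then (1 : ℤ) else 0 with hE
  have he : (1 - PowerSeries.X ^ 2) * E = 1 := even_series
  have h1 : F = A * F + E := by
    have h2 : (1 - A) * F = E := by
      calc (1 - A) * F = ((1 - PowerSeries.X ^ 2) * E) * ((1 - A) * F) := by rw [he, one_mul]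
        _ = E * ((1 - PowerSeries.X ^ 2) * (1 - A) * F) := by ring
        _ = E := by rw [H, mul_one]
    linear_combination h2
  have hcoef : ∀ n, (f n : ℤ) = ∑ j ∈ Finset.range (n + 1), (a j : ℤ) * f (n - j) +
      if Even n then 1 else 0 := by
    intro n
    have h2 := congrArg (PowerSeries.coeff n) h1
    rw [map_add, PowerSeries.coeff_mul, hF, hE, hA] at h2
    simp only [coeff_mk] at h2
    rw [Finset.Nat.sum_antidiagonal_eq_sum_range_succ_mk] at h2
    exact h2
  have hf0 : 1 ≤ f 0 := by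
    have := hcoef 0
    rw [if_pos (by simp)] at this
    have h2 : (0 : ℤ) ≤ ∑ j ∈ Finset.range (0 + 1), (a j : ℤ) * f (0 - j) :=
      Finset.sum_nonneg fun j _ => by positivity
    omega
  have hu : ∀ n, ∀ N, ∑ j ∈ Finset.range N, (if j ≤ n then a j * f (n - j) else 0) ≤ f n := by
    intro n N
    have h2 := hcoef n
    have h3 : ∑ j ∈ Finset.range N, (if j ≤ n then a j * f (n - j) else 0) ≤
        ∑ j ∈ Finset.range (n + 1), a j * f (n - j) := by
      rw [← Finset.sum_filter]
      refine Finset.sum_le_sum_of_subset_of_nonneg ?_ fun _ _ _ => Nat.zero_le _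
      intro j hj
      rw [Finset.mem_filter] at hj
      exact Finset.mem_range.2 (by omega)
    have h4 : ((∑ j ∈ Finset.range (n + 1), a j * f (n - j) : ℕ) : ℤ) ≤ f n := by
      push_cast
      rw [h2]
      split_ifs <;> omega
    have h5 : ∑ j ∈ Finset.range (n + 1), a j * f (n - j) ≤ f n := by exact_mod_cast h4
    exact h3.trans h5
  have haw := eq_odd3 ha ha0 hf0 hu hg
  refine ⟨haw, ?_⟩
  have hA' : A = PowerSeries.mk fun n => (odd3 n : ℤ) := by
    rw [hA]
    congr 1
    funext n
    rw [haw n]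
  have h3 : (1 - PowerSeries.X ^ 2 - PowerSeries.X ^ 3 : PowerSeries ℤ) * F = 1 := by
    have h4 := odd3_series
    rw [← hA'] at h4
    linear_combination H + F * h4
  have h5 : F = PowerSeries.mk fun k => (dz k : ℤ) := by
    calc F = ((1 - PowerSeries.X ^ 2 - PowerSeries.X ^ 3) *
        PowerSeries.mk (fun k => (dz k : ℤ))) * F := by rw [dz_series, one_mul]
      _ = PowerSeries.mk (fun k => (dz k : ℤ)) *
        ((1 - PowerSeries.X ^ 2 - PowerSeries.X ^ 3) * F) := by ring
      _ = PowerSeries.mk fun k => (dz k : ℤ) := by rw [h3, mul_one]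
  intro p
  have h6 := congrArg (PowerSeries.coeff p) h5
  rw [hF, coeff_mk, coeff_mk] at h6
  exact_mod_cast h6

end Pool.Agent.R390.MZ
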