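import Mathlib
import Pool.Agent.R390.MZ.HDefs

set_option autoImplicit false

/-!
# The Hoffman elements of given weight with a bounded number of threes
-/

namespace Pool.Agent.R390.MZ

/-- the words in the letters `2` and `3` of weight `k` with at most `d` letters `3` -/
abbrev Wkd (k d : ℕ) : Type :=
  {l : List ℕ // (∀ a ∈ l, a = 2 ∨ a = 3) ∧ l.sum = k ∧ l.count 3 ≤ d}

/-- the number of the words in the letters `2` and `3` of weight `k` with at most `d` letters `3` -/
noncomputable def cnt (k d : ℕ) : ℕ := Nat.card (Wkd k d)

/-- The numbers `x s` with the weights `wt s` and the levels `lv s ≤ wt s` generate: for all `k`, `d`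
there are exactly as many monomials of weight `k` and level at most `d` as words in `2` and `3` of
weight `k` with at most `d` letters `3`, and the values of these monomials have the same span over `ℚ`
as the multiple zeta values of these words. -/
def Gens2 {σ : Type} (wt lv : σ → ℕ) (x : σ → ℝ) : Prop :=
  (∀ s, lv s ≤ wt s) ∧
  (∀ k d, {m : σ →₀ ℕ | Finsupp.weight wt m = k ∧ Finsupp.weight lv m ≤ d}.encard =
    (cnt k d : ℕ∞)) ∧
  ∀ k d, Submodule.span ℚ (Set.range fun l : Wkd k d => zt l.1) =
    Submodule.span ℚ {y : ℝ | ∃ m : σ →₀ ℕ, Finsupp.weight wt m = k ∧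
      Finsupp.weight lv m ≤ d ∧ y = m.prod fun s e => x s ^ e}

end Pool.Agent.R390.MZ
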