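import Mathlib
import Pool.Agent.R390.MZ.Core2
import Pool.Agent.R390.MZ.LevDefs
import Pool.Agent.R390.MZ.Padic

set_option autoImplicit false

/-!
# The relations between the Hoffman elements of given weight with a bounded number of threes
-/

open MvPolynomial

namespace Pool.Agent.R390.MZ

section

open Pool.Agent.H447R2.MZ in
lemma H_pos (s : List ℕ) : ∀ N, s.length ≤ N → 0 < Pool.Agent.H447R2.MZ.H s N := by
  induction s with
  | nil => intro N _; rw [H_nil]; norm_num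
  | cons a s ih =>
    intro N hN
    rw [List.length_cons] at hN
    obtain ⟨M, rfl⟩ : ∃ M, N = M + 1 := ⟨N - 1, by omega⟩
    rw [H_cons_succ]
    have h1 := ih M (by omega)
    have h2 := H_nonneg (a :: s) M
    have h3 : 0 < (((M + 1 : ℕ) : ℝ) ^ a)⁻¹ := by positivity
    have h4 := mul_pos h3 h1
    linarith

lemma zt_pos {l : List ℕ} (h : ∀ a ∈ l, a = 2 ∨ a = 3) : 0 < zt l := by
  have ha : Pool.Agent.H447R2.MZ.Adm l := by
    refine ⟨fun a ha => ?_, fun a t hat => ?_⟩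
    · have := h a ha
      omega
    · have := h a (by rw [hat]; simp)
      omega
  rw [zt_eq_val ha]
  exact (H_pos l l.length le_rfl).trans_le (Pool.Agent.H447R2.MZ.H_le_val l ha l.length)

lemma count_le (l : List ℕ) (h : ∀ a ∈ l, a = 2 ∨ a = 3) : l.count 3 ≤ l.sum := by
  induction l with
  | nil => simp
  | cons a t ih =>
    rw [List.sum_cons, List.count_cons]
    have h1 := ih fun b hb => h b (List.mem_cons_of_mem _ hb)
    have h2 := h a (by simp)
    split_ifs <;> omega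

lemma finite_Wkd (k d : ℕ) : Finite (Wkd k d) :=
  Finite.of_injective (fun l : Wkd k d => (⟨l.1, l.2.1, l.2.2.1⟩ : Weq k)) fun a b h => by
    have := congrArg (fun x : Weq k => x.1) h
    exact Subtype.ext this

lemma cnt_self (k : ℕ) : cnt k k = dz k := by
  rw [cnt, ← card_Weq, ← Nat.card_eq_fintype_card]
  refine Nat.card_congr ⟨fun l => ⟨l.1, l.2.1, l.2.2.1⟩, fun l => ⟨l.1, l.2.1, l.2.2, ?_⟩,
    fun l => rfl, fun l => rfl⟩
  have := count_le l.1 l.2.1
  rw [l.2.2] at this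
  exact this

lemma cnt_zero_zero : 1 ≤ cnt 0 0 := by
  have := finite_Wkd 0 0
  have h : Nonempty (Wkd 0 0) := ⟨⟨[], by simp, by simp, by simp⟩⟩
  exact Nat.one_le_iff_ne_zero.2 (Nat.card_pos.ne')

lemma eq_replicate {l : List ℕ} (h : ∀ a ∈ l, a = 2 ∨ a = 3) (h3 : l.count 3 ≤ 0) :
    l = List.replicate (l.sum / 2) 2 := by
  have h1 : ∀ a ∈ l, a = 2 := by
    intro a ha
    rcases h a ha with h2 | h2
    · exact h2
    · subst h2
      have := List.count_pos_iff.2 ha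
      omega
  have h2 := List.eq_replicate_of_mem h1
  have h4 : l.sum = l.length * 2 := by
    conv_lhs => rw [h2]
    simp
  rw [h4, Nat.mul_div_cancel _ (by norm_num)]
  exact h2

lemma subsingleton_W0 (k : ℕ) : Subsingleton (Wkd k 0) := ⟨fun a b => Subtype.ext (by
  rw [eq_replicate a.2.1 a.2.2.2, eq_replicate b.2.1 b.2.2.2, a.2.2.1, b.2.2.1])⟩

lemma nrel_cnt (k d : ℕ) : Module.finrank ℚ (Submodule.span ℚ (Set.range fun l : Wkd k d => zt l.1)) +
    nrel (fun l : Wkd k d => zt l.1) = cnt k d := by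
  have := finite_Wkd k d
  have := Fintype.ofFinite (Wkd k d)
  rw [nrel_add, cnt, Nat.card_eq_fintype_card]

lemma nrel_level_zero (k : ℕ) : nrel (fun l : Wkd k 0 => zt l.1) = 0 := by
  have h1 := nrel_cnt k 0
  have hs := subsingleton_W0 k
  have hf := finite_Wkd k 0
  have h2 : cnt k 0 ≤ 1 := Finite.card_le_one_iff_subsingleton.2 hs
  rcases isEmpty_or_nonempty (Wkd k 0) with he | ⟨⟨l⟩⟩
  · have : cnt k 0 = 0 := Nat.card_of_isEmpty
    omega
  · have i1 : FiniteDimensional ℚ (Submodule.span ℚ (Set.range fun l : Wkd k 0 => zt l.1)) :=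
      FiniteDimensional.span_of_finite ℚ (Set.finite_range _)
    have h3 : Submodule.span ℚ (Set.range fun l : Wkd k 0 => zt l.1) ≠ ⊥ := by
      intro h
      have h4 : zt l.1 ∈ Submodule.span ℚ (Set.range fun l : Wkd k 0 => zt l.1) :=
        Submodule.subset_span ⟨l, rfl⟩
      rw [h, Submodule.mem_bot] at h4
      exact (zt_pos l.2.1).ne' h4
    have h5 := Submodule.one_le_finrank_iff.2 h3
    omega

end

section

variable {σ : Type} (wt lv : σ → ℕ)

/-- the polynomials that are homogeneous of weight `k` and have level at most `d` -/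
noncomputable def F2 (k d : ℕ) : Submodule ℚ (MvPolynomial σ ℚ) := H wt k ⊓ L lv d

variable {wt lv} {x : σ → ℝ}

lemma F2_eq (k d : ℕ) : F2 wt lv k d =
    restrictSupport ℚ {m | Finsupp.weight wt m = k ∧ Finsupp.weight lv m ≤ d} := by
  ext f
  rw [F2, Submodule.mem_inf, H, L, mem_A, mem_A, mem_restrictSupport_iff]
  constructor
  · rintro ⟨h1, h2⟩ m hm
    have hm' : f.coeff m ≠ 0 := by simpa using hm
    exact ⟨h1 m hm', h2 m hm'⟩
  · intro h
    exact ⟨fun m hm => (h (show m ∈ (f.support : Set (σ →₀ ℕ)) by simpa using hm)).1,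
      fun m hm => (h (show m ∈ (f.support : Set (σ →₀ ℕ)) by simpa using hm)).2⟩

lemma finrank_F2 (h : ∀ k d, {m : σ →₀ ℕ | Finsupp.weight wt m = k ∧
    Finsupp.weight lv m ≤ d}.encard = (cnt k d : ℕ∞)) (k d : ℕ) :
    Module.finrank ℚ (F2 wt lv k d) = cnt k d := by
  rw [F2_eq]
  have h1 := Module.finrank_eq_nat_card_basis
    (basisRestrictSupport ℚ {m : σ →₀ ℕ | Finsupp.weight wt m = k ∧ Finsupp.weight lv m ≤ d})
  refine h1.trans ?_
  have h2 := h k d
  rw [Nat.card_coe_set_eq, Set.ncard_def, h2, ENat.toNat_natCast]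

lemma map_F2 (k d : ℕ) : (F2 wt lv k d).map (aeval (R := ℚ) x).toLinearMap =
    Submodule.span ℚ {y : ℝ | ∃ m : σ →₀ ℕ, Finsupp.weight wt m = k ∧
      Finsupp.weight lv m ≤ d ∧ y = m.prod fun s e => x s ^ e} := by
  rw [F2_eq, restrictSupport_eq_span, Submodule.map_span, ← Set.image_comp]
  congr 1
  ext y
  simp only [Set.mem_image, Set.mem_ofPred_eq]
  constructor
  · rintro ⟨m, hm, rfl⟩
    exact ⟨m, hm.1, hm.2, aeval_monomial_one m⟩
  · rintro ⟨m, hm, hm2, rfl⟩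
    exact ⟨m, ⟨hm, hm2⟩, aeval_monomial_one m⟩

lemma mul_mem_F2 (a b c d : ℕ) : ∀ p ∈ F2 wt lv a b, ∀ q ∈ F2 wt lv c d,
    p * q ∈ F2 wt lv (a + c) (b + d) := fun _ hp _ hq =>
  ⟨mul_mem_H _ _ _ hp.1 _ hq.1, mul_mem_L _ _ _ hp.2 _ hq.2⟩

lemma exact2_of {f : MvPolynomial σ ℚ} {n : ℕ} (hf : Exact (H wt) f n) :
    Exact2 (F2 wt lv) f n (T lv f).natDegree := by
  refine ⟨hf.1, ⟨hf.2.1, mem_L.2 le_rfl⟩, fun j i g hg hfg => ?_⟩
  obtain ⟨h1, h2⟩ := hf.2.2 j g hg hfg.1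
  obtain ⟨h3, h4⟩ := (exact_L (wt := lv) hf.1).2.2 i g hg hfg.2
  exact ⟨h1, h3, h2, h4⟩

end

/-- **The three cases for the relations between the Hoffman elements.** -/
theorem tri_lev {σ : Type} {wt lv : σ → ℕ} {x : σ → ℝ} (hG : Gens2 wt lv x) :
    (∀ k d, nrel (fun l : Wkd k d => zt l.1) = 0) ∨
    (∃ n e, 5 ≤ n ∧ 1 ≤ e ∧ ∀ k d, nrel (fun l : Wkd k d => zt l.1) = shD cnt n e k d) ∨
    (∃ n e m e', 5 ≤ n ∧ n ≤ m ∧ 1 ≤ e ∧ 1 ≤ e' ∧
      (∀ k < m, ∀ d, nrel (fun l : Wkd k d => zt l.1) = shD cnt n e k d) ∧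
      ∀ k d, shD cnt n e k d ≤ nrel (fun l : Wkd k d => zt l.1) ∧
        shD cnt n e k d + shD cnt m e' k d ≤
          nrel (fun l : Wkd k d => zt l.1) + shD cnt (n + m) (e + e') k d) := by
  obtain ⟨hlv, hc, hspan⟩ := hG
  have hle : ∀ m : σ →₀ ℕ, Finsupp.weight lv m ≤ Finsupp.weight wt m := by
    intro m
    rw [Finsupp.weight_apply, Finsupp.weight_apply]
    exact Finset.sum_le_sum fun s _ => Nat.mul_le_mul_left _ (hlv s)
  have hd : ∀ k, {m : σ →₀ ℕ | Finsupp.weight wt m = k}.encard = dz k := by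
    intro k
    rw [← cnt_self, ← hc k k]
    congr 1
    ext m
    simp only [Set.mem_ofPred_eq]
    exact ⟨fun h => ⟨h, (hle m).trans h.le⟩, fun h => h.1⟩
  set Z : ℕ → Submodule ℚ ℝ := fun k => Submodule.span ℚ (Set.range fun l : Wkd k k => zt l.1)
    with hZdef
  have hZ : ∀ k, Z k = Submodule.span ℚ {y : ℝ | ∃ m : σ →₀ ℕ, Finsupp.weight wt m = k ∧
      y = m.prod fun s e => x s ^ e} := by
    intro k
    refine (hspan k k).trans ?_
    congr 1
    ext y
    simp only [Set.mem_ofPred_eq]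
    exact ⟨fun ⟨m, h1, _, h2⟩ => ⟨m, h1, h2⟩, fun ⟨m, h1, h2⟩ => ⟨m, h1, (hle m).trans h1.le, h2⟩⟩
  have hZne : ∀ l : List ℕ, (∀ a ∈ l, a = 2 ∨ a = 3) → Z l.sum ≠ ⊥ := by
    intro l hl h
    have h1 : zt l ∈ Z l.sum := Submodule.subset_span ⟨⟨l, hl, rfl, count_le l hl⟩, rfl⟩
    rw [h, Submodule.mem_bot] at h1
    exact (zt_pos hl).ne' h1
  have h0 : Z 0 ≠ ⊥ := hZne [] (by simp)
  have h2 : Z 2 ≠ ⊥ := hZne [2] (by simp)
  have h3 : Z 3 ≠ ⊥ := hZne [3] (by simp)
  have h4 : Z 4 ≠ ⊥ := hZne [2, 2] (by simp)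
  have hfin : ∀ k, FiniteDimensional ℚ (H wt k) := finite_H hd
  have hfin2 : ∀ k d, FiniteDimensional ℚ (F2 wt lv k d) := fun k d =>
    Submodule.finiteDimensional_of_le (S₂ := H wt k) inf_le_left
  have hr : ∀ k d, nrel (fun l : Wkd k d => zt l.1) =
      Module.finrank ℚ (pt2 (F2 wt lv) (Ph wt x) k d) := by
    intro k d
    have e1 := nrel_cnt k d
    rw [hspan k d, ← map_F2] at e1
    have e2 := rank_nullity (F2 wt lv k d) (aeval (R := ℚ) x).toLinearMap
    have e3 : F2 wt lv k d ⊓ LinearMap.ker (aeval (R := ℚ) x).toLinearMap =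
        pt2 (F2 wt lv) (Ph wt x) k d := by
      ext f
      rw [Submodule.mem_inf, mem_pt2, LinearMap.mem_ker]
      constructor
      · rintro ⟨h5, h6⟩
        exact ⟨h5, (mem_Ph_of_mem_H h5.1).2 h6⟩
      · rintro ⟨h5, h6⟩
        exact ⟨h5, (mem_Ph_of_mem_H h5.1).1 h6⟩
    rw [e3, finrank_F2 hc] at e2
    omega
  have hlev : ∀ f : MvPolynomial σ ℚ, ∀ n, Exact (H wt) f n → f ∈ Ph wt x →
      1 ≤ (T lv f).natDegree := by
    intro f n hf hfP
    by_contra hc0
    have hz : (T lv f).natDegree = 0 := by omega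
    have h5 := finrank_pt2_ge mul_mem_F2 (finrank_F2 hc) (exact2_of (lv := lv) hf) hfP n 0
    rw [← hr, nrel_level_zero, hz, shD, if_pos ⟨le_rfl, le_rfl⟩] at h5
    simp only [Nat.sub_self] at h5
    have := cnt_zero_zero
    omega
  rcases tri_hom rfl hd hZ with
    ⟨hP, -⟩ | ⟨f, n, hf, -, he, hP, -⟩ | ⟨f, n, g, m, hnm, hf, hp, he, hg, hfg, he', h6, -, -⟩
  · refine Or.inl fun k d => ?_
    rw [hr]
    have : pt2 (F2 wt lv) (Ph wt x) k d = ⊥ := by
      rw [eq_bot_iff]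
      intro f hf
      have := (mem_pt2.1 hf).2
      rw [hP] at this
      simpa using this
    rw [this, finrank_bot]
  · refine Or.inr (Or.inl ⟨n, (T lv f).natDegree, five_le hd hZ h0 h2 h3 h4 hf he, hlev f n he hf,
      fun k d => ?_⟩)
    rw [hr, hP]
    exact finrank_pt2_span mul_mem_F2 (finrank_F2 hc) (exact2_of he) k d
  · refine Or.inr (Or.inr ⟨n, (T lv f).natDegree, m, (T lv g).natDegree,
      five_le hd hZ h0 h2 h3 h4 hf he, hnm, hlev f n he hf, hlev g m he' hg, fun k hk d => ?_,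
      fun k d => ⟨?_, ?_⟩⟩)
    · rw [hr, ← finrank_pt2_span mul_mem_F2 (finrank_F2 hc) (exact2_of (lv := lv) he) k d]
      have : pt2 (F2 wt lv) (Ph wt x) k d = pt2 (F2 wt lv) (Ideal.span {f}) k d := by
        ext a
        rw [mem_pt2, mem_pt2, Ideal.mem_span_singleton]
        constructor
        · exact fun h => ⟨h.1, h6 k hk a h.1.1 h.2⟩
        · exact fun h => ⟨h.1, Ideal.mem_of_dvd _ h.2 hf⟩
      rw [this]
    · rw [hr]
      exact finrank_pt2_ge mul_mem_F2 (finrank_F2 hc) (exact2_of he) hf k d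
    · rw [hr]
      exact finrank_pt2_ge_two mul_mem_F2 (finrank_F2 hc) (exact2_of he) (exact2_of he') hp hfg
        hf hg k d

end Pool.Agent.R390.MZ
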