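import Mathlib
import Pool.Agent.R390.MZ.Padic

set_option autoImplicit false

/-!
# Transfer of relations and the ideals of relations
-/

open MvPolynomial

namespace Pool.Agent.R390.MZ

/-- a model for motivic multiple zeta values: polynomials `mot s` in the variables `i : σ`, for all
admissible indices `s`, which generate the polynomial ring, and values `x i` in `ℝ` and `y i` in `K`
of the variables, for which `mot s` has the values `ζ(s)` and `zp s` -/
structure Motivic {K : Type} [Field K] [CharZero K] (zp : List ℕ → K) (σ : Type) where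
  /-- the polynomial `mot s` -/
  mot : List ℕ → MvPolynomial σ ℚ
  /-- the real values of the variables -/
  x : σ → ℝ
  /-- the values of the variables in `K` -/
  y : σ → K
  gen : Algebra.adjoin ℚ {f | ∃ l, Admissible l ∧ f = mot l} = ⊤
  real : ∀ l, Admissible l → aeval x (mot l) = zt l
  padic : ∀ l, Admissible l → aeval y (mot l) = zp l

section

variable {K : Type} [Field K] [CharZero K] {zp : List ℕ → K} {σ : Type} (M : Motivic zp σ)

lemma exists_Ix (f : MvPolynomial σ ℚ) :
    ∃ g : MvPolynomial Ix ℚ, aeval (fun i : Ix => M.mot i.1) g = f := by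
  have h : f ∈ Algebra.adjoin ℚ {f | ∃ l, Admissible l ∧ f = M.mot l} := by
    rw [M.gen]
    exact Algebra.mem_top
  have e : {f | ∃ l, Admissible l ∧ f = M.mot l} = Set.range fun i : Ix => M.mot i.1 := by
    ext f
    constructor
    · rintro ⟨l, hl, rfl⟩
      exact ⟨⟨l, hl⟩, rfl⟩
    · rintro ⟨i, rfl⟩
      exact ⟨i.1, i.2, rfl⟩
  rw [e, Algebra.adjoin_range_eq_range_aeval] at h
  exact h

lemma aeval_Ix_real (g : MvPolynomial Ix ℚ) :
    aeval M.x (aeval (fun i : Ix => M.mot i.1) g) = aeval (fun i : Ix => zt i.1) g := by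
  rw [← AlgHom.comp_apply, comp_aeval]
  have : (fun i : Ix => aeval M.x (M.mot i.1)) = fun i : Ix => zt i.1 :=
    funext fun i => M.real i.1 i.2
  rw [this]

lemma aeval_Ix_p (g : MvPolynomial Ix ℚ) :
    aeval M.y (aeval (fun i : Ix => M.mot i.1) g) = aeval (fun i : Ix => zp i.1) g := by
  rw [← AlgHom.comp_apply, comp_aeval]
  have : (fun i : Ix => aeval M.y (M.mot i.1)) = fun i : Ix => zp i.1 :=
    funext fun i => M.padic i.1 i.2
  rw [this]

theorem transfer_iff : Transfer zp ↔
    ∀ f : MvPolynomial σ ℚ, aeval M.x f = 0 → aeval M.y f = 0 := by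
  constructor
  · intro h f hf
    obtain ⟨g, rfl⟩ := exists_Ix M f
    rw [aeval_Ix_real] at hf
    rw [aeval_Ix_p]
    exact transfer_Ix h g hf
  · intro h m s hs f hf
    have h1 := h (aeval (fun i => M.mot (s i)) f) (by
      rw [← AlgHom.comp_apply, comp_aeval]
      have : (fun i => aeval M.x (M.mot (s i))) = fun i => zt (s i) :=
        funext fun i => M.real _ (hs i)
      rw [this]
      exact hf)
    rw [← AlgHom.comp_apply, comp_aeval] at h1
    have : (fun i => aeval M.y (M.mot (s i))) = fun i => zp (s i) :=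
      funext fun i => M.padic _ (hs i)
    rw [this] at h1
    exact h1

lemma zt_two_ne_zero : zt [2] ≠ 0 := by
  have ha : Pool.Agent.H447R2.MZ.Adm [2] := ⟨by simp, fun a t h => by simp at h; omega⟩
  rw [zt_eq_val ha, ← (Pool.Agent.H447R2.MZ.val_single 2 le_rfl).tsum_eq]
  exact (Pool.Agent.H447R2.MZ.zeta_pos 2 le_rfl).ne'

/-- an ideal generated by one element that is not a relation contains no nonzero prime ideal of
relations -/
theorem injective_of_le (h2 : zp [2] = 0) {q : MvPolynomial σ ℚ}
    (hq : ∀ f : MvPolynomial σ ℚ, aeval M.y f = 0 ↔ q ∣ f)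
    (h : ∀ f : MvPolynomial σ ℚ, aeval M.x f = 0 → aeval M.y f = 0) :
    Function.Injective (aeval (R := ℚ) M.x) := by
  have hx : aeval M.x q ≠ 0 := by
    intro h0
    obtain ⟨r, hr⟩ := (hq (M.mot [2])).1 (by rw [M.padic _ adm_two, h2])
    apply zt_two_ne_zero
    rw [← M.real _ adm_two, hr, map_mul, h0, zero_mul]
  have hq0 : q ≠ 0 := fun h0 => hx (by rw [h0, map_zero])
  have hdeg : 1 ≤ q.totalDegree := by
    by_contra hc
    have h1 : q.totalDegree = 0 := by omega
    rw [totalDegree_eq_zero_iff_eq_C] at h1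
    have h3 := (hq q).2 dvd_rfl
    rw [h1, aeval_C] at h3
    have h4 : q.coeff 0 = 0 := by
      rw [← map_zero (algebraMap ℚ K)] at h3
      exact (algebraMap ℚ K).injective h3
    rw [h4, map_zero] at h1
    exact hq0 h1
  rw [injective_iff_map_eq_zero]
  have key : ∀ n, ∀ f : MvPolynomial σ ℚ, f.totalDegree ≤ n → aeval M.x f = 0 → f = 0 := by
    intro n
    induction n with
    | zero =>
      intro f hf hfx
      by_contra hf0
      obtain ⟨g, rfl⟩ := (hq f).1 (h f hfx)
      rw [totalDegree_mul_of_isDomain hq0 (right_ne_zero_of_mul hf0)] at hf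
      omega
    | succ n ih =>
      intro f hf hfx
      by_contra hf0
      obtain ⟨g, rfl⟩ := (hq f).1 (h f hfx)
      have hg0 := right_ne_zero_of_mul hf0
      rw [totalDegree_mul_of_isDomain hq0 hg0] at hf
      rw [map_mul] at hfx
      exact hg0 (ih g (by omega) ((mul_eq_zero.1 hfx).resolve_left hx))
  exact fun f hf => key _ f le_rfl hf

end

end Pool.Agent.R390.MZ
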