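import Mathlib
import Pool.Agent.R390.MZ.PadicEq

set_option autoImplicit false

/-!
# Transfer of relations and algebraic independence
-/

open MvPolynomial

namespace Pool.Agent.R390.MZ

section

variable {K : Type} [Field K] [CharZero K] {zp : List ℕ → K} {ι : Type}

lemma six_zt_two : 6 * zt [2] = Real.pi ^ 2 := by
  have ha : Pool.Agent.H447R2.MZ.Adm [2] := ⟨by simp, fun a t h => by simp at h; omega⟩
  rw [zt_eq_val ha, ← (Pool.Agent.H447R2.MZ.val_single 2 le_rfl).tsum_eq,
    Pool.Agent.H447R2.MZ.zeta_two]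
  ring

lemma coeff_zero_of_transfer (h : Transfer zp) (h2 : zp [2] = 0) {s : ι → List ℕ}
    (hs : ∀ i, Admissible (s i)) (hp : AlgebraicIndependent ℚ fun i => zp (s i))
    (P : Polynomial (MvPolynomial ι ℚ))
    (hP : P.eval₂ (aeval (R := ℚ) fun i => zt (s i)).toRingHom (Real.pi ^ 2) = 0) :
    P.coeff 0 = 0 := by
  set g : MvPolynomial ι ℚ →+* MvPolynomial Ix ℚ :=
    (aeval (R := ℚ) fun i => (X ⟨s i, hs i⟩ : MvPolynomial Ix ℚ)).toRingHom with hg
  set F : MvPolynomial Ix ℚ := P.eval₂ g (C 6 * X ⟨[2], adm_two⟩) with hF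
  have e1 : ((aeval (R := ℚ) fun i : Ix => zt i.1).toRingHom.comp g) =
      (aeval (R := ℚ) fun i => zt (s i)).toRingHom := by
    refine MvPolynomial.ringHom_ext (fun r => ?_) (fun i => ?_)
    · simp [hg]
    · simp [hg]
  have e2 : ((aeval (R := ℚ) fun i : Ix => zp i.1).toRingHom.comp g) =
      (aeval (R := ℚ) fun i => zp (s i)).toRingHom := by
    refine MvPolynomial.ringHom_ext (fun r => ?_) (fun i => ?_)
    · simp [hg]
    · simp [hg]
  have h3 : aeval (fun i : Ix => zt i.1) F = 0 := by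
    have := Polynomial.hom_eval₂ P g (aeval (R := ℚ) fun i : Ix => zt i.1).toRingHom
      (C 6 * X ⟨[2], adm_two⟩)
    rw [e1] at this
    have e3 : (aeval (R := ℚ) fun i : Ix => zt i.1).toRingHom (C 6 * X ⟨[2], adm_two⟩) =
        Real.pi ^ 2 := by
      rw [← six_zt_two]
      simp
    rw [e3, hP] at this
    exact this
  have h4 := transfer_Ix h F h3
  have h5 := Polynomial.hom_eval₂ P g (aeval (R := ℚ) fun i : Ix => zp i.1).toRingHom
      (C 6 * X ⟨[2], adm_two⟩)
  rw [e2] at h5
  have e3 : (aeval (R := ℚ) fun i : Ix => zp i.1).toRingHom (C 6 * X ⟨[2], adm_two⟩) = 0 := by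
    simp [h2]
  rw [e3, Polynomial.eval₂_at_zero] at h5
  have h6 : aeval (fun i => zp (s i)) (P.coeff 0) = 0 := h5.symm.trans h4
  exact (algebraicIndependent_iff.1 hp) _ h6

lemma eq_zero_of_transfer (h : Transfer zp) (h2 : zp [2] = 0) {s : ι → List ℕ}
    (hs : ∀ i, Admissible (s i)) (hp : AlgebraicIndependent ℚ fun i => zp (s i)) :
    ∀ n, ∀ P : Polynomial (MvPolynomial ι ℚ), P.natDegree ≤ n →
    P.eval₂ (aeval (R := ℚ) fun i => zt (s i)).toRingHom (Real.pi ^ 2) = 0 → P = 0 := by
  intro n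
  induction n with
  | zero =>
    intro P hn hP
    have h0 := coeff_zero_of_transfer h h2 hs hp P hP
    rw [Polynomial.eq_C_of_natDegree_le_zero hn, h0, map_zero]
  | succ n ih =>
    intro P hn hP
    have h0 := coeff_zero_of_transfer h h2 hs hp P hP
    have h1 := Polynomial.divX_mul_X_add P
    rw [h0, map_zero, add_zero] at h1
    have h3 : P.divX.eval₂ (aeval (R := ℚ) fun i => zt (s i)).toRingHom (Real.pi ^ 2) = 0 := by
      rw [← h1, Polynomial.eval₂_mul, Polynomial.eval₂_X] at hP
      exact (mul_eq_zero.1 hP).resolve_right (pow_ne_zero _ Real.pi_ne_zero)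
    have h4 := ih P.divX (by rw [Polynomial.natDegree_divX_eq_natDegree_tsub_one]; omega) h3
    rw [← h1, h4, zero_mul]

/-- **Algebraic independence transfers back, with `π ^ 2` added.** -/
theorem algebraicIndependent_of_transfer (h : Transfer zp) (h2 : zp [2] = 0) {s : ι → List ℕ}
    (hs : ∀ i, Admissible (s i)) (hp : AlgebraicIndependent ℚ fun i => zp (s i)) :
    AlgebraicIndependent ℚ fun o : Option ι => o.elim (Real.pi ^ 2) fun i => zt (s i) := by
  rw [algebraicIndependent_iff]
  intro p hp0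
  have e : (aeval (R := ℚ) fun o : Option ι => o.elim (Real.pi ^ 2) fun i => zt (s i)).toRingHom =
      (Polynomial.eval₂RingHom (aeval (R := ℚ) fun i => zt (s i)).toRingHom (Real.pi ^ 2)).comp
        (optionEquivLeft ℚ ι).toAlgHom.toRingHom := by
    refine MvPolynomial.ringHom_ext (fun r => ?_) (fun o => ?_)
    · simp
    · cases o with
      | none => simp
      | some i => simp
  have h1 := eq_zero_of_transfer h h2 hs hp _ (optionEquivLeft ℚ ι p) le_rfl (by
    have := congrArg (fun φ : MvPolynomial (Option ι) ℚ →+* ℝ => φ p) e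
    exact this.symm.trans hp0)
  exact (map_eq_zero_iff _ (optionEquivLeft ℚ ι).injective).1 h1

end

end Pool.Agent.R390.MZ
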