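import Mathlib
import Pool.Agent.R390.MZ.Defs

set_option autoImplicit false

/-!
# The ring of motivic periods of mixed Tate motives over the integers with its period map
-/

open MvPolynomial

namespace Pool.Agent.R390.MZ

/-- A model for the ring `R` of the motivic periods of mixed Tate motives over the integers and its
period map `per`: the polynomial ring of the motivic multiple zeta values is a subring, the variables
`s : σ` have real periods `x s`, there is a unit `L` with the period `2 * π * i`, and every element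
of `R` is `L ^ (-N) * (a + b * L)` with motivic multiple zeta values `a`, `b` -/
structure PeriodRing (R : Type) [CommRing R] [Algebra ℚ R] (σ : Type) where
  /-- the period map -/
  per : R →ₐ[ℚ] ℂ
  /-- the inclusion of the ring of motivic multiple zeta values -/
  mot : MvPolynomial σ ℚ →ₐ[ℚ] R
  mot_injective : Function.Injective mot
  /-- the real periods of the variables -/
  x : σ → ℝ
  per_mot : ∀ f, per (mot f) = ((aeval x f : ℝ) : ℂ)
  /-- the Lefschetz motivic period -/
  L : Rˣ
  per_L : per L = 2 * Real.pi * Complex.I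
  gen : ∀ r : R, ∃ (N : ℕ) (a b : MvPolynomial σ ℚ), (L : R) ^ N * r = mot a + mot b * L

/-- the `ℚ`-linear inclusion of `ℝ` in `ℂ` -/
noncomputable def reL : ℝ →ₗ[ℚ] ℂ := (Algebra.linearMap ℝ ℂ).restrictScalars ℚ

/-- the `ℚ`-linear map `y ↦ 2 * π * i * y` from `ℝ` to `ℂ` -/
noncomputable def imL : ℝ →ₗ[ℚ] ℂ := (LinearMap.mulLeft ℚ (2 * Real.pi * Complex.I)) ∘ₗ reL

/-- the complex numbers `a + 2 * π * i * b`, where `a` is in the sum of the `Z j` with `j ≤ k` and `b`
in the sum of the `Z j` with `j < k` -/
noncomputable def CP (Z : ℕ → Submodule ℚ ℝ) (k : ℕ) : Submodule ℚ ℂ :=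
  (⨆ j ∈ Set.Iic k, Z j).map reL ⊔ (⨆ j ∈ Set.Iio k, Z j).map imL

/-- `1, 1, 1, 2, 2, 3, 4, ...`: the sequence `dz k + dz (k - 1)` -/
def eff : ℕ → ℕ
  | 0 => 1
  | k + 1 => dz (k + 1) + dz k

end Pool.Agent.R390.MZ
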