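import Mathlib
import Pool.Agent.R390.MZ.PerDefs
import Pool.Agent.R390.MZ.Hoff

set_option autoImplicit false

/-!
# The kernel of the period map
-/

open MvPolynomial

namespace Pool.Agent.R390.MZ

lemma reL_apply (y : ℝ) : reL y = (y : ℂ) := rfl

lemma imL_apply (y : ℝ) : imL y = 2 * Real.pi * Complex.I * (y : ℂ) := rfl

lemma reL_injective : Function.Injective reL := fun a b h => by
  rw [reL_apply, reL_apply] at h
  exact_mod_cast h

lemma two_pi_I_ne : (2 * Real.pi * Complex.I : ℂ) ≠ 0 := Complex.two_pi_I_ne_zero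

lemma imL_injective : Function.Injective imL := fun a b h => by
  rw [imL_apply, imL_apply] at h
  have := mul_left_cancel₀ two_pi_I_ne h
  exact_mod_cast this

/-- real and imaginary parts -/
lemma re_im {a b : ℝ} (h : (a : ℂ) + (b : ℂ) * (2 * Real.pi * Complex.I) = 0) : a = 0 ∧ b = 0 := by
  have h1 := congrArg Complex.re h
  have h2 := congrArg Complex.im h
  simp [Real.pi_ne_zero] at h1 h2
  exact ⟨h1, h2⟩

lemma sumTo_eff_succ (k : ℕ) : sumTo eff (k + 1) = sumTo dz (k + 1) + sumTo dz k := by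
  induction k with
  | zero => rfl
  | succ k ih =>
    have e1 : sumTo eff (k + 1 + 1) = sumTo eff (k + 1) + eff (k + 1 + 1) :=
      Finset.sum_range_succ _ _
    have e2 : sumTo dz (k + 1 + 1) = sumTo dz (k + 1) + dz (k + 1 + 1) :=
      Finset.sum_range_succ _ _
    have e3 : sumTo dz (k + 1) = sumTo dz k + dz (k + 1) := Finset.sum_range_succ _ _
    have e4 : eff (k + 1 + 1) = dz (k + 1 + 1) + dz (k + 1) := rfl
    omega

lemma sh_eff (n k : ℕ) : sh (sumTo eff) n (k + 1) = sh (sumTo dz) n (k + 1) + sh (sumTo dz) n k := by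
  unfold sh
  rcases Nat.lt_or_ge k n with h | h
  · rw [if_neg (by omega : ¬ n ≤ k), add_zero]
    split_ifs with h2
    · have h3 : k + 1 - n = 0 := by omega
      rw [h3]
      rfl
    · rfl
  · rw [if_pos (by omega), if_pos (by omega), if_pos h, show k + 1 - n = (k - n) + 1 by omega,
      sumTo_eff_succ]

lemma sh_eff_zero (n : ℕ) : sh (sumTo eff) n 0 = sh (sumTo dz) n 0 := by
  unfold sh
  split_ifs with h
  · have h3 : 0 - n = 0 := by omega
    rw [h3]
    rfl
  · rfl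

section

variable {Z : ℕ → Submodule ℚ ℝ}

lemma finrank_CP (hf : ∀ k, FiniteDimensional ℚ ↥(⨆ j ∈ Set.Iic k, Z j)) (k : ℕ) :
    Module.finrank ℚ (CP Z k) = Module.finrank ℚ ↥(⨆ j ∈ Set.Iic k, Z j) +
      Module.finrank ℚ ↥(⨆ j ∈ Set.Iio k, Z j) := by
  have i1 := hf k
  have i2 : FiniteDimensional ℚ ↥(⨆ j ∈ Set.Iio k, Z j) :=
    Submodule.finiteDimensional_of_le (S₂ := ⨆ j ∈ Set.Iic k, Z j)
      (biSup_mono fun j hj => Set.mem_Iic.2 (le_of_lt (Set.mem_Iio.1 hj)))
  have h1 := Submodule.finrank_sup_add_finrank_inf_eq ((⨆ j ∈ Set.Iic k, Z j).map reL)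
    ((⨆ j ∈ Set.Iio k, Z j).map imL)
  have h2 : (⨆ j ∈ Set.Iic k, Z j).map reL ⊓ (⨆ j ∈ Set.Iio k, Z j).map imL = ⊥ := by
    rw [eq_bot_iff]
    rintro z ⟨⟨a, -, ha⟩, b, -, hb⟩
    rw [reL_apply] at ha
    rw [imL_apply] at hb
    have h3 : (a : ℂ) + ((-b : ℝ) : ℂ) * (2 * Real.pi * Complex.I) = 0 := by
      rw [ha, ← hb]
      push_cast
      ring
    have h4 := (re_im h3).1
    rw [Submodule.mem_bot, ← ha, h4]
    rfl
  rw [h2, finrank_bot, add_zero,
    ← (Submodule.equivMapOfInjective _ reL_injective _).finrank_eq,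
    ← (Submodule.equivMapOfInjective _ imL_injective _).finrank_eq] at h1
  exact h1

lemma finrank_CP_succ (hf : ∀ k, FiniteDimensional ℚ ↥(⨆ j ∈ Set.Iic k, Z j)) (k : ℕ) :
    Module.finrank ℚ (CP Z (k + 1)) = Module.finrank ℚ ↥(⨆ j ∈ Set.Iic (k + 1), Z j) +
      Module.finrank ℚ ↥(⨆ j ∈ Set.Iic k, Z j) := by
  rw [finrank_CP hf]
  have : Set.Iio (k + 1) = Set.Iic k := by
    ext j
    simp
  rw [this]

lemma finrank_CP_zero (hf : ∀ k, FiniteDimensional ℚ ↥(⨆ j ∈ Set.Iic k, Z j)) :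
    Module.finrank ℚ (CP Z 0) = Module.finrank ℚ ↥(⨆ j ∈ Set.Iic 0, Z j) := by
  rw [finrank_CP hf]
  have : (⨆ j ∈ Set.Iio 0, Z j) = ⊥ := by simp
  rw [this, finrank_bot, add_zero]

end

section

variable {R : Type} [CommRing R] [Algebra ℚ R] {σ : Type} (M : PeriodRing R σ)

lemma per_zero {r : R} {N : ℕ} {a b : MvPolynomial σ ℚ}
    (h : (M.L : R) ^ N * r = M.mot a + M.mot b * M.L) (hr : M.per r = 0) :
    aeval M.x a = 0 ∧ aeval M.x b = 0 := by
  have h1 := congrArg M.per h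
  rw [map_mul, hr, mul_zero, map_add, map_mul, M.per_mot, M.per_mot, M.per_L] at h1
  exact re_im h1.symm

lemma per_injective (h : Pf M.x = ⊥) : Function.Injective M.per := by
  rw [injective_iff_map_eq_zero]
  intro r hr
  obtain ⟨N, a, b, hab⟩ := M.gen r
  obtain ⟨ha, hb⟩ := per_zero M hab hr
  have ha' : a ∈ Pf M.x := mem_Pf.2 ha
  have hb' : b ∈ Pf M.x := mem_Pf.2 hb
  rw [h, Submodule.mem_bot] at ha' hb'
  rw [ha', hb', map_zero, zero_mul, add_zero] at hab
  exact ((M.L.isUnit.pow N).mul_right_eq_zero).1 hab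

lemma ker_per {f : MvPolynomial σ ℚ} (h : Pf M.x = Ideal.span {f}) :
    RingHom.ker M.per = Ideal.span {M.mot f} := by
  refine le_antisymm (fun r hr => ?_) ?_
  · obtain ⟨N, a, b, hab⟩ := M.gen r
    obtain ⟨ha, hb⟩ := per_zero M hab hr
    have ha' : a ∈ Pf M.x := mem_Pf.2 ha
    have hb' : b ∈ Pf M.x := mem_Pf.2 hb
    rw [h, Ideal.mem_span_singleton] at ha' hb'
    obtain ⟨a', rfl⟩ := ha'
    obtain ⟨b', rfl⟩ := hb'
    have h1 : (M.L : R) ^ N * r ∈ Ideal.span {M.mot f} := by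
      rw [hab, map_mul, map_mul, Ideal.mem_span_singleton]
      exact ⟨M.mot a' + M.mot b' * M.L, by ring⟩
    exact (Ideal.unit_mul_mem_iff_mem _ (M.L.isUnit.pow N)).1 h1
  · rw [Ideal.span_singleton_le_iff_mem, RingHom.mem_ker]
    have hf : aeval M.x f = 0 := by
      rw [← mem_Pf, h]
      exact Ideal.mem_span_singleton_self f
    show M.per (M.mot f) = 0
    rw [M.per_mot, hf, Complex.ofReal_zero]

end

/-- **The three cases for the kernel of the period map.** -/
theorem tri_per {R : Type} [CommRing R] [Algebra ℚ R] {σ : Type} (M : PeriodRing R σ)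
    {wt : σ → ℕ} (hB : Gens ZL dz wt M.x) :
    (Function.Injective M.per ∧ ∀ k, Module.finrank ℚ (CP ZL k) = sumTo eff k) ∨
    (∃ f n, 1 ≤ n ∧ Prime f ∧ RingHom.ker M.per = Ideal.span {M.mot f} ∧
      ∀ k, Module.finrank ℚ (CP ZL k) + sh (sumTo eff) n k = sumTo eff k) ∨
    (∃ f g n m, 1 ≤ n ∧ n ≤ m ∧ Prime f ∧ ¬ f ∣ g ∧ M.per (M.mot f) = 0 ∧ M.per (M.mot g) = 0 ∧
      (∀ k < m, Module.finrank ℚ (CP ZL k) + sh (sumTo eff) n k = sumTo eff k) ∧
      ∀ k, Module.finrank ℚ (CP ZL k) + sh (sumTo eff) n k ≤ sumTo eff k ∧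
        Module.finrank ℚ (CP ZL k) + sh (sumTo eff) n k + sh (sumTo eff) m k ≤
          sumTo eff k + sh (sumTo eff) (n + m) k) := by
  obtain ⟨hd, hZ⟩ := hB
  have hf : ∀ k, FiniteDimensional ℚ ↥(⨆ j ∈ Set.Iic k, ZL j) := fun k => by
    have := finite_L hd k
    rw [iSup_Z_eq hZ]
    infer_instance
  have h0 : ZL 0 ≠ ⊥ := ZL_ne_bot (by norm_num)
  have hm : ∀ f, f ∈ Pf M.x → M.per (M.mot f) = 0 := fun f hf => by
    rw [M.per_mot, mem_Pf.1 hf, Complex.ofReal_zero]
  have c0 := finrank_CP_zero hf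
  have cs := finrank_CP_succ hf
  have s0 : sumTo eff 0 = sumTo dz 0 := rfl
  rcases tri_full rfl hd hZ with
    ⟨hP, h⟩ | ⟨f, n, hfP, hp, he, hP, h⟩ | ⟨f, n, g, m, hnm, hfP, hp, he, hg, hfg, he', -, h5, h⟩
  · refine Or.inl ⟨per_injective M hP, fun k => ?_⟩
    match k with
    | 0 => rw [c0, s0, h]
    | k + 1 => rw [cs, sumTo_eff_succ, h, h]
  · refine Or.inr (Or.inl ⟨f, n, one_le_full hd hZ h0 hfP he, hp, ker_per M hP, fun k => ?_⟩)
    match k with
    | 0 =>
      have := h 0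
      rw [c0, s0, sh_eff_zero]
      exact this
    | k + 1 =>
      have h1 := h (k + 1)
      have h2 := h k
      rw [cs, sumTo_eff_succ, sh_eff]
      omega
  · refine Or.inr (Or.inr ⟨f, g, n, m, one_le_full hd hZ h0 hfP he, hnm, hp, hfg, hm f hfP,
      hm g hg, fun k hk => ?_, fun k => ?_⟩)
    · match k with
      | 0 =>
        have := h5 0 hk
        rw [c0, s0, sh_eff_zero]
        exact this
      | k + 1 =>
        have h1 := h5 (k + 1) hk
        have h2 := h5 k (by omega)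
        rw [cs, sumTo_eff_succ, sh_eff]
        omega
    · match k with
      | 0 =>
        have := h 0
        rw [c0, s0, sh_eff_zero, sh_eff_zero, sh_eff_zero]
        exact this
      | k + 1 =>
        have h1 := h (k + 1)
        have h2 := h k
        rw [cs, sumTo_eff_succ, sh_eff, sh_eff, sh_eff]
        constructor <;> omega

end Pool.Agent.R390.MZ
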