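import Mathlib
import Pool.Agent.R390.MZ.Per
import Pool.Agent.R390.MZ.Super

set_option autoImplicit false

/-!
# The kernel of a period map for an arbitrary Hilbert function
-/

open MvPolynomial

namespace Pool.Agent.R390.MZ

/-- the sequence `d 0`, `d k + d (k - 1)` -/
def effD (d : ℕ → ℕ) : ℕ → ℕ
  | 0 => d 0
  | k + 1 => d (k + 1) + d k

lemma sumTo_effD_succ (d : ℕ → ℕ) (k : ℕ) :
    sumTo (effD d) (k + 1) = sumTo d (k + 1) + sumTo d k := by
  induction k with
  | zero =>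
    simp only [sumTo, Finset.sum_range_succ, Finset.sum_range_zero, effD]
    ring
  | succ k ih =>
    have e1 : sumTo (effD d) (k + 1 + 1) = sumTo (effD d) (k + 1) + effD d (k + 1 + 1) :=
      Finset.sum_range_succ _ _
    have e2 : sumTo d (k + 1 + 1) = sumTo d (k + 1) + d (k + 1 + 1) := Finset.sum_range_succ _ _
    have e3 : sumTo d (k + 1) = sumTo d k + d (k + 1) := Finset.sum_range_succ _ _
    have e4 : effD d (k + 1 + 1) = d (k + 1 + 1) + d (k + 1) := rfl
    omega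

lemma sumTo_effD_zero (d : ℕ → ℕ) : sumTo (effD d) 0 = sumTo d 0 := by
  simp only [sumTo, Finset.sum_range_succ, Finset.sum_range_zero, effD]

lemma sh_effD (d : ℕ → ℕ) (n k : ℕ) :
    sh (sumTo (effD d)) n (k + 1) = sh (sumTo d) n (k + 1) + sh (sumTo d) n k := by
  unfold sh
  rcases Nat.lt_or_ge k n with h | h
  · rw [if_neg (by omega : ¬ n ≤ k), add_zero]
    split_ifs with h2
    · have h3 : k + 1 - n = 0 := by omega
      rw [h3, sumTo_effD_zero]
    · rfl
  · rw [if_pos (by omega), if_pos (by omega), if_pos h, show k + 1 - n = (k - n) + 1 by omega,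
      sumTo_effD_succ]

lemma sh_effD_zero (d : ℕ → ℕ) (n : ℕ) : sh (sumTo (effD d)) n 0 = sh (sumTo d) n 0 := by
  unfold sh
  split_ifs with h
  · have h3 : 0 - n = 0 := by omega
    rw [h3, sumTo_effD_zero]
  · rfl

section

variable {σ : Type} {wt : σ → ℕ} {x : σ → ℝ} {Z : ℕ → Submodule ℚ ℝ} {d : ℕ → ℕ}

lemma one_le_fullD (h00 : d 0 = 1)
    (hd : ∀ k, {m : σ →₀ ℕ | Finsupp.weight wt m = k}.encard = d k)
    (hZ : ∀ k, Z k = Submodule.span ℚ {y : ℝ | ∃ m : σ →₀ ℕ, Finsupp.weight wt m = k ∧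
      y = m.prod fun s e => x s ^ e}) (h0 : Z 0 ≠ ⊥)
    {p : MvPolynomial σ ℚ} {j : ℕ} (hp : p ∈ Pf x) (hj : Exact (L wt) p j) : 1 ≤ j := by
  by_contra hc
  have h0' : j = 0 := by omega
  subst h0'
  have i := finite_L hd
  have i1 : FiniteDimensional ℚ ↥(⨆ j ∈ Set.Iic 0, Z j) := by
    rw [iSup_Z_eq hZ]
    infer_instance
  have h3 : Module.finrank ℚ ↥(⨆ j ∈ Set.Iic 0, Z j) ≠ 0 := by
    intro h
    rw [Submodule.finrank_eq_zero] at h
    have h1 : Z 0 ≤ ⨆ j ∈ Set.Iic 0, Z j := le_iSup₂_of_le 0 (by simp) le_rfl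
    rw [h, le_bot_iff] at h1
    exact h0 h1
  have h1 := finrank_pt_ge mul_mem_L (finrank_L hd) hj hp 0
  have h2 := finrank_map_add (finrank_L hd) (MvPolynomial.aeval (R := ℚ) x).toLinearMap
    (P := Pf x) (k := 0) (fun f _ => mem_Pf)
  rw [← iSup_Z_eq hZ] at h2
  have h9 : sumTo d 0 = 1 := by
    simp only [sumTo, Finset.sum_range_succ, Finset.sum_range_zero, h00]
  have h4 : sh (sumTo d) 0 0 = 1 := by
    rw [sh, if_pos le_rfl, Nat.sub_self, h9]
  omega

/-- the full numbers of relations -/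
theorem super_fullD (h00 : d 0 = 1)
    (hd : ∀ k, {m : σ →₀ ℕ | Finsupp.weight wt m = k}.encard = d k)
    (hZ : ∀ k, Z k = Submodule.span ℚ {y : ℝ | ∃ m : σ →₀ ℕ, Finsupp.weight wt m = k ∧
      y = m.prod fun s e => x s ^ e}) {i j : ℕ} (hj0 : 1 ≤ j) (hi : Z i ≠ ⊥) (hj : Z j ≠ ⊥) (k : ℕ) :
    Module.finrank ℚ (pt (L wt) (Pf x) (k + i)) + Module.finrank ℚ (pt (L wt) (Pf x) (k + j)) ≤
      Module.finrank ℚ (pt (L wt) (Pf x) (k + i + j)) + Module.finrank ℚ (pt (L wt) (Pf x) k) := by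
  have := finite_L hd
  obtain ⟨u, hu, hux⟩ := exists_lift hZ hi
  obtain ⟨w, hw, hwx⟩ := exists_lift hZ hj
  have hu0 : u ≠ 0 := fun h => hux (by rw [h, map_zero])
  have hw0 : w ≠ 0 := fun h => hwx (by rw [h, map_zero])
  have hr : ∃ r : ℚ, r ≠ 0 ∧ aeval x (w + C r) ≠ 0 := by
    by_cases h1 : aeval x (w + C 1) = 0
    · refine ⟨2, two_ne_zero, fun h2 => ?_⟩
      rw [map_add, aeval_C] at h1 h2
      have h3 : (algebraMap ℚ ℝ) 1 = (algebraMap ℚ ℝ) 2 := by linarith
      rw [(algebraMap ℚ ℝ).injective.eq_iff] at h3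
      norm_num at h3
    · exact ⟨1, one_ne_zero, h1⟩
  obtain ⟨r, hr0, hrx⟩ := hr
  have hC : T wt (C r : MvPolynomial σ ℚ) = Polynomial.monomial 0 (C r) := by
    have := T_monomial (wt := wt) 0 r
    rw [map_zero] at this
    exact this
  have hTv : T wt (w + C r) = Polynomial.monomial j w + Polynomial.monomial 0 (C r) := by
    rw [map_add, mem_H.1 hw, hC]
  have hv0 : w + C r ≠ 0 := fun h => hrx (by rw [h, map_zero])
  have hTu : (T wt u).natDegree = i := by
    classical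
    rw [mem_H.1 hu, Polynomial.natDegree_monomial, if_neg hu0]
  have hdv : (T wt (w + C r)).natDegree = j := by
    rw [hTv]
    refine le_antisymm ?_ ?_
    · refine (Polynomial.natDegree_add_le _ _).trans (max_le (Polynomial.natDegree_monomial_le _) ?_)
      exact (Polynomial.natDegree_monomial_le _).trans (by omega)
    · refine Polynomial.le_natDegree_of_ne_zero ?_
      rw [Polynomial.coeff_add, Polynomial.coeff_monomial, Polynomial.coeff_monomial, if_pos rfl,
        if_neg (by omega), add_zero]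
      exact hw0
  have eu : Exact (L wt) u i := by
    have := exact_L (wt := wt) hu0
    rwa [hTu] at this
  have ev : Exact (L wt) (w + C r) j := by
    have := exact_L (wt := wt) hv0
    rwa [hdv] at this
  have hvP : w + C r ∉ Pf x := fun h => hrx (mem_Pf.1 h)
  refine supermod mul_mem_L inferInstance eu ev hvP (fun a ha => ?_) k
  have hrel : IsRelPrime (w + C r) u := by
    intro p hp1 hp2
    obtain ⟨l, hl⟩ := exists_mem_H_of_dvd hu hu0 hp2
    rcases Nat.eq_zero_or_pos l with h0 | h0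
    · subst h0
      refine isUnit_of_weight_zero hd h00 (fun m hm => ?_) (fun h => hu0 ?_)
      · rw [H, mem_A] at hl
        exact hl m hm
      · rw [h] at hp2
        exact zero_dvd_iff.1 hp2
    · exfalso
      have h1 := coeff_T_zero_of_dvd h0 hl hp1
      rw [hTv, Polynomial.coeff_add, Polynomial.coeff_monomial, Polynomial.coeff_monomial,
        if_neg (by omega), if_pos rfl, zero_add] at h1
      exact hr0 (C_eq_zero.1 h1)
  exact hrel.dvd_of_dvd_mul_left ha

lemma finite_iSup (hd : ∀ k, {m : σ →₀ ℕ | Finsupp.weight wt m = k}.encard = d k)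
    (hZ : ∀ k, Z k = Submodule.span ℚ {y : ℝ | ∃ m : σ →₀ ℕ, Finsupp.weight wt m = k ∧
      y = m.prod fun s e => x s ^ e}) (k : ℕ) : FiniteDimensional ℚ ↥(⨆ j ∈ Set.Iic k, Z j) := by
  have := finite_L hd k
  rw [iSup_Z_eq hZ]
  infer_instance

end

/-- **The three cases for the kernel of the period map.** -/
theorem tri_perD {R : Type} [CommRing R] [Algebra ℚ R] {σ : Type} (M : PeriodRing R σ)
    {wt : σ → ℕ} {d : ℕ → ℕ} (h00 : d 0 = 1) (hB : Gens ZL d wt M.x) :
    (Function.Injective M.per ∧ ∀ k, Module.finrank ℚ (CP ZL k) = sumTo (effD d) k) ∨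
    (∃ f n, 1 ≤ n ∧ Prime f ∧ RingHom.ker M.per = Ideal.span {M.mot f} ∧
      ∀ k, Module.finrank ℚ (CP ZL k) + sh (sumTo (effD d)) n k = sumTo (effD d) k) ∨
    (∃ f g n m, 1 ≤ n ∧ n ≤ m ∧ Prime f ∧ ¬ f ∣ g ∧ M.per (M.mot f) = 0 ∧ M.per (M.mot g) = 0 ∧
      (∀ k < m, Module.finrank ℚ (CP ZL k) + sh (sumTo (effD d)) n k = sumTo (effD d) k) ∧
      ∀ k, Module.finrank ℚ (CP ZL k) + sh (sumTo (effD d)) n k ≤ sumTo (effD d) k ∧
        Module.finrank ℚ (CP ZL k) + sh (sumTo (effD d)) n k + sh (sumTo (effD d)) m k ≤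
          sumTo (effD d) k + sh (sumTo (effD d)) (n + m) k) := by
  obtain ⟨hd, hZ⟩ := hB
  have hf := finite_iSup hd hZ
  have h0 : ZL 0 ≠ ⊥ := ZL_ne_bot (by norm_num)
  have hm : ∀ f, f ∈ Pf M.x → M.per (M.mot f) = 0 := fun f hf => by
    rw [M.per_mot, mem_Pf.1 hf, Complex.ofReal_zero]
  have c0 := finrank_CP_zero hf
  have cs := finrank_CP_succ hf
  have s0 := sumTo_effD_zero d
  rcases tri_full h00 hd hZ with
    ⟨hP, h⟩ | ⟨f, n, hfP, hp, he, hP, h⟩ | ⟨f, n, g, m, hnm, hfP, hp, he, hg, hfg, he', -, h5, h⟩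
  · refine Or.inl ⟨per_injective M hP, fun k => ?_⟩
    match k with
    | 0 => rw [c0, s0, h]
    | k + 1 => rw [cs, sumTo_effD_succ, h, h]
  · refine Or.inr (Or.inl ⟨f, n, one_le_fullD h00 hd hZ h0 hfP he, hp, ker_per M hP, fun k => ?_⟩)
    match k with
    | 0 =>
      have := h 0
      rw [c0, s0, sh_effD_zero]
      exact this
    | k + 1 =>
      have h1 := h (k + 1)
      have h2 := h k
      rw [cs, sumTo_effD_succ, sh_effD]
      omega
  · refine Or.inr (Or.inr ⟨f, g, n, m, one_le_fullD h00 hd hZ h0 hfP he, hnm, hp, hfg, hm f hfP,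
      hm g hg, fun k hk => ?_, fun k => ?_⟩)
    · match k with
      | 0 =>
        have := h5 0 hk
        rw [c0, s0, sh_effD_zero]
        exact this
      | k + 1 =>
        have h1 := h5 (k + 1) hk
        have h2 := h5 k (by omega)
        rw [cs, sumTo_effD_succ, sh_effD]
        omega
    · match k with
      | 0 =>
        have := h 0
        rw [c0, s0, sh_effD_zero, sh_effD_zero, sh_effD_zero]
        exact this
      | k + 1 =>
        have h1 := h (k + 1)
        have h2 := h k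
        rw [cs, sumTo_effD_succ, sh_effD, sh_effD, sh_effD]
        constructor <;> omega

/-- the defect `E_k - dim C_k` is supermodular -/
theorem super_perD {σ : Type} {x : σ → ℝ} {wt : σ → ℕ} {d : ℕ → ℕ} (h00 : d 0 = 1)
    (hB : Gens ZL d wt x) {i j : ℕ} (hi : 2 ≤ i) (hj : 2 ≤ j) (k : ℕ) :
    ((sumTo (effD d) (k + 1 + i) : ℤ) - Module.finrank ℚ (CP ZL (k + 1 + i))) +
      ((sumTo (effD d) (k + 1 + j) : ℤ) - Module.finrank ℚ (CP ZL (k + 1 + j))) ≤
    ((sumTo (effD d) (k + 1 + i + j) : ℤ) - Module.finrank ℚ (CP ZL (k + 1 + i + j))) +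
      ((sumTo (effD d) (k + 1) : ℤ) - Module.finrank ℚ (CP ZL (k + 1))) := by
  obtain ⟨hd, hZ⟩ := hB
  have hf := finite_iSup hd hZ
  have hL := finite_L hd
  have cs := finrank_CP_succ hf
  have hi' : ZL i ≠ ⊥ := ZL_ne_bot (by omega)
  have hj' : ZL j ≠ ⊥ := ZL_ne_bot (by omega)
  have h1 := super_fullD h00 hd hZ (by omega) hi' hj' k
  have h2 := super_fullD h00 hd hZ (by omega) hi' hj' (k + 1)
  have e : ∀ l, Module.finrank ℚ ↥(⨆ j ∈ Set.Iic l, ZL j) +
      Module.finrank ℚ (pt (L wt) (Pf x) l) = sumTo d l := by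
    intro l
    have h3 := finrank_map_add (finrank_L hd) (MvPolynomial.aeval (R := ℚ) x).toLinearMap
      (P := Pf x) (k := l) (fun f _ => mem_Pf)
    rw [← iSup_Z_eq hZ] at h3
    exact h3
  have e1 := e (k + i + 1)
  have e2 := e (k + i)
  have e3 := e (k + j + 1)
  have e4 := e (k + j)
  have e5 := e (k + i + j + 1)
  have e6 := e (k + i + j)
  have e7 := e (k + 1)
  have e8 := e k
  rw [show k + 1 + i + j = k + i + j + 1 by ring, show k + 1 + i = k + i + 1 by ring,
    show k + 1 + j = k + j + 1 by ring, cs, cs, cs, cs, sumTo_effD_succ, sumTo_effD_succ,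
    sumTo_effD_succ, sumTo_effD_succ]
  rw [show k + 1 + i + j = k + i + j + 1 by ring, show k + 1 + i = k + i + 1 by ring,
    show k + 1 + j = k + j + 1 by ring] at h2
  omega

end Pool.Agent.R390.MZ
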