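import Mathlib
import Pool.Agent.R390.MZ.Low
import Pool.Agent.R390.MZ.GapDefs

set_option autoImplicit false

/-!
# Polynomial rings with more generators: a positive proportion of additional monomials
-/

namespace Pool.Agent.R390.MZ

lemma dz_succ_le (p : ℕ) : dz (p + 3) ≤ 2 * dz (p + 2) := by
  induction p using Nat.strong_induction_on with
  | _ p ih =>
    match p with
    | 0 => decide
    | 1 => decide
    | 2 => decide
    | p + 3 =>
      have e1 : dz (p + 3 + 3) = dz (p + 3 + 1) + dz (p + 3) := by rw [dz]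
      have e2 : dz (p + 3 + 2) = dz (p + 2 + 1) + dz (p + 2) := by
        rw [show p + 3 + 2 = (p + 2) + 3 by ring, dz]
      have h1 := ih (p + 1) (by omega)
      have h2 := ih p (by omega)
      have e3 : dz (p + 1 + 3) = dz (p + 3 + 1) := rfl
      have e4 : dz (p + 1 + 2) = dz (p + 2 + 1) := rfl
      have e5 : dz (p + 3) = dz (p + 2 + 1) := rfl
      omega

lemma dz_le_pow (n j : ℕ) : dz (j + 2 + n) ≤ 2 ^ n * dz (j + 2) := by
  induction n with
  | zero => simp
  | succ n ih =>
    have h1 := dz_succ_le (j + n)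
    have e1 : dz (j + n + 3) = dz (j + 2 + (n + 1)) := by
      rw [show j + n + 3 = j + 2 + (n + 1) by ring]
    have e2 : dz (j + n + 2) = dz (j + 2 + n) := by
      rw [show j + n + 2 = j + 2 + n by ring]
    rw [e1, e2] at h1
    calc dz (j + 2 + (n + 1)) ≤ 2 * dz (j + 2 + n) := h1
      _ ≤ 2 * (2 ^ n * dz (j + 2)) := Nat.mul_le_mul_left 2 ih
      _ = 2 ^ (n + 1) * dz (j + 2) := by ring

section

variable {σ : Type} {wt : σ → ℕ} {f : ℕ → ℕ}

/-- **A positive proportion.** -/
theorem proportion (hf : ∀ p, {m : σ →₀ ℕ | Finsupp.weight wt m = p}.encard = f p) (τ : Set σ)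
    (hτ : ∀ p, {m : σ →₀ ℕ | Finsupp.weight wt m = p ∧ ∀ s ∈ m.support, s ∈ τ}.encard = dz p) :
    (∀ p, f p = dz p) ∨ ∃ n, 1 ≤ n ∧ (∀ p < n, f p = dz p) ∧ (∀ p, dz p + sh dz n p ≤ f p) ∧
      ∀ p, n + 2 ≤ p → (2 ^ n + 1) * dz p ≤ 2 ^ n * f p := by
  classical
  by_cases h : ∃ n, ∃ s, s ∉ τ ∧ wt s = n
  · right
    obtain ⟨s, hs, hn⟩ := Nat.find_spec h
    set n := Nat.find h with hndef
    have hmin : ∀ t, t ∉ τ → n ≤ wt t := fun t ht => Nat.find_min' h ⟨t, ht, rfl⟩
    have h1 : 1 ≤ n := by
      by_contra hc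
      have hn0 : wt s = 0 := by omega
      have hinf : {m : σ →₀ ℕ | Finsupp.weight wt m = 0}.Infinite := by
        refine Set.infinite_of_injective_forall_mem (f := fun j : ℕ => Finsupp.single s j)
          (Finsupp.single_injective s) fun j => ?_
        show Finsupp.weight wt (Finsupp.single s j) = 0
        rw [Finsupp.weight_single, hn0, smul_zero]
      exact hinf (Set.finite_of_encard_eq_coe (hf 0))
    have h2 : ∀ p < n, f p = dz p := by
      intro p hp
      have e : {m : σ →₀ ℕ | Finsupp.weight wt m = p} =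
          {m : σ →₀ ℕ | Finsupp.weight wt m = p ∧ ∀ s ∈ m.support, s ∈ τ} := by
        ext m
        simp only [Set.mem_ofPred_eq]
        refine ⟨fun hm => ⟨hm, fun t ht => ?_⟩, fun hm => hm.1⟩
        by_contra htτ
        have h3 := hmin t htτ
        have h4 : wt t ≤ Finsupp.weight wt m :=
          Finsupp.le_weight_of_ne_zero' wt (Finsupp.mem_support_iff.1 ht)
        omega
      have h3 := hf p
      rw [e, hτ p] at h3
      exact_mod_cast h3.symm
    have h3 : ∀ p, dz p + sh dz n p ≤ f p := by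
      intro p
      set B := {m : σ →₀ ℕ | Finsupp.weight wt m = p ∧ ∀ s ∈ m.support, s ∈ τ} with hB
      rcases Nat.lt_or_ge p n with hp | hp
      · rw [sh, if_neg (by omega), h2 p hp, add_zero]
      · rw [sh, if_pos hp]
        set C := (fun m : σ →₀ ℕ => m + Finsupp.single s 1) ''
          {m : σ →₀ ℕ | Finsupp.weight wt m = p - n ∧ ∀ s ∈ m.support, s ∈ τ} with hC
        have hd : Disjoint B C := by
          rw [Set.disjoint_left]
          rintro m ⟨-, hm⟩ ⟨m', -, rfl⟩
          refine hs (hm s ?_)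
          rw [Finsupp.mem_support_iff, Finsupp.add_apply, Finsupp.single_eq_same]
          omega
        have hsub : B ∪ C ⊆ {m : σ →₀ ℕ | Finsupp.weight wt m = p} := by
          rintro m (hm | ⟨m', hm', rfl⟩)
          · exact hm.1
          · show Finsupp.weight wt (m' + Finsupp.single s 1) = p
            rw [map_add, Finsupp.weight_single, hn, hm'.1, one_smul]
            omega
        have h4 := Set.encard_le_encard hsub
        rw [Set.encard_union_eq hd, hf p, hB, hτ p, hC,
          (add_left_injective (Finsupp.single s 1)).encard_image, hτ (p - n)] at h4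
        exact_mod_cast h4
    refine ⟨n, h1, h2, h3, fun p hp => ?_⟩
    obtain ⟨j, rfl⟩ : ∃ j, p = j + 2 + n := ⟨p - n - 2, by omega⟩
    have h4 := h3 (j + 2 + n)
    rw [sh, if_pos (by omega), Nat.add_sub_cancel] at h4
    have h5 := dz_le_pow n j
    calc (2 ^ n + 1) * dz (j + 2 + n) = 2 ^ n * dz (j + 2 + n) + dz (j + 2 + n) := by ring
      _ ≤ 2 ^ n * dz (j + 2 + n) + 2 ^ n * dz (j + 2) := Nat.add_le_add_left h5 _
      _ = 2 ^ n * (dz (j + 2 + n) + dz (j + 2)) := by ring
      _ ≤ 2 ^ n * f (j + 2 + n) := Nat.mul_le_mul_left _ h4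
  · left
    push Not at h
    intro p
    have e : {m : σ →₀ ℕ | Finsupp.weight wt m = p} =
        {m : σ →₀ ℕ | Finsupp.weight wt m = p ∧ ∀ s ∈ m.support, s ∈ τ} := by
      ext m
      simp only [Set.mem_ofPred_eq]
      refine ⟨fun hm => ⟨hm, fun t _ => ?_⟩, fun hm => hm.1⟩
      by_contra htτ
      exact h (wt t) t htτ rfl
    have h3 := hf p
    rw [e, hτ p] at h3
    exact_mod_cast h3.symm

end

end Pool.Agent.R390.MZ
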