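import Mathlib
import Pool.Agent.R390.MZ.Alt
import Pool.Agent.R390.MZ.Rec

set_option autoImplicit false

/-!
# The recurrence for large weights, for alternating multiple zeta values
-/

open MvPolynomial

namespace Pool.Agent.R390.MZ

section

variable {σ : Type} {wt : σ → ℕ} {x : σ → ℝ} {Z : ℕ → Submodule ℚ ℝ}

open PowerSeries in
lemma fb_series : (1 - PowerSeries.X - PowerSeries.X ^ 2 : PowerSeries ℤ) *
    PowerSeries.mk (fun k => (fb k : ℤ)) = 1 := by
  ext k
  have e1 : (PowerSeries.X : PowerSeries ℤ) = PowerSeries.X ^ 1 := (pow_one _).symm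
  rw [e1, ← pow_mul, sub_mul, sub_mul, one_mul, map_sub, map_sub, PowerSeries.coeff_X_pow_mul',
    PowerSeries.coeff_X_pow_mul', coeff_mk, coeff_mk, coeff_mk, PowerSeries.coeff_one]
  match k with
  | 0 => simp [fb]
  | 1 => simp [fb]
  | k + 2 =>
    rw [if_pos (by omega), if_pos (by omega), if_neg (by omega), fb, fb, fb,
      show k + 2 - 1 + 1 = k + 1 + 1 by omega, show k + 2 - 1 * 2 + 1 = k + 1 by omega,
      show k + 2 + 1 = (k + 1) + 2 by omega, Nat.fib_add_two]
    push_cast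
    ring

open PowerSeries in
/-- **The recurrence.** -/
theorem rational_alt (hd : ∀ k, {m : σ →₀ ℕ | Finsupp.weight wt m = k}.encard = fb k)
    (hZ : ∀ k, Z k = Submodule.span ℚ {y : ℝ | ∃ m : σ →₀ ℕ, Finsupp.weight wt m = k ∧
      y = m.prod fun s e => x s ^ e}) {N : ℕ} (hN : Ph wt x = Ideal.span (relsLe wt x N)) :
    ∃ K : Polynomial ℤ, (1 - PowerSeries.X - PowerSeries.X ^ 2 : PowerSeries ℤ) *
      PowerSeries.mk (fun k => (Module.finrank ℚ (Z k) : ℤ)) = (K : PowerSeries ℤ) := by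
  obtain ⟨G, hG⟩ := exists_avoid hd hZ hN
  obtain ⟨K, hK⟩ := exists_poly (fun k => Set.finite_of_encard_eq_coe (hd k)) G.card G le_rfl
  refine ⟨K, ?_⟩
  simp only [hG]
  rw [hK]
  have h1 : (fun k => (({m : σ →₀ ℕ | Finsupp.weight wt m = k}).ncard : ℤ)) =
      fun k => (fb k : ℤ) := by
    funext k
    rw [Set.ncard_def, hd k, ENat.toNat_natCast]
  rw [h1, mul_left_comm, fb_series, mul_one]

open PowerSeries in
lemma recurrence_alt {z : ℕ → ℤ} {K : Polynomial ℤ}
    (h : (1 - PowerSeries.X - PowerSeries.X ^ 2 : PowerSeries ℤ) * PowerSeries.mk z =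
      (K : PowerSeries ℤ)) : ∃ k0, ∀ k, k0 ≤ k → z (k + 2) = z (k + 1) + z k := by
  refine ⟨K.natDegree, fun k hk => ?_⟩
  have e1 : (PowerSeries.X : PowerSeries ℤ) = PowerSeries.X ^ 1 := (pow_one _).symm
  have h1 := congrArg (PowerSeries.coeff (k + 2)) h
  rw [e1, ← pow_mul, sub_mul, sub_mul, one_mul, map_sub, map_sub, PowerSeries.coeff_X_pow_mul',
    PowerSeries.coeff_X_pow_mul', coeff_mk, coeff_mk, coeff_mk, if_pos (by omega),
    if_pos (by omega), Polynomial.coeff_coe,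
    Polynomial.coeff_eq_zero_of_natDegree_lt (by omega), show k + 2 - 1 = k + 1 by omega,
    show k + 2 - 1 * 2 = k by omega] at h1
  linarith

/-- **Either the recurrence or infinitely many new relations.** -/
theorem dichotomy_alt (hd : ∀ k, {m : σ →₀ ℕ | Finsupp.weight wt m = k}.encard = fb k)
    (hZ : ∀ k, Z k = Submodule.span ℚ {y : ℝ | ∃ m : σ →₀ ℕ, Finsupp.weight wt m = k ∧
      y = m.prod fun s e => x s ^ e}) :
    (∃ k0, ∀ k, k0 ≤ k → Module.finrank ℚ (Z (k + 2)) =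
      Module.finrank ℚ (Z (k + 1)) + Module.finrank ℚ (Z k)) ∨
    ∀ N, ∃ k, N < k ∧ ∃ f, IsWeightedHomogeneous wt f k ∧ aeval x f = 0 ∧
      f ∉ Ideal.span {g : MvPolynomial σ ℚ | ∃ j < k, IsWeightedHomogeneous wt g j ∧
        aeval x g = 0} := by
  by_cases h : ∃ N, Ph wt x = Ideal.span (relsLe wt x N)
  · obtain ⟨N, hN⟩ := h
    obtain ⟨K, hK⟩ := rational_alt hd hZ hN
    obtain ⟨k0, h0⟩ := recurrence_alt hK
    exact Or.inl ⟨k0, fun k hk => by exact_mod_cast h0 k hk⟩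
  · push Not at h
    exact Or.inr fun N => exists_new (h N)

end

end Pool.Agent.R390.MZ
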